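import Pool.Agent.MP_f3dc73_nt.Z31.A
import Pool.Agent.MP_f3dc73_nt.Z31.B

set_option autoImplicit false

-- part Defs
section

/-!
Definitions for the lower bound on the span of the odd zeta values.
-/


namespace ZDil

open Finset Polynomial ZOdd

/-- The rational span of one and of the odd zeta values up to s. -/
noncomputable def Lo (s : ℕ) : Submodule ℚ ℝ :=
  Submodule.span ℚ (insert 1 {x | ∃ j, Odd j ∧ 3 ≤ j ∧ j ≤ s ∧ x = zr j})

/-- Taylor coefficients at zero of the even part of the digamma type series. -/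
noncomputable def gz (k : ℕ) : ℝ := if Even k ∧ 2 ≤ k then -2 * zr (k + 1) else 0

/-- The coefficient of b^k in the binomial polynomial of degree m. -/
noncomputable def bc : ℕ → ℕ → ℝ
  | 0 => fun k => if k = 0 then 1 else 0
  | m + 1 => fun k => (sh (bc m) k - m * bc m k) / ((m : ℝ) + 1)

/-- The coefficient of b^k in the row function of degree m with data e and g. -/
noncomputable def fc (e : ℝ) (g : ℕ → ℝ) : ℕ → ℕ → ℝ
  | 0 => g
  | m + 1 => fun k => (sh (fc e g m) k - m * fc e g m k - 2 * e * bc (m + 1) k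
      + if m = 0 ∧ k = 0 then e else 0) / ((m : ℝ) + 1)

/-- Translation by t through the rule of Pascal. -/
noncomputable def pa (F : ℕ → ℝ) : ℕ → ℕ → ℝ
  | 0 => F
  | t + 1 => fun m => pa F t m + sh (pa F t) m

/-- The entries of the matrix. -/
noncomputable def ent (G : ℕ → ℕ → ℝ) (d i m v ν : ℕ) : ℝ :=
  ((i + v).choose i : ℝ) * (d : ℝ) ^ v * pa (fun m' => G m' (i + v)) (d * ν) m

/-- The binomial polynomial. -/
noncomputable def bn : ℕ → ℂ → ℂ
  | 0 => fun _ => 1
  | m + 1 => fun z => (z - m) * bn m z / ((m : ℂ) + 1)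

/-- The derivative of the binomial polynomial. -/
noncomputable def bd : ℕ → ℂ → ℂ
  | 0 => fun _ => 0
  | m + 1 => fun z => ((z - m) * bd m z + bn m z) / ((m : ℂ) + 1)

/-- The row function of degree m, holomorphic in a strip. -/
noncomputable def fm (m : ℕ) (z : ℂ) : ℂ :=
  bn m z * (Zs 1 (z + 1) + Zs 1 ((m : ℂ) - z) - 2 * ∑ j ∈ range m, 1 / ((j : ℂ) + 1)) + bd m z

/-- Column labels. -/
abbrev IC (δ w : ℕ) : Type := Fin δ × Fin (w + 1)

/-- Row labels of the differential system. -/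
abbrev IR (D A : ℕ) : Type := Σ d : Fin D, Fin (A + 1) × Fin (d + 1)

/-- The residue matrices at zero and at one. -/
noncomputable def eps {δ w D A : ℕ} (e : Fin δ → ℝ) (β : Bool) :
    Matrix (IC δ w ⊕ IR D A) (IC δ w ⊕ IR D A) ℝ :=
  Matrix.of fun x y => match x, y with
    | Sum.inl c, Sum.inl c' => if β = false ∧ c.1 = c'.1 ∧ (c.2 : ℕ) + 1 = c'.2 then 1 else 0
    | Sum.inl _, Sum.inr _ => 0
    | Sum.inr r, Sum.inl c => if (r.2.1 : ℕ) = 0 ∧ (c.2 : ℕ) = 0 then
        (if β = false ∧ (r.2.2 : ℕ) = 0 then 1 else 2) / ((r.1 : ℝ) + 1) * e c.1 else 0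
    | Sum.inr r, Sum.inr r' => if β = false ∧ r.1 = r'.1 ∧ (r.2.2 : ℕ) = r'.2.2 then
        (if r.2.1 = r'.2.1 then ((r.2.2 : ℕ) : ℝ) / ((r.1 : ℝ) + 1)
          else if (r.2.1 : ℕ) = r'.2.1 + 1 then -1 / ((r.1 : ℝ) + 1) else 0) else 0

/-- The generating series of the entries of one column. -/
noncomputable def cs (G : ℕ → ℕ → ℝ) (d i v : ℕ) : PowerSeries ℝ :=
  PowerSeries.C (((i + v).choose i : ℝ) * (d : ℝ) ^ v) * PowerSeries.mk fun m => G m (i + v)

/-- The series of the functionals with zeta data. -/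
noncomputable def Ps {δ w D A : ℕ} (e : Fin δ → ℝ) (g : Fin δ → ℕ → ℝ) (d i : ℕ) :
    IC δ w ⊕ IR D A → PowerSeries ℝ :=
  Sum.elim (fun c => -cs (fc (e c.1) (g c.1)) (d + 1) i c.2)
    fun r => if (r.1 : ℕ) = d ∧ (r.2.1 : ℕ) = i then (1 + PowerSeries.X) ^ (r.2.2 : ℕ) else 0

/-- The series of the polynomial functionals. -/
noncomputable def Pb {δ w D A : ℕ} (e : Fin δ → ℝ) (d i : ℕ) :
    IC δ w ⊕ IR D A → PowerSeries ℝ :=
  Sum.elim (fun c => PowerSeries.C (e c.1) * cs bc (d + 1) i c.2) fun _ => 0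

/-- The value of a functional on a polynomial vector. -/
noncomputable def rr {ι : Type} [Fintype ι] (Ψ : ι → PowerSeries ℝ) (Y : PowerSeries ℝ)
    (s : ι → ℝ[X]) : PowerSeries ℝ := ∑ x, Ψ x * aeval Y (s x)

/-- The vector along which the residue at one acts. -/
noncomputable def ev {δ w D A : ℕ} : IC δ w ⊕ IR D A → ℝ :=
  Sum.elim 0 fun r => if (r.2.1 : ℕ) = 0 then 1 / ((r.1 : ℝ) + 1) else 0

/-- Sections of degree less than N on which all functionals vanish to the prescribed order. -/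
def Good {δ w D A : ℕ} (e : Fin δ → ℝ) (g : Fin δ → ℕ → ℝ) (K n N : ℕ)
    (s : IC δ w ⊕ IR D A → ℝ[X]) : Prop :=
  (∀ x, s x ∈ degreeLT ℝ N) ∧ ∀ d < D, ∀ i ≤ A, ∀ m < (d + 1 + K) * n,
    PowerSeries.coeff m (rr (Ps e g d i) ((1 + PowerSeries.X) ^ (d + 1)) s) = 0 ∧
      PowerSeries.coeff m (rr (Pb e d i) ((1 + PowerSeries.X) ^ (d + 1)) s) = 0

end ZDil

end

-- part KL
section

namespace ZDil

open Finset Polynomial ZOdd

theorem kl_root {g q u : ℝ[X]} {a : ℝ} (hg : g ≠ 0) (h0 : eval a g = 0)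
    (H : u * ((X - C a) * derivative g) = q * g) :
    ∃ r : ℕ, 1 ≤ r ∧ eval a q = r * eval a u := by
  obtain ⟨g1, hg1, hg2⟩ := exists_eq_pow_rootMultiplicity_mul_and_not_dvd g hg a
  rw [dvd_iff_isRoot, IsRoot.def] at hg2
  generalize rootMultiplicity a g = r at hg1
  have hX : (X - C a : ℝ[X]) ≠ 0 := X_sub_C_ne_zero a
  refine ⟨r, ?_, ?_⟩
  · rcases Nat.eq_zero_or_pos r with h | h
    · rw [hg1, h, pow_zero, one_mul] at h0
      exact absurd h0 hg2
    · exact h
  · have e := X_sub_C_mul_derivative_pow a r g1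
    rw [← hg1] at e
    rw [e] at H
    have k2 : u * (C (r : ℝ) * g1 + (X - C a) * derivative g1) = q * g1 := by
      apply mul_left_cancel₀ (pow_ne_zero r hX)
      rw [hg1] at H
      linear_combination H
    have k3 := congrArg (eval a) k2
    simp only [eval_mul, eval_add, eval_sub, eval_X, eval_C, sub_self, zero_mul, add_zero] at k3
    apply mul_right_cancel₀ hg2
    linear_combination -k3

theorem kl_poly {f h : ℝ[X]} {μ : ℝ} (hμ : |μ| < 1) (hh : h.natDegree ≤ 1)
    (H : th f + C μ * (1 - X) * f + h = 0) : f.natDegree = 0 := by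
  by_contra hm
  have hf : f ≠ 0 := by rintro rfl; simp at hm
  have hl : f.coeff f.natDegree ≠ 0 := mt leadingCoeff_eq_zero.1 hf
  have e : X * derivative f - X * (X * derivative f) + (C μ * f - C μ * (X * f)) + h = 0 := by
    rw [← H, th]; ring
  have k := congrArg (fun p => coeff p (f.natDegree + 1)) e
  have z1 : f.coeff (f.natDegree + 1) = 0 := coeff_eq_zero_of_natDegree_lt (by omega)
  have z2 : h.coeff (f.natDegree + 1) = 0 := coeff_eq_zero_of_natDegree_lt (by omega)
  simp only [coeff_add, coeff_sub, coeff_X_mul_derivative, coeff_C_mul, coeff_zero] at k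
  rw [coeff_X_mul (X * derivative f), coeff_X_mul f, coeff_X_mul_derivative, z1, z2] at k
  have k2 : ((f.natDegree : ℝ) + μ) * f.coeff f.natDegree = 0 := by linear_combination -k
  have k3 := (mul_eq_zero.1 k2).resolve_right hl
  have k4 : (1 : ℝ) ≤ f.natDegree := by exact_mod_cast Nat.one_le_iff_ne_zero.2 hm
  have := (abs_lt.1 hμ).1
  linarith

theorem kl_cop {f g h : ℝ[X]} {μ : ℝ} (hg : g ≠ 0) (hμ : |μ| < 1) (hc : IsCoprime f g)
    (H : g * th f - th g * f + C μ * (1 - X) * (f * g) + h * g ^ 2 = 0) : g.natDegree = 0 := by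
  have hd : g ∣ th g := by
    apply hc.symm.dvd_of_dvd_mul_right
    exact ⟨th f + C μ * (1 - X) * f + h * g, by linear_combination -H⟩
  obtain ⟨q, hq⟩ := hd
  have E : th f - q * f + C μ * (1 - X) * f + h * g = 0 := by
    apply mul_left_cancel₀ hg
    rw [hq] at H
    linear_combination H
  obtain ⟨a, b, hab⟩ := hc
  have nz : ∀ x : ℝ, eval x g = 0 → eval x f ≠ 0 := by
    intro x h1 h2
    have := congrArg (eval x) hab
    simp [h1, h2] at this
  have g0 : eval 0 g ≠ 0 := by
    intro h0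
    obtain ⟨r, hr, hr2⟩ := kl_root (u := 1 - X) (q := q) hg h0
      (by rw [mul_comm q, ← hq, th, map_zero]; ring)
    have k := congrArg (eval 0) E
    simp only [th, eval_mul, eval_add, eval_sub, eval_X, eval_C, eval_one, eval_zero, h0] at k hr2
    have k2 : (μ - r) * eval 0 f = 0 := by rw [hr2] at k; linear_combination k
    have k3 := (mul_eq_zero.1 k2).resolve_right (nz 0 h0)
    have k4 : (1 : ℝ) ≤ r := by exact_mod_cast hr
    have := (abs_lt.1 hμ).2
    linarith
  have g1 : eval 1 g ≠ 0 := by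
    intro h0
    obtain ⟨r, hr, hr2⟩ := kl_root (u := -X) (q := q) hg h0
      (by rw [mul_comm q, ← hq, th, map_one]; ring)
    have k := congrArg (eval 1) E
    simp only [th, eval_mul, eval_add, eval_sub, eval_X, eval_C, eval_one, eval_zero, eval_neg,
      h0] at k hr2
    have k2 : (r : ℝ) * eval 1 f = 0 := by rw [hr2] at k; linear_combination k
    have k3 := (mul_eq_zero.1 k2).resolve_right (nz 1 h0)
    have k4 : (1 : ℝ) ≤ r := by exact_mod_cast hr
    linarith
  have cp : ∀ x : ℝ, eval x g ≠ 0 → IsCoprime g (X - C x) := fun x hx =>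
    ((irreducible_X_sub_C x).coprime_iff_not_dvd.2 (by rwa [dvd_iff_isRoot])).symm
  have hd : g ∣ derivative g := by
    apply (cp 1 g1).dvd_of_dvd_mul_left
    apply (cp 0 g0).dvd_of_dvd_mul_left
    refine ⟨-q, ?_⟩
    rw [mul_neg, ← hq, th, map_zero, map_one]; ring
  by_contra hm
  have hlt := natDegree_derivative_lt hm
  exact hm (derivative_eq_zero.1 (eq_zero_of_dvd_of_natDegree_lt hd hlt))

theorem key_lemma {f g h : ℝ[X]} {μ : ℝ} (hg : g ≠ 0) (hμ : |μ| < 1) (hh : h.natDegree ≤ 1)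
    (H : g * th f - th g * f + C μ * (1 - X) * (f * g) + h * g ^ 2 = 0) :
    ∃ c : ℝ, f = C c * g := by
  classical
  obtain ⟨f1, g1, hf1, hg1, hc⟩ := extract_gcd f g
  generalize gcd f g = d at hf1 hg1
  have hc' : IsCoprime f1 g1 := (gcd_isUnit_iff f1 g1).1 hc
  subst hf1 hg1
  have hd : d ≠ 0 := left_ne_zero_of_mul hg
  have hg' : g1 ≠ 0 := right_ne_zero_of_mul hg
  have H1 : g1 * th f1 - th g1 * f1 + C μ * (1 - X) * (f1 * g1) + h * g1 ^ 2 = 0 := by
    apply mul_left_cancel₀ (pow_ne_zero 2 hd)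
    rw [th_mul, th_mul] at H
    linear_combination H
  obtain ⟨c, rfl⟩ := natDegree_eq_zero.1 (kl_cop hg' hμ hc' H1)
  have hc0 : c ≠ 0 := by rintro rfl; simp at hg'
  have H2 : th f1 + C μ * (1 - X) * f1 + C c * h = 0 := by
    apply mul_left_cancel₀ hg'
    rw [th_C] at H1
    linear_combination H1
  obtain ⟨a, rfl⟩ := natDegree_eq_zero.1 (kl_poly hμ ((natDegree_C_mul_le c h).trans hh) H2)
  refine ⟨a / c, ?_⟩
  have : (C a : ℝ[X]) = C (a / c) * C c := by rw [← map_mul, div_mul_cancel₀ _ hc0]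
  rw [this]; ring

end ZDil

end

-- part CS
section

namespace ZDil

open Finset Polynomial ZOdd

theorem constancy2 {ι : Type} [Fintype ι] (ε : Bool → Matrix ι ι ℝ) (wt : ι → ℕ)
    (hε : ∀ β i j, i ≠ j → ε β i j ≠ 0 → wt i < wt j) (h1 : ∀ i, ε true i i = 0)
    (h0 : ∀ i j, |ε false i i - ε false j j| < 1) (S : Submodule ℝ[X] (ι → ℝ[X]))
    (hsat : ∀ (f : ℝ[X]) x, f ≠ 0 → f • x ∈ S → x ∈ S) (hst : ∀ x ∈ S, nab ε x ∈ S) :
    ∀ x ∈ S, ∀ d, (fun i => C ((x i).coeff d)) ∈ S := by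
  classical
  suffices H : ∀ (n : ℕ) (J : Finset ι), J.card = n → (∀ β i j, j ∈ J → ε β i j ≠ 0 → i ∈ J) →
      ∀ x ∈ S, (∀ i, i ∉ J → x i = 0) → ∀ d, (fun i => C ((x i).coeff d)) ∈ S from
    fun x hx => H _ univ rfl (fun _ _ _ _ _ => mem_univ _) x hx (fun i hi => absurd (mem_univ i) hi)
  intro n
  induction n with
  | zero =>
    intro J hJ _ x _ hx d
    rw [card_eq_zero] at hJ
    subst hJ
    convert S.zero_mem using 1
    funext i
    simp [hx i (notMem_empty i)]
  | succ n ih =>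
    intro J hJ hcl q hq hqJ
    obtain ⟨j0, hj0, hmax⟩ := exists_max_image J wt (card_pos.1 (by omega))
    have hcl' : ∀ β i j, j ∈ J.erase j0 → ε β i j ≠ 0 → i ∈ J.erase j0 := by
      intro β i j hj hij
      have hj' := mem_of_mem_erase hj
      refine mem_erase.2 ⟨?_, hcl β i j hj' hij⟩
      rintro rfl
      exact absurd (hε β _ _ (ne_of_mem_erase hj).symm hij) (not_lt.2 (hmax j hj'))
    have ih' := ih (J.erase j0) (by rw [card_erase_of_mem hj0]; omega) hcl'
    have hsupp : ∀ (J' : Finset ι), (∀ β i j, j ∈ J' → ε β i j ≠ 0 → i ∈ J') →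
        ∀ x : ι → ℝ[X], (∀ i, i ∉ J' → x i = 0) → ∀ i, i ∉ J' → nab ε x i = 0 := by
      intro J' hJ' x hx i hi
      simp only [nab, hx i hi, th_zero, zero_add]
      refine sum_eq_zero fun j _ => ?_
      by_cases hj : j ∈ J'
      · have h0 : ∀ β, ε β i j = 0 := fun β => by
          by_contra h
          exact hi (hJ' β i j hj h)
        simp [h0]
      · simp [hx j hj]
    by_cases hg : q j0 = 0
    · refine ih' q hq fun i hi => ?_
      by_cases h : i = j0
      · rw [h, hg]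
      · exact hqJ i fun h' => hi (mem_erase.2 ⟨h, h'⟩)
    set g := q j0 with hgdef
    let V : Submodule ℝ (ι → ℝ) :=
      { carrier := {c | (fun i => C (c i)) ∈ S ∧ ∀ i, i ∉ J.erase j0 → c i = 0}
        add_mem' := by
          rintro a b ⟨ha, ha'⟩ ⟨hb, hb'⟩
          refine ⟨?_, fun i hi => by simp [ha' i hi, hb' i hi]⟩
          convert S.add_mem ha hb using 1
          funext i; simp
        zero_mem' := ⟨by convert S.zero_mem using 1; funext i; simp, fun i _ => rfl⟩
        smul_mem' := by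
          rintro r a ⟨ha, ha'⟩
          refine ⟨?_, fun i hi => by simp [ha' i hi]⟩
          convert S.smul_mem (C r) ha using 1
          funext i; simp }
    have hcoef : ∀ x ∈ S, (∀ i, i ∉ J.erase j0 → x i = 0) → ∀ d, (fun i => (x i).coeff d) ∈ V :=
      fun x hx hx' d => ⟨ih' x hx hx' d, fun i hi => by simp [hx' i hi]⟩
    have hV : ∀ c ∈ V, ∀ β, Matrix.mulVec (ε β) c ∈ V := by
      intro c hc β
      have h1 := hcoef _ (hst _ hc.1) (hsupp _ hcl' _ fun i hi => by simp [hc.2 i hi])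
      have h2 : Matrix.mulVec (ε false) c ∈ V := by
        convert h1 0 using 1
        funext i; simp [nab_const_coeff]
      cases β
      · exact h2
      · convert V.add_mem (h1 1) h2 using 1
        funext i
        simp [nab_const_coeff, coeff_X_mul, coeff_C]
    set p : ℝ[X] := th g + (1 - X) * C (ε false j0 j0) * g with hp
    have hq' : ∀ d, (fun i => ((g • nab ε q - p • q) i).coeff d) ∈ V := by
      refine hcoef _ (S.sub_mem (S.smul_mem _ (hst q hq)) (S.smul_mem _ hq)) fun i hi => ?_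
      simp only [Pi.sub_apply, Pi.smul_apply, smul_eq_mul]
      by_cases h : i = j0
      · subst h
        have : nab ε q i = p := by
          simp only [nab]
          rw [sum_eq_single i, h1, hp, hgdef]
          · simp
          · intro j _ hji
            by_cases hj : j ∈ J
            · have h0 : ∀ β, ε β i j = 0 := fun β => by
                by_contra h
                exact absurd (hε β _ _ hji.symm h) (not_lt.2 (hmax j hj))
              simp [h0]
            · simp [hqJ j hj]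
          · exact fun h => absurd (mem_univ i) h
        rw [this]; ring
      · have hi' : i ∉ J := fun h' => hi (mem_erase.2 ⟨h, h'⟩)
        rw [hsupp J hcl q hqJ i hi', hqJ i hi']; ring
    have key : ∀ (k : ℕ) (T : Finset ι), T.card = k → (∀ β i j, i ∈ T → ε β i j ≠ 0 → j ∈ T) →
        ∀ ψ : ι → ℝ, (∀ w ∈ V, ∑ i, ψ i * w i = 0) → (∀ i, i ∉ T → ψ i = 0) →
        ∃ a : ℝ, pr ψ q = C a * g := by
      intro k
      induction k with
      | zero =>
        intro T hT _ ψ _ h
        rw [card_eq_zero] at hT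
        subst hT
        exact ⟨0, by simp [pr, fun i => h i (notMem_empty i)]⟩
      | succ k ihk =>
        intro T hT hTc ψ hψ h
        obtain ⟨i0, hi0, hmin⟩ := exists_min_image T wt (card_pos.1 (by omega))
        have hz : ∀ β i, i ∈ T → i ≠ i0 → ε β i i0 = 0 := fun β i hi hne => by
          by_contra h'
          exact absurd (hε β _ _ hne h') (not_lt.2 (hmin i hi))
        have hb : ∀ β, ∃ a : ℝ,
            pr (Matrix.vecMul ψ (ε β)) q = C a * g + C (ε β i0 i0) * pr ψ q := by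
          intro β
          obtain ⟨a, ha⟩ := ihk (T.erase i0) (by rw [card_erase_of_mem hi0]; omega)
            (fun β i j hi hij => mem_erase.2 ⟨by
              rintro rfl
              exact hij (hz β i (mem_of_mem_erase hi) (ne_of_mem_erase hi)),
              hTc β i j (mem_of_mem_erase hi) hij⟩)
            (fun i => Matrix.vecMul ψ (ε β) i - ε β i0 i0 * ψ i) (fun w hw => by
              have e1 : ∑ i, Matrix.vecMul ψ (ε β) i * w i = 0 :=
                (Matrix.dotProduct_mulVec ψ (ε β) w).symm.trans (hψ _ (hV w hw β))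
              simp only [sub_mul, sum_sub_distrib, mul_assoc, ← mul_sum, e1, hψ w hw]
              ring) (fun j hj => by
              simp only [Matrix.vecMul, dotProduct]
              by_cases hj0 : j = i0
              · subst hj0
                rw [sum_eq_single j, mul_comm, sub_self]
                · intro i _ hi
                  by_cases hiT : i ∈ T
                  · rw [hz β i hiT hi, mul_zero]
                  · rw [h i hiT, zero_mul]
                · exact fun h => absurd (mem_univ j) h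
              · have hjT : j ∉ T := fun h' => hj (mem_erase.2 ⟨hj0, h'⟩)
                rw [h j hjT, mul_zero, sub_zero]
                refine sum_eq_zero fun i _ => ?_
                by_cases hiT : i ∈ T
                · have : ε β i j = 0 := by
                    by_contra h'
                    exact hjT (hTc β i j hiT h')
                  rw [this, mul_zero]
                · rw [h i hiT, zero_mul])
          refine ⟨a, ?_⟩
          rw [← ha]
          simp only [pr, map_sub, map_mul, mul_sum]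
          rw [← sum_add_distrib]
          exact sum_congr rfl fun i _ => by ring
        obtain ⟨a0, e0⟩ := hb false
        obtain ⟨a1, e1⟩ := hb true
        have h2 : pr ψ (g • nab ε q - p • q) = 0 := by
          ext d
          rw [pr_coeff, coeff_zero]
          exact hψ _ (hq' d)
        have h3 : pr ψ (g • nab ε q - p • q) = g * pr ψ (nab ε q) - p * pr ψ q := by
          simp only [pr, Pi.sub_apply, Pi.smul_apply, smul_eq_mul, mul_sum]
          rw [← sum_sub_distrib]
          exact sum_congr rfl fun i _ => by ring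
        rw [h3, pr_nab, e0, e1, h1, hp, map_zero] at h2
        refine key_lemma (μ := ε false i0 i0 - ε false j0 j0) (h := (1 - X) * C a0 + X * C a1) hg
          (h0 _ _) (by compute_degree) ?_
        rw [map_sub]
        linear_combination h2
    have hgd : g.coeff g.natDegree ≠ 0 := mt leadingCoeff_eq_zero.1 hg
    let c : ι → ℝ := fun i => (q i).coeff g.natDegree / g.coeff g.natDegree
    have h5 : ∀ d, (fun i => ((q - g • fun i => C (c i)) i).coeff d) ∈ V := by
      intro d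
      refine mem_of_ann V _ fun ψ hψ => ?_
      obtain ⟨a, ha⟩ := key _ univ rfl (fun _ _ _ _ _ => mem_univ _) ψ hψ
        (fun i hi => absurd (mem_univ i) hi)
      have h6 : ∑ i, ψ i * c i = a := by
        have := congrArg (fun p : ℝ[X] => p.coeff g.natDegree) ha
        simp only [pr_coeff, coeff_C_mul] at this
        simp only [c, ← mul_div_assoc, ← sum_div, this]
        field_simp
      have h7 := congrArg (fun p : ℝ[X] => p.coeff d) ha
      simp only [pr_coeff, coeff_C_mul] at h7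
      simp only [Pi.sub_apply, Pi.smul_apply, smul_eq_mul, coeff_sub, coeff_mul_C, mul_sub,
        sum_sub_distrib, h7, ← h6, sum_mul]
      rw [sub_eq_zero]
      exact sum_congr rfl fun i _ => by ring
    have h8 : (fun i => C (c i)) ∈ S := by
      refine hsat g _ hg ?_
      have := S.sub_mem hq (mem_of_coeff S _ fun d => (h5 d).1)
      simpa using this
    intro d
    convert S.add_mem (h5 d).1 (S.smul_mem (C (g.coeff d)) h8) using 1
    funext i
    simp [coeff_mul_C]

end ZDil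

end

-- part SC
section

namespace ZDil

open Finset Polynomial ZOdd

theorem sat_core2 {ι : Type} [Fintype ι] (ε : Bool → Matrix ι ι ℝ)
    (hcon : ∀ S : Submodule ℝ[X] (ι → ℝ[X]), (∀ (f : ℝ[X]) x, f ≠ 0 → f • x ∈ S → x ∈ S) →
      (∀ x ∈ S, nab ε x ∈ S) → ∀ x ∈ S, ∀ d, (fun i => C ((x i).coeff d)) ∈ S) (W : Submodule ℝ (ι → ℝ)) (hW : St ε W)
    (Kf : ℕ → Set (ι → ℝ[X])) (hmono : ∀ j, Kf j ⊆ Kf (j + 1))
    (hnab : ∀ j, ∀ x ∈ Kf j, nab ε x ∈ Kf (j + 1)) :
    ∃ (W' : Submodule ℝ (ι → ℝ)) (μ : ℕ) (e : Fin μ → ι → ℝ[X]), μ ≤ Fintype.card ι ∧ St ε W' ∧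
      W ≤ W' ∧ (∀ k, e k ∈ Kf μ) ∧ (∀ k, e k ∈ PW W') ∧ (∀ x ∈ Kf 0, x ∈ PW W') ∧
      (∀ c : Fin μ → ℝ[X], ∑ k, c k • e k ∈ PW W → ∀ k, c k = 0) ∧
      Module.finrank ℝ W' ≤ Module.finrank ℝ W + μ := by
  classical
  have hind : ∀ (μ : ℕ) (e : Fin μ → ι → ℝ[X]),
      (∀ c : Fin μ → ℝ[X], ∑ k, c k • e k ∈ PW W → ∀ k, c k = 0) → μ ≤ Fintype.card ι := by
    intro μ e he
    have h1 : LinearIndependent ℝ[X] e :=
      Fintype.linearIndependent_iff.2 fun c hc => he c (by rw [hc]; exact (PW W).zero_mem)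
    have := h1.fintype_card_le_finrank
    rwa [Fintype.card_fin, Module.finrank_fintype_fun_eq_card] at this
  have hex : ∃ μ : ℕ, ¬ ∃ e : Fin (μ + 1) → ι → ℝ[X], (∀ k, e k ∈ Kf (μ + 1)) ∧
      ∀ c : Fin (μ + 1) → ℝ[X], ∑ k, c k • e k ∈ PW W → ∀ k, c k = 0 := by
    refine ⟨Fintype.card ι, ?_⟩
    rintro ⟨e, -, he⟩
    have := hind _ e he
    omega
  have hspec := Nat.find_spec hex
  have hmin := fun m => Nat.find_min hex (m := m)
  generalize Nat.find hex = μ at hspec hmin
  obtain ⟨e, heK, hli⟩ : ∃ e : Fin μ → ι → ℝ[X], (∀ k, e k ∈ Kf μ) ∧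
      ∀ c : Fin μ → ℝ[X], ∑ k, c k • e k ∈ PW W → ∀ k, c k = 0 := by
    cases μ with
    | zero => exact ⟨Fin.elim0, fun k => k.elim0, fun _ _ k => k.elim0⟩
    | succ m => exact not_not.1 (hmin m (Nat.lt_succ_self m))
  let S : Submodule ℝ[X] (ι → ℝ[X]) :=
    { carrier := {x | ∃ g : ℝ[X], g ≠ 0 ∧ ∃ c : Fin μ → ℝ[X], g • x - ∑ k, c k • e k ∈ PW W}
      add_mem' := by
        rintro x y ⟨g, hg, c, hc⟩ ⟨g', hg', c', hc'⟩
        refine ⟨g * g', mul_ne_zero hg hg', fun k => g' * c k + g * c' k, ?_⟩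
        convert (PW W).add_mem ((PW W).smul_mem g' hc) ((PW W).smul_mem g hc') using 1
        simp only [add_smul, sum_add_distrib, mul_smul, ← smul_sum, smul_sub, smul_add]
        rw [smul_comm g' g x]
        abel
      zero_mem' := ⟨1, one_ne_zero, 0, by simp⟩
      smul_mem' := by
        rintro f x ⟨g, hg, c, hc⟩
        refine ⟨g, hg, fun k => f * c k, ?_⟩
        convert (PW W).smul_mem f hc using 1
        simp only [mul_smul, ← smul_sum, smul_sub]
        rw [smul_comm g f x] }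
  have hsat : ∀ (f : ℝ[X]) x, f ≠ 0 → f • x ∈ S → x ∈ S := by
    rintro f x hf ⟨g, hg, c, hc⟩
    exact ⟨g * f, mul_ne_zero hg hf, c, by rwa [mul_smul]⟩
  have hPS : ∀ x ∈ PW W, x ∈ S := fun x hx => ⟨1, one_ne_zero, 0, by simpa using hx⟩
  have hKS : ∀ x ∈ Kf (μ + 1), x ∈ S := by
    intro x hx
    by_contra hxS
    refine hspec ⟨Fin.snoc (α := fun _ => ι → ℝ[X]) e x, fun k => ?_, fun c hc => ?_⟩
    · induction k using Fin.lastCases with
      | last => simpa using hx
      | cast k => simpa using hmono μ (heK k)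
    · rw [Fin.sum_univ_castSucc] at hc
      simp only [Fin.snoc_castSucc, Fin.snoc_last] at hc
      have h0 : c (Fin.last μ) = 0 := by
        by_contra h0
        refine hxS ⟨_, h0, fun k => -c k.castSucc, ?_⟩
        convert hc using 1
        simp only [neg_smul, sum_neg_distrib]
        abel
      rw [h0, zero_smul, add_zero] at hc
      intro k
      induction k using Fin.lastCases with
      | last => exact h0
      | cast k => exact hli _ hc k
  have heS : ∀ k, e k ∈ S := fun k => hKS _ (hmono μ (heK k))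
  have hst : ∀ x ∈ S, nab ε x ∈ S := by
    intro x hx
    obtain ⟨g, hg, c, hc⟩ := id hx
    refine hsat g _ hg ?_
    have h1 : ∀ s : Finset (Fin μ), nab ε (∑ k ∈ s, c k • e k) ∈ S := by
      intro s
      induction s using Finset.induction_on with
      | empty => simp [nab_zero]
      | insert k s hk ih =>
        rw [sum_insert hk, nab_add, nab_smul]
        exact S.add_mem (S.add_mem (S.smul_mem _ (heS k))
          (S.smul_mem _ (hKS _ (hnab μ _ (heK k))))) ih
    have h2 : g • nab ε x = nab ε (g • x - ∑ k, c k • e k) + nab ε (∑ k, c k • e k) - th g • x := by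
      rw [← nab_add, sub_add_cancel, nab_smul]; abel
    rw [h2]
    exact S.sub_mem (S.add_mem (hPS _ (nab_mem_PW hW hc)) (h1 _)) (S.smul_mem _ hx)
  have hcst := hcon S hsat hst
  let W' : Submodule ℝ (ι → ℝ) :=
    { carrier := {c | Cv c ∈ S}
      add_mem' := by
        intro a b ha hb
        show Cv (a + b) ∈ S
        convert S.add_mem ha hb using 1
        funext i; simp [Cv]
      zero_mem' := by
        show Cv 0 ∈ S
        convert S.zero_mem using 1
        funext i; simp [Cv]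
      smul_mem' := by
        intro r a ha
        show Cv (r • a) ∈ S
        convert S.smul_mem (C r) ha using 1
        funext i; simp [Cv] }
  have hSP : ∀ x ∈ S, x ∈ PW W' := fun x hx d => hcst x hx d
  have hWW : W ≤ W' := fun c hc => hPS _ (Cv_mem.2 hc)
  refine ⟨W', μ, e, hind μ e hli, fun β c hc => ?_, hWW, heK, fun k => hSP _ (heS k),
    fun x hx => ?_, hli, ?_⟩
  · have h1 := hSP _ (hst _ hc)
    have h2 : Matrix.mulVec (ε false) c ∈ W' := by
      convert h1 0 using 1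
      funext i
      simp only [cf_apply]
      unfold Cv
      simp [nab_const_coeff]
    cases β
    · exact h2
    · convert W'.add_mem (h1 1) h2 using 1
      funext i
      simp only [cf_apply, Pi.add_apply]
      unfold Cv
      simp [nab_const_coeff, coeff_X_mul, coeff_C]
  · have : ∀ j, Kf 0 ⊆ Kf j := fun j => by
      induction j with
      | zero => exact le_rfl
      | succ j ih => exact ih.trans (hmono j)
    exact hSP _ (hKS x (this _ hx))
  · obtain ⟨U, hU1, hU2⟩ := IsModularLattice.exists_disjoint_and_sup_eq hWW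
    have h1 := Submodule.finrank_sup_add_finrank_inf_eq W U
    rw [hU2] at h1
    let b := Module.finBasis ℝ U
    have hbS : ∀ k, Cv (b k : ι → ℝ) ∈ S := fun k => (hU2 ▸ le_sup_right : U ≤ W') (b k).2
    choose g hg c hc using hbS
    have h2 : LinearIndependent ℝ[X] c := by
      refine Fintype.linearIndependent_iff.2 fun r hr k => ?_
      have h3 : ∑ k, (r k * g k) • Cv (b k : ι → ℝ) ∈ PW W := by
        convert (PW W).sum_mem fun k (_ : k ∈ univ) => (PW W).smul_mem (r k) (hc k) using 1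
        simp only [smul_sub, sum_sub_distrib, mul_smul, smul_sum]
        rw [sum_comm, eq_comm, sub_eq_self]
        refine sum_eq_zero fun l _ => ?_
        have := congrFun hr l
        simp only [Finset.sum_apply, Pi.smul_apply, smul_eq_mul, Pi.zero_apply] at this
        simp only [← mul_smul, ← sum_smul, this, zero_smul]
      have h4 : r k * g k = 0 := by
        ext d
        have h5 : ((∑ k, (r k * g k).coeff d • b k : U) : ι → ℝ) ∈ W := by
          convert h3 d using 1
          funext i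
          simp [cf_apply, Cv, Finset.sum_apply, finsetSum_coeff]
        have h6 : (∑ k, (r k * g k).coeff d • b k : U) = 0 :=
          Subtype.ext (Submodule.disjoint_def.1 hU1 _ h5 (Subtype.prop _))
        simpa using Fintype.linearIndependent_iff.1 b.linearIndependent _ h6 k
      exact (mul_eq_zero.1 h4).resolve_right (hg k)
    have := h2.fintype_card_le_finrank
    rw [Fintype.card_fin, Module.finrank_fintype_fun_eq_card, Fintype.card_fin] at this
    omega

end ZDil

end

-- part UB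
section

namespace ZDil

open Finset Polynomial ZOdd

/-- The Taylor coefficients at one of a polynomial vector. -/
noncomputable def ubG {ι : Type} (m : ℕ) : (ι → ℝ[X]) →ₗ[ℝ] (ι → ℝ) :=
  LinearMap.pi fun i => lcoeff ℝ m ∘ₗ taylor (1 : ℝ) ∘ₗ LinearMap.proj i

theorem ub_apply {ι : Type} (m : ℕ) (s : ι → ℝ[X]) (i : ι) :
    ubG m s i = (taylor (1 : ℝ) (s i)).coeff m := rfl

/-- The filtration by the order at one. -/
noncomputable def ubV {ι : Type} (L : Submodule ℝ (ι → ℝ[X])) : ℕ → Submodule ℝ (ι → ℝ[X])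
  | 0 => L
  | m + 1 => ubV L m ⊓ LinearMap.ker (ubG m)

theorem ub_mem {ι : Type} {L : Submodule ℝ (ι → ℝ[X])} {s : ι → ℝ[X]} {m : ℕ} (h : s ∈ ubV L m) :
    s ∈ L ∧ ∀ k < m, ∀ i, (taylor (1 : ℝ) (s i)).coeff k = 0 := by
  induction m with
  | zero => exact ⟨h, fun k hk => absurd hk (Nat.not_lt_zero k)⟩
  | succ m ih =>
    refine ⟨(ih h.1).1, fun k hk i => ?_⟩
    rcases Nat.lt_succ_iff_lt_or_eq.1 hk with hk | rfl
    · exact (ih h.1).2 k hk i
    · exact congrFun (LinearMap.mem_ker.1 h.2) i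

theorem ub_coeff {p : ℝ[X]} {N : ℕ} (hp : p ∈ degreeLT ℝ N) (m : ℕ) :
    (taylor (1 : ℝ) p).coeff m = ∑ k ∈ range N, (k.choose m : ℝ) * p.coeff k := by
  have e : p = ∑ k ∈ range N, monomial k (p.coeff k) := by
    ext n
    rw [finsetSum_coeff]
    simp only [coeff_monomial, sum_ite_eq', mem_range]
    split_ifs with h
    · rfl
    · exact (degree_lt_iff_coeff_zero p N).1 (mem_degreeLT.1 hp) n (not_lt.1 h)
  conv_lhs => rw [e, map_sum, finsetSum_coeff]
  refine sum_congr rfl fun k _ => ?_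
  rw [taylor_monomial, coeff_C_mul, coeff_X_add_C_pow, one_pow, one_mul, mul_comm]

theorem ub_lead {ι : Type} [Fintype ι] (Ψ : ι → PowerSeries ℝ) (Y : PowerSeries ℝ)
    (h0 : PowerSeries.constantCoeff Y = 1) (h1 : PowerSeries.coeff 1 Y ≠ 0) (s : ι → ℝ[X]) (m : ℕ)
    (hs : ∀ k < m, ∀ i, (taylor (1 : ℝ) (s i)).coeff k = 0)
    (h : PowerSeries.coeff m (rr Ψ Y s) = 0) :
    ∑ i, PowerSeries.constantCoeff (Ψ i) * (taylor (1 : ℝ) (s i)).coeff m = 0 := by
  choose q hq using fun i => X_pow_dvd_iff.2 fun k hk => hs k hk i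
  obtain ⟨c, hc⟩ : PowerSeries.X ∣ Y - 1 := PowerSeries.X_dvd_iff.2 (by simp [h0])
  have hc0 : PowerSeries.constantCoeff c ≠ 0 := by
    have := congrArg (PowerSeries.coeff 1) hc
    rw [PowerSeries.coeff_succ_X_mul, PowerSeries.coeff_zero_eq_constantCoeff_apply, map_sub,
      PowerSeries.coeff_one, if_neg one_ne_zero, sub_zero] at this
    rwa [← this]
  have e : ∀ i, aeval Y (s i) =
      PowerSeries.X ^ m * (c ^ m * aeval (PowerSeries.X * c) (q i)) := fun i => by
    have : aeval (Y - 1) (taylor (1 : ℝ) (s i)) = aeval Y (s i) := by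
      rw [taylor_apply, aeval_comp]; simp
    rw [← this, hq, hc, map_mul, map_pow, aeval_X, mul_pow, mul_assoc]
  have e2 : rr Ψ Y s =
      PowerSeries.X ^ m * (c ^ m * ∑ i, Ψ i * aeval (PowerSeries.X * c) (q i)) := by
    rw [rr, mul_sum, mul_sum]
    exact sum_congr rfl fun i _ => by rw [e]; ring
  have e3 : ∀ i, PowerSeries.constantCoeff (aeval (PowerSeries.X * c) (q i)) =
      (taylor (1 : ℝ) (s i)).coeff m := fun i => by
    rw [aeval_def, hom_eval₂, map_mul, PowerSeries.constantCoeff_X, zero_mul, eval₂_at_zero, hq]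
    simpa using (coeff_X_pow_mul (q i) m 0).symm
  have e4 := PowerSeries.coeff_X_pow_mul (c ^ m * ∑ i, Ψ i * aeval (PowerSeries.X * c) (q i)) m 0
  rw [zero_add, ← e2, h, PowerSeries.coeff_zero_eq_constantCoeff_apply, map_mul, map_pow,
    map_sum] at e4
  simp only [map_mul, e3] at e4
  exact (mul_eq_zero.1 e4.symm).resolve_left (pow_ne_zero _ hc0)

theorem ub_count {ι J : Type} [Fintype ι] [Fintype J] (W : Submodule ℝ (ι → ℝ))
    (Y : J → PowerSeries ℝ) (hY0 : ∀ j, PowerSeries.constantCoeff (Y j) = 1)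
    (hY1 : ∀ j, PowerSeries.coeff 1 (Y j) ≠ 0) (Ψ : J → ι → PowerSeries ℝ) (M : J → ℕ) (N : ℕ)
    (hM : ∀ j, M j ≤ N)
    (hsurj : ∀ c : J → ℝ, ∃ x ∈ W, ∀ j, ∑ i, PowerSeries.constantCoeff (Ψ j i) * x i = c j)
    (L : Submodule ℝ (ι → ℝ[X]))
    (hL : ∀ s ∈ L, s ∈ PW W ∧ (∀ i, s i ∈ degreeLT ℝ N) ∧
      ∀ j, ∀ m < M j, PowerSeries.coeff m (rr (Ψ j) (Y j) s) = 0) :
    Module.finrank ℝ L + ∑ j, M j ≤ N * Module.finrank ℝ W := by
  classical
  have hfin : FiniteDimensional ℝ L := by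
    refine FiniteDimensional.of_injective
      ((LinearMap.pi fun k : Fin N => cf (ι := ι) k).domRestrict L) ?_
    rw [injective_iff_map_eq_zero]
    intro s hs
    ext i n
    by_cases h : n < N
    · exact congrFun (congrFun hs ⟨n, h⟩) i
    · exact (degree_lt_iff_coeff_zero _ N).1 (mem_degreeLT.1 ((hL s s.2).2.1 i)) n (not_lt.1 h)
  have step : ∀ m, Module.finrank ℝ ((ubV L m).map (ubG m)) +
      ∑ j, (if m < M j then 1 else 0) ≤ Module.finrank ℝ W := fun m => by
    let φ : (ι → ℝ) →ₗ[ℝ] ({j // m < M j} → ℝ) := LinearMap.pi fun j =>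
      ∑ i, PowerSeries.constantCoeff (Ψ j.1 i) • LinearMap.proj i
    have hφ : ∀ x j, φ x j = ∑ i, PowerSeries.constantCoeff (Ψ j.1 i) * x i := fun x j => by
      simp [φ]
    have h2 : W.map φ = ⊤ := by
      rw [eq_top_iff]
      intro y _
      obtain ⟨x, hx, h⟩ := hsurj fun j => if h : m < M j then y ⟨j, h⟩ else 0
      exact ⟨x, hx, funext fun j => by rw [hφ, h, dif_pos j.2]⟩
    have h3 : (ubV L m).map (ubG m) ≤ W ⊓ LinearMap.ker φ := by
      rintro _ ⟨s, hs, rfl⟩
      obtain ⟨hsL, hs0⟩ := ub_mem hs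
      obtain ⟨a, b, c⟩ := hL s hsL
      refine ⟨?_, funext fun j => ?_⟩
      · have : ubG m s = ∑ k ∈ range N, (k.choose m : ℝ) • cf k s := by
          funext i
          rw [ub_apply, ub_coeff (b i), Finset.sum_apply]
          rfl
        rw [this]
        exact W.sum_mem fun k _ => W.smul_mem _ (a k)
      · rw [hφ]
        exact ub_lead _ _ (hY0 _) (hY1 _) s m hs0 (c _ m j.2)
    have h1 := finrank_split W φ
    rw [h2, finrank_top, Module.finrank_fintype_fun_eq_card, Fintype.card_subtype,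
      card_filter] at h1
    have := Submodule.finrank_mono h3
    omega
  have key : ∀ m, Module.finrank ℝ L + ∑ k ∈ range m, ∑ j, (if k < M j then 1 else 0) ≤
      Module.finrank ℝ (ubV L m) + m * Module.finrank ℝ W := fun m => by
    induction m with
    | zero => rw [sum_range_zero, zero_mul]; exact le_rfl
    | succ m ih =>
      have : FiniteDimensional ℝ (ubV L m) :=
        Submodule.finiteDimensional_of_le fun s hs => (ub_mem hs).1
      have h1 : _ = _ + Module.finrank ℝ (ubV L (m + 1)) := finrank_split (ubV L m) (ubG m)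
      have h2 := step m
      rw [sum_range_succ, Nat.succ_mul]
      omega
  have hN : ubV L N = ⊥ := by
    rw [eq_bot_iff]
    intro s hs
    obtain ⟨hsL, hs0⟩ := ub_mem hs
    funext i
    refine taylor_injective (1 : ℝ) ?_
    ext n
    rw [Pi.zero_apply, map_zero, coeff_zero]
    by_cases h : n < N
    · exact hs0 n h i
    · rw [ub_coeff ((hL s hsL).2.1 i)]
      exact sum_eq_zero fun k hk => by
        rw [Nat.choose_eq_zero_of_lt (by have := mem_range.1 hk; omega), Nat.cast_zero, zero_mul]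
  have h := key N
  rw [hN, finrank_bot, zero_add, sum_comm] at h
  refine le_trans (le_of_eq ?_) h
  congr 1
  refine sum_congr rfl fun j _ => ?_
  rw [← card_filter]
  have : (range N).filter (fun k => k < M j) = range (M j) := by
    ext k
    have := hM j
    simp only [mem_filter, mem_range]
    omega
  rw [this, card_range]

end ZDil

end

-- part NB
section

namespace ZDil

open Finset Polynomial ZOdd

theorem nab_inl {δ w D A : ℕ} (e : Fin δ → ℝ) (s : IC δ w ⊕ IR D A → ℝ[X]) (c : IC δ w) :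
    nab (eps e) s (Sum.inl c) = th (s (Sum.inl c)) + (1 - X) *
      if h : (c.2 : ℕ) + 1 < w + 1 then s (Sum.inl (c.1, ⟨c.2 + 1, h⟩)) else 0 := by
  unfold nab
  congr 1
  rw [Fintype.sum_sum_type]
  simp only [eps, Matrix.of_apply, true_and, Bool.true_eq_false, false_and, if_false, map_zero,
    mul_zero, add_zero, zero_mul, sum_const_zero]
  split_ifs with h
  · rw [sum_eq_single (c.1, (⟨c.2 + 1, h⟩ : Fin (w + 1)))]
    · rw [if_pos ⟨rfl, rfl⟩, map_one, mul_one]
    · intro b _ hb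
      rw [if_neg, map_zero, mul_zero, zero_mul]
      rintro ⟨h1, h2⟩
      exact hb (Prod.ext h1.symm (Fin.ext h2.symm))
    · exact fun h => absurd (mem_univ _) h
  · rw [mul_zero]
    refine sum_eq_zero fun b _ => ?_
    rw [if_neg, map_zero, mul_zero, zero_mul]
    rintro ⟨-, h2⟩
    exact h (h2 ▸ b.2.2)

theorem nb_ext {D A : ℕ} {d : Fin D} {i : Fin (A + 1)} {k : Fin (d + 1)} {r : IR D A}
    (h1 : d = r.1) (h2 : (k : ℕ) = r.2.2) (h3 : i = r.2.1) : r = ⟨d, i, k⟩ := by
  obtain ⟨d', i', k'⟩ := r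
  obtain rfl : d = d' := h1
  obtain rfl : i = i' := h3
  obtain rfl : k = k' := Fin.ext h2
  rfl

theorem nab_inr {δ w D A : ℕ} (e : Fin δ → ℝ) (s : IC δ w ⊕ IR D A → ℝ[X]) (d : Fin D)
    (i : Fin (A + 1)) (k : Fin (d + 1)) :
    nab (eps e) s (Sum.inr ⟨d, i, k⟩) = th (s (Sum.inr ⟨d, i, k⟩))
      + (1 - X) * C (((k : ℕ) : ℝ) / ((d : ℝ) + 1)) * s (Sum.inr ⟨d, i, k⟩)
      + if (i : ℕ) = 0 then ((1 - X) * C ((if (k : ℕ) = 0 then 1 else 2) / ((d : ℝ) + 1))
          + X * C (2 / ((d : ℝ) + 1))) * ∑ l, C (e l) * s (Sum.inl (l, 0))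
        else -((1 - X) * C (1 / ((d : ℝ) + 1)) * s (Sum.inr ⟨d, ⟨i - 1, by omega⟩, k⟩)) := by
  unfold nab
  rw [add_assoc]
  congr 1
  rw [Fintype.sum_sum_type]
  simp only [eps, Matrix.of_apply, true_and, Bool.true_eq_false, false_and, if_false, map_zero,
    mul_zero, add_zero]
  by_cases hi : (i : ℕ) = 0
  · rw [if_pos hi, add_comm]
    congr 1
    · rw [sum_eq_single (⟨d, i, k⟩ : IR D A)]
      · rw [if_pos ⟨rfl, rfl⟩, if_pos rfl]
      · intro b _ hb
        split_ifs with h1 h2 h3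
        · exact absurd (nb_ext h1.1 h1.2 h2) hb
        · omega
        · rw [map_zero, mul_zero, zero_mul]
        · rw [map_zero, mul_zero, zero_mul]
      · exact fun h => absurd (mem_univ _) h
    · rw [Fintype.sum_prod_type, mul_sum]
      refine sum_congr rfl fun l _ => ?_
      rw [sum_eq_single (0 : Fin (w + 1))]
      · have : (i : ℕ) = 0 ∧ ((0 : Fin (w + 1)) : ℕ) = 0 := ⟨hi, rfl⟩
        rw [if_pos this, if_pos this, map_mul, map_mul]
        ring
      · intro b _ hb
        have : ¬ ((i : ℕ) = 0 ∧ (b : ℕ) = 0) := fun h => hb (Fin.ext h.2)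
        rw [if_neg this, if_neg this, map_zero, mul_zero, mul_zero, add_zero, zero_mul]
      · exact fun h => absurd (mem_univ _) h
  · rw [if_neg hi, sum_eq_zero, zero_add]
    · have hne : (⟨d, i, k⟩ : IR D A) ≠ ⟨d, ⟨i - 1, by omega⟩, k⟩ := by
        intro h
        have := congrArg (fun r : IR D A => (r.2.1 : ℕ)) h
        simp only at this
        omega
      rw [sum_eq_add_of_mem _ _ (mem_univ _) (mem_univ _) hne]
      · rw [if_pos ⟨rfl, rfl⟩, if_pos rfl, if_pos ⟨rfl, rfl⟩, if_neg, if_pos, neg_div, map_neg]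
        · ring
        · simp only
          omega
        · intro h
          have := congrArg Fin.val h
          simp only at this
          omega
      · intro b _ hb
        split_ifs with h1 h2 h3
        · exact absurd (nb_ext h1.1 h1.2 h2) hb.1
        · exact absurd (nb_ext h1.1 h1.2 (Fin.ext (by simp only; omega))) hb.2
        · rw [map_zero, mul_zero, zero_mul]
        · rw [map_zero, mul_zero, zero_mul]
    · intro c _
      have : ¬ ((i : ℕ) = 0 ∧ (c.2 : ℕ) = 0) := fun h => hi h.1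
      rw [if_neg this, if_neg this, map_zero, mul_zero, mul_zero, add_zero, zero_mul]

theorem nb_diag {δ w D A : ℕ} (e : Fin δ → ℝ) (x : IC δ w ⊕ IR D A) :
    0 ≤ eps e false x x ∧ eps e false x x < 1 := by
  rcases x with c | ⟨d, i, k⟩
  · simp [eps]
  · have h : ((k : ℕ) : ℝ) < (d : ℝ) + 1 := by exact_mod_cast k.2
    simp only [eps, Matrix.of_apply, and_self, if_true]
    exact ⟨by positivity, (div_lt_one (by positivity)).mpr h⟩

theorem eps_tri {δ w D A : ℕ} (e : Fin δ → ℝ) :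
    (∀ β (x y : IC δ w ⊕ IR D A), x ≠ y → eps e β x y ≠ 0 →
      Sum.elim (fun c : IC δ w => A + 1 + c.2) (fun r : IR D A => A - r.2.1) x
        < Sum.elim (fun c : IC δ w => A + 1 + c.2) (fun r : IR D A => A - r.2.1) y) ∧
    (∀ x : IC δ w ⊕ IR D A, eps e true x x = 0) ∧
    ∀ x y : IC δ w ⊕ IR D A, |eps e false x x - eps e false y y| < 1 := by
  refine ⟨fun β x y hxy h => ?_, fun x => ?_, fun x y => ?_⟩
  · rcases x with c | ⟨d, i, k⟩ <;> rcases y with c' | r <;>
      simp only [eps, Matrix.of_apply, Sum.elim_inl, Sum.elim_inr] at h ⊢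
    · have := (ite_ne_right_iff.mp h).1.2.2
      omega
    · exact absurd rfl h
    · omega
    · obtain ⟨⟨-, h1, h2⟩, h3⟩ := ite_ne_right_iff.mp h
      rw [if_neg fun h4 => hxy (congrArg Sum.inr (nb_ext h1 h2 h4).symm)] at h3
      have := (ite_ne_right_iff.mp h3).1
      have := i.2
      omega
  · rcases x with c | r <;> simp [eps]
  · have a := nb_diag e x
    have b := nb_diag e y
    rw [abs_lt]
    constructor <;> linarith [a.1, a.2, b.1, b.2]

end ZDil

end

-- part OD
section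

namespace ZDil

open Finset Polynomial ZOdd

theorem od_der (a : ℕ → ℝ) (m : ℕ) :
    PowerSeries.coeff m ((1 + PowerSeries.X) * PowerSeries.derivative ℝ (PowerSeries.mk a))
      = ((m : ℝ) + 1) * a (m + 1) + m * a m := by
  rw [add_mul, one_mul, map_add, PowerSeries.coeff_derivative, PowerSeries.coeff_mk]
  cases m with
  | zero => simp
  | succ m =>
    rw [PowerSeries.coeff_succ_X_mul, PowerSeries.coeff_derivative, PowerSeries.coeff_mk]
    push_cast
    ring

theorem od_pascal (G : ℕ → ℕ → ℝ) (d i v : ℕ) :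
    ((if i = 0 then 0 else cs G d (i - 1) v)
        + if v = 0 then 0 else PowerSeries.C (d : ℝ) * cs G d i (v - 1))
      = PowerSeries.C (((i + v).choose i : ℝ) * (d : ℝ) ^ v)
        * PowerSeries.mk fun m => sh (G m) (i + v) := by
  ext m
  rcases i with _ | i <;> rcases v with _ | v
  · simp [sh]
  · simp only [cs, if_true, Nat.succ_ne_zero, if_false, zero_add, Nat.add_sub_cancel,
      PowerSeries.coeff_C_mul, PowerSeries.coeff_mk, Nat.choose_zero_right, sh]
    ring
  · simp only [cs, if_true, Nat.succ_ne_zero, if_false, add_zero, Nat.add_sub_cancel,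
      PowerSeries.coeff_C_mul, PowerSeries.coeff_mk, Nat.choose_self, sh]
  · have h1 : i + 1 + (v + 1) = (i + 1 + v) + 1 := by omega
    have h2 : i + (v + 1) = i + 1 + v := by omega
    simp only [cs, Nat.succ_ne_zero, if_false, Nat.add_sub_cancel, map_add,
      PowerSeries.coeff_C_mul, PowerSeries.coeff_mk, h1, h2, sh, Nat.choose_succ_succ']
    push_cast
    ring

theorem od_cs_der (G : ℕ → ℕ → ℝ) (d i v : ℕ) :
    (1 + PowerSeries.X) * PowerSeries.derivative ℝ (cs G d i v)
      = PowerSeries.C (((i + v).choose i : ℝ) * (d : ℝ) ^ v)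
        * ((1 + PowerSeries.X) * PowerSeries.derivative ℝ (PowerSeries.mk fun m => G m (i + v))) := by
  rw [cs, Derivation.leibniz, PowerSeries.derivative_C, smul_zero, add_zero, smul_eq_mul]
  ring

theorem cs_bc (d i v : ℕ) :
    (1 + PowerSeries.X) * PowerSeries.derivative ℝ (cs bc d i v)
      = (if i = 0 then 0 else cs bc d (i - 1) v)
        + if v = 0 then 0 else PowerSeries.C (d : ℝ) * cs bc d i (v - 1) := by
  rw [od_pascal, od_cs_der]
  congr 1
  ext m
  rw [od_der, PowerSeries.coeff_mk]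
  have h : (m : ℝ) + 1 ≠ 0 := by positivity
  simp only [bc]
  field_simp
  ring

theorem od_fc (e : ℝ) (g : ℕ → ℝ) (k : ℕ) :
    PowerSeries.X * ((1 + PowerSeries.X) * PowerSeries.derivative ℝ
        (PowerSeries.mk fun m => fc e g m k))
      = PowerSeries.X * (PowerSeries.mk fun m => sh (fc e g m) k)
        - PowerSeries.C (2 * e) * (PowerSeries.mk fun m => bc m k)
        + if k = 0 then PowerSeries.C e * (2 + PowerSeries.X) else 0 := by
  have h2 : (2 + PowerSeries.X : PowerSeries ℝ) = PowerSeries.C 2 + PowerSeries.X := by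
    rw [map_ofNat]
  ext m
  rw [h2, map_add, map_sub, PowerSeries.coeff_C_mul, PowerSeries.coeff_mk]
  cases m with
  | zero =>
    by_cases hk : k = 0
    · simp [hk, bc]; ring
    · simp [hk, bc]
  | succ m =>
    rw [PowerSeries.coeff_succ_X_mul, PowerSeries.coeff_succ_X_mul, od_der, PowerSeries.coeff_mk]
    have h : (m : ℝ) + 1 ≠ 0 := by positivity
    have hf : ((m : ℝ) + 1) * fc e g (m + 1) k = sh (fc e g m) k - m * fc e g m k
        - 2 * e * bc (m + 1) k + if m = 0 ∧ k = 0 then e else 0 := by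
      rw [fc]
      field_simp
    rw [hf]
    by_cases hk : k = 0
    · simp only [hk, if_true, and_true, PowerSeries.coeff_C_mul, map_add, PowerSeries.coeff_C,
        PowerSeries.coeff_X, Nat.succ_ne_zero, if_false, zero_add, Nat.add_eq_right]
      split_ifs <;> ring
    · simp only [hk, if_false, and_false, map_zero]
      ring

theorem cs_fc (e : ℝ) (g : ℕ → ℝ) (d i v : ℕ) :
    PowerSeries.X * ((1 + PowerSeries.X) * PowerSeries.derivative ℝ (cs (fc e g) d i v))
      = PowerSeries.X * ((if i = 0 then 0 else cs (fc e g) d (i - 1) v)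
          + if v = 0 then 0 else PowerSeries.C (d : ℝ) * cs (fc e g) d i (v - 1))
        - PowerSeries.C (2 * e) * cs bc d i v
        + if i = 0 ∧ v = 0 then PowerSeries.C e * (2 + PowerSeries.X) else 0 := by
  rw [od_pascal, od_cs_der, mul_left_comm, od_fc, cs]
  by_cases h : i = 0 ∧ v = 0
  · obtain ⟨rfl, rfl⟩ := h
    simp
  · have h' : i + v ≠ 0 := by omega
    rw [if_neg h, if_neg h']
    ring

theorem mk_pa (F : ℕ → ℝ) (t : ℕ) :
    PowerSeries.mk (pa F t) = (1 + PowerSeries.X) ^ t * PowerSeries.mk F := by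
  induction t with
  | zero => simp [pa]
  | succ t ih =>
    rw [pow_succ', mul_assoc, ← ih, add_mul, one_mul]
    ext m
    cases m with
    | zero => simp [pa, sh]
    | succ m =>
      rw [map_add, PowerSeries.coeff_succ_X_mul]
      simp [pa, sh]

theorem aeval_th (d : ℕ) (p : ℝ[X]) :
    PowerSeries.C ((d : ℝ) + 1) * aeval ((1 + PowerSeries.X : PowerSeries ℝ) ^ (d + 1)) (th p)
      = (1 - (1 + PowerSeries.X) ^ (d + 1)) * ((1 + PowerSeries.X) * PowerSeries.derivative ℝ
        (aeval ((1 + PowerSeries.X : PowerSeries ℝ) ^ (d + 1)) p)) := by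
  have hc : (PowerSeries.C ((d : ℝ) + 1) : PowerSeries ℝ) = (d : PowerSeries ℝ) + 1 := by
    rw [map_add, map_natCast, map_one]
  rw [hc, Derivation.map_aeval, Derivation.leibniz_pow, map_add, PowerSeries.derivative_X,
    Derivation.map_one_eq_zero, zero_add, th]
  simp only [map_mul, map_sub, map_one, aeval_X, smul_eq_mul, Nat.add_sub_cancel, mul_one,
    nsmul_eq_mul]
  push_cast
  ring

end ZDil

end

-- part RB
section

namespace ZDil

open Finset Polynomial ZOdd

theorem rb_shift {R : Type} [CommRing R] (w : ℕ) (c : ℕ → R) (a : Fin (w + 1) → R) :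
    ∑ v : Fin (w + 1), c v * (if h : (v : ℕ) + 1 < w + 1 then a ⟨v + 1, h⟩ else 0)
      = ∑ v : Fin (w + 1), (if (v : ℕ) = 0 then 0 else c (v - 1)) * a v := by
  rw [Fin.sum_univ_castSucc, Fin.sum_univ_succ]
  have h1 : ¬ (((Fin.last w : Fin (w + 1)) : ℕ) + 1 < w + 1) := by simp
  rw [dif_neg h1, mul_zero, add_zero, if_pos (by simp), zero_mul, zero_add]
  refine Finset.sum_congr rfl fun v _ => ?_
  have h2 : ((Fin.castSucc v : Fin (w + 1)) : ℕ) + 1 < w + 1 := by
    have := v.2
    simp only [Fin.val_castSucc]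
    omega
  rw [dif_pos h2, if_neg (by simp)]
  congr 1

theorem rb_rr {δ w D A : ℕ} (e : Fin δ → ℝ) (d i : ℕ) (Y : PowerSeries ℝ)
    (s : IC δ w ⊕ IR D A → ℝ[X]) :
    rr (Pb e d i) Y s = ∑ l : Fin δ, PowerSeries.C (e l) *
      ∑ v : Fin (w + 1), cs bc (d + 1) i v * aeval Y (s (Sum.inl (l, v))) := by
  unfold rr Pb
  rw [Fintype.sum_sum_type]
  simp only [Sum.elim_inl, Sum.elim_inr, zero_mul, Finset.sum_const_zero, add_zero]
  rw [Fintype.sum_prod_type]
  refine Finset.sum_congr rfl fun l _ => ?_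
  rw [Finset.mul_sum]
  refine Finset.sum_congr rfl fun v _ => ?_
  ring

theorem rel_Pb {δ w D A : ℕ} (e : Fin δ → ℝ) (d i : ℕ) (s : IC δ w ⊕ IR D A → ℝ[X]) :
    PowerSeries.C ((d : ℝ) + 1) * rr (Pb e d i) ((1 + PowerSeries.X) ^ (d + 1)) (nab (eps e) s)
      = (1 - (1 + PowerSeries.X) ^ (d + 1)) * ((1 + PowerSeries.X) * PowerSeries.derivative ℝ
          (rr (Pb e d i) ((1 + PowerSeries.X) ^ (d + 1)) s)
        - if i = 0 then 0 else rr (Pb e d (i - 1)) ((1 + PowerSeries.X) ^ (d + 1)) s) := by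
  set Y : PowerSeries ℝ := (1 + PowerSeries.X) ^ (d + 1) with hY
  have hif : (if i = 0 then 0 else rr (Pb e d (i - 1)) Y s) = ∑ l : Fin δ, PowerSeries.C (e l) *
      ∑ v : Fin (w + 1), (if i = 0 then 0 else cs bc (d + 1) (i - 1) v)
        * aeval Y (s (Sum.inl (l, v))) := by
    split_ifs with h
    · simp
    · exact rb_rr e d (i - 1) Y s
  rw [hif, rb_rr, rb_rr, map_sum, Finset.mul_sum, Finset.mul_sum, ← Finset.sum_sub_distrib,
    Finset.mul_sum]
  refine Finset.sum_congr rfl fun l _ => ?_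
  have hC : PowerSeries.derivative ℝ (PowerSeries.C (e l) : PowerSeries ℝ) = 0 :=
    PowerSeries.derivative_C
  rw [Derivation.leibniz, hC, smul_zero, add_zero, smul_eq_mul, map_sum]
  have key : PowerSeries.C ((d : ℝ) + 1) *
      ∑ v : Fin (w + 1), cs bc (d + 1) i v * aeval Y (nab (eps e) s (Sum.inl (l, v)))
      = (1 - Y) * ((1 + PowerSeries.X) * ∑ v : Fin (w + 1), PowerSeries.derivative ℝ
          (cs bc (d + 1) i v * aeval Y (s (Sum.inl (l, v))))
        - ∑ v : Fin (w + 1), (if i = 0 then 0 else cs bc (d + 1) (i - 1) v)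
          * aeval Y (s (Sum.inl (l, v)))) := by
    have hs := rb_shift w (fun v => PowerSeries.C ((d : ℝ) + 1) * cs bc (d + 1) i v)
      (fun v => aeval Y (s (Sum.inl (l, v))))
    have h1 : PowerSeries.C ((d : ℝ) + 1) *
        ∑ v : Fin (w + 1), cs bc (d + 1) i v * aeval Y (nab (eps e) s (Sum.inl (l, v)))
        = ∑ v : Fin (w + 1), cs bc (d + 1) i v * ((1 - Y) * ((1 + PowerSeries.X) *
            PowerSeries.derivative ℝ (aeval Y (s (Sum.inl (l, v))))))
          + (1 - Y) * ∑ v : Fin (w + 1), PowerSeries.C ((d : ℝ) + 1) * cs bc (d + 1) i v *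
            (if h : (v : ℕ) + 1 < w + 1 then aeval Y (s (Sum.inl (l, ⟨v + 1, h⟩))) else 0) := by
      rw [Finset.mul_sum, Finset.mul_sum, ← Finset.sum_add_distrib]
      refine Finset.sum_congr rfl fun v _ => ?_
      rw [nab_inl, map_add (aeval Y), map_mul, map_sub, map_one, aeval_X]
      have h5 := aeval_th d (s (Sum.inl (l, v)))
      rw [← hY] at h5
      have h3 : aeval Y (if h : (((l, v) : IC δ w).2 : ℕ) + 1 < w + 1 then
          s (Sum.inl (((l, v) : IC δ w).1, ⟨((l, v) : IC δ w).2 + 1, h⟩)) else 0)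
          = if h : (v : ℕ) + 1 < w + 1 then aeval Y (s (Sum.inl (l, ⟨v + 1, h⟩))) else 0 := by
        split_ifs with h
        · rfl
        · exact map_zero _
      rw [h3]
      linear_combination cs bc (d + 1) i v * h5
    rw [h1, hs, Finset.mul_sum, Finset.mul_sum, ← Finset.sum_sub_distrib, Finset.mul_sum,
      ← Finset.sum_add_distrib]
    refine Finset.sum_congr rfl fun v _ => ?_
    have h4 := cs_bc (d + 1) i v
    push_cast at h4
    rw [Derivation.leibniz, smul_eq_mul, smul_eq_mul]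
    linear_combination (-(1 - Y) * aeval Y (s (Sum.inl (l, v)))) * h4
  linear_combination PowerSeries.C (e l) * key

end ZDil

end

-- part RS
section

namespace ZDil

open Finset Polynomial ZOdd

theorem rs_rr {δ w D A : ℕ} (e : Fin δ → ℝ) (g : Fin δ → ℕ → ℝ) (d : Fin D) (i : Fin (A + 1))
    (Y : PowerSeries ℝ) (s : IC δ w ⊕ IR D A → ℝ[X]) :
    rr (Ps e g d i) Y s = ∑ k : Fin (d + 1), (1 + PowerSeries.X) ^ (k : ℕ)
        * aeval Y (s (Sum.inr ⟨d, i, k⟩))
      - ∑ l, ∑ v : Fin (w + 1), cs (fc (e l) (g l)) (d + 1) i v * aeval Y (s (Sum.inl (l, v))) := by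
  rw [rr, Fintype.sum_sum_type, Fintype.sum_prod_type, Fintype.sum_sigma, sum_eq_single d,
    Fintype.sum_prod_type, sum_eq_single i]
  · simp [Ps, sub_eq_neg_add]
  · intro j _ hj
    simp [Ps, Fin.val_inj, hj]
  · simp
  · intro j _ hj
    simp [Ps, Fin.val_inj, hj]
  · simp

theorem rs_C (Y : PowerSeries ℝ) (a : ℝ) : aeval Y (C a) = PowerSeries.C a := by
  rw [aeval_C]; rfl

theorem rs_col {δ w D A : ℕ} (e : Fin δ → ℝ) (g : ℕ → ℝ) (d i : ℕ) (l : Fin δ)
    (s : IC δ w ⊕ IR D A → ℝ[X]) (Y : PowerSeries ℝ) (hY : Y = (1 + PowerSeries.X) ^ (d + 1)) :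
    PowerSeries.X * (PowerSeries.C ((d : ℝ) + 1) * ∑ v : Fin (w + 1),
        cs (fc (e l) g) (d + 1) i v * aeval Y (nab (eps e) s (Sum.inl (l, v))))
      = (1 - Y) * (PowerSeries.X * ((1 + PowerSeries.X) * PowerSeries.derivative ℝ
          (∑ v : Fin (w + 1), cs (fc (e l) g) (d + 1) i v * aeval Y (s (Sum.inl (l, v))))
          - if i = 0 then 0 else ∑ v : Fin (w + 1),
            cs (fc (e l) g) (d + 1) (i - 1) v * aeval Y (s (Sum.inl (l, v))))
        + 2 * ∑ v : Fin (w + 1), PowerSeries.C (e l) * cs bc (d + 1) i v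
            * aeval Y (s (Sum.inl (l, v)))
        - if i = 0 then (2 + PowerSeries.X) * (PowerSeries.C (e l) * aeval Y (s (Sum.inl (l, 0))))
          else 0) := by
  have h1 : ∑ v : Fin (w + 1), cs (fc (e l) g) (d + 1) i v * aeval Y
      (if h : (v : ℕ) + 1 < w + 1 then s (Sum.inl (l, ⟨v + 1, h⟩)) else 0)
      = ∑ v : Fin (w + 1), (if (v : ℕ) = 0 then 0 else cs (fc (e l) g) (d + 1) i (v - 1))
        * aeval Y (s (Sum.inl (l, v))) := by
    rw [Fin.sum_univ_castSucc, Fin.sum_univ_succ]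
    simp
    rfl
  have h2 : (if i = 0 then (2 + PowerSeries.X) * (PowerSeries.C (e l)
      * aeval Y (s (Sum.inl (l, 0)))) else 0) = ∑ v : Fin (w + 1), (if i = 0 ∧ (v : ℕ) = 0 then
        PowerSeries.C (e l) * (2 + PowerSeries.X) else 0) * aeval Y (s (Sum.inl (l, v))) := by
    rw [Fin.sum_univ_succ]
    split_ifs <;> simp_all
    ring
  have h3 : (if i = 0 then 0 else ∑ v : Fin (w + 1),
      cs (fc (e l) g) (d + 1) (i - 1) v * aeval Y (s (Sum.inl (l, v)))) = ∑ v : Fin (w + 1),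
      (if i = 0 then 0 else cs (fc (e l) g) (d + 1) (i - 1) v) * aeval Y (s (Sum.inl (l, v))) := by
    split_ifs <;> simp
  simp only [nab_inl, map_add, map_mul, map_sub, map_one, aeval_X, mul_add, sum_add_distrib,
    mul_left_comm _ (1 - Y), ← mul_sum, h1]
  rw [h2, h3, map_sum]
  simp only [mul_sum, ← sum_add_distrib, ← sum_sub_distrib]
  refine sum_congr rfl fun v _ => ?_
  have a1 := aeval_th d (s (Sum.inl (l, v)))
  have a2 := cs_fc (e l) g (d + 1) i v
  have a3 : (if (v : ℕ) = 0 then 0 else PowerSeries.C ((d + 1 : ℕ) : ℝ)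
      * cs (fc (e l) g) (d + 1) i (v - 1)) = PowerSeries.C ((d : ℝ) + 1)
      * if (v : ℕ) = 0 then 0 else cs (fc (e l) g) (d + 1) i (v - 1) := by
    split_ifs <;> simp
  rw [← hY] at a1
  rw [a3, map_mul, map_ofNat] at a2
  rw [Derivation.leibniz, smul_eq_mul, smul_eq_mul]
  simp only [map_add, map_one] at a1 a2
  linear_combination PowerSeries.X * cs (fc (e l) g) (d + 1) i v * a1
    - (1 - Y) * aeval Y (s (Sum.inl (l, v))) * a2

theorem rs_row {δ w D A : ℕ} (e : Fin δ → ℝ) (d : Fin D) (i : Fin (A + 1))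
    (s : IC δ w ⊕ IR D A → ℝ[X]) (Y : PowerSeries ℝ)
    (hY : Y = (1 + PowerSeries.X) ^ ((d : ℕ) + 1)) :
    PowerSeries.X * (PowerSeries.C ((d : ℝ) + 1) * ∑ k : Fin (d + 1), (1 + PowerSeries.X) ^ (k : ℕ)
        * aeval Y (nab (eps e) s (Sum.inr ⟨d, i, k⟩)))
      = (1 - Y) * (PowerSeries.X * ((1 + PowerSeries.X) * PowerSeries.derivative ℝ
          (∑ k : Fin (d + 1), (1 + PowerSeries.X) ^ (k : ℕ) * aeval Y (s (Sum.inr ⟨d, i, k⟩)))
          - if (i : ℕ) = 0 then 0 else ∑ k : Fin (d + 1), (1 + PowerSeries.X) ^ (k : ℕ)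
            * aeval Y (s (Sum.inr ⟨d, ⟨i - 1, by omega⟩, k⟩)))
        - if (i : ℕ) = 0 then (2 + PowerSeries.X)
            * ∑ l, PowerSeries.C (e l) * aeval Y (s (Sum.inl (l, 0))) else 0) := by
  have hc : ∀ a : ℝ, PowerSeries.C ((d : ℝ) + 1) * PowerSeries.C (a / ((d : ℝ) + 1))
      = PowerSeries.C a := fun a => by
    rw [← map_mul, mul_div_cancel₀ _ (by positivity)]
  have hp : ∀ k : ℕ, (1 + PowerSeries.X) * PowerSeries.derivative ℝ
      ((1 + PowerSeries.X : PowerSeries ℝ) ^ k) = PowerSeries.C (k : ℝ) * (1 + PowerSeries.X) ^ k :=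
    fun k => by
      cases k with
      | zero => simp
      | succ k => simp [Derivation.leibniz_pow]; ring
  have hg : PowerSeries.X * ∑ k : Fin (d + 1), (1 + PowerSeries.X) ^ (k : ℕ) * ((1 - Y)
      * PowerSeries.C (if (k : ℕ) = 0 then (1 : ℝ) else 2) + Y * 2)
      = -((1 - Y) * (2 + PowerSeries.X)) := by
    have h1 := mul_geom_sum (1 + PowerSeries.X : PowerSeries ℝ) (d + 1)
    rw [← hY, ← Fin.sum_univ_eq_sum_range, Fin.sum_univ_succ] at h1
    rw [Fin.sum_univ_succ]
    simp only [Fin.val_zero, Fin.val_succ, Nat.succ_ne_zero, if_true, if_false, map_one, map_ofNat,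
      pow_zero, ← sum_mul] at h1 ⊢
    linear_combination 2 * h1
  have k0 : ∀ k : Fin (d + 1), PowerSeries.C ((d : ℝ) + 1) * ((1 + PowerSeries.X) ^ (k : ℕ)
      * aeval Y (nab (eps e) s (Sum.inr ⟨d, i, k⟩))) = (1 - Y) * ((1 + PowerSeries.X)
        * PowerSeries.derivative ℝ ((1 + PowerSeries.X) ^ (k : ℕ)
          * aeval Y (s (Sum.inr ⟨d, i, k⟩)))) + if (i : ℕ) = 0 then (1 + PowerSeries.X) ^ (k : ℕ)
          * ((1 - Y) * PowerSeries.C (if (k : ℕ) = 0 then (1 : ℝ) else 2) + Y * 2)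
          * ∑ l, PowerSeries.C (e l) * aeval Y (s (Sum.inl (l, 0)))
        else -((1 - Y) * ((1 + PowerSeries.X) ^ (k : ℕ)
          * aeval Y (s (Sum.inr ⟨d, ⟨i - 1, by omega⟩, k⟩)))) := fun k => by
    have a1 := aeval_th d (s (Sum.inr ⟨d, i, k⟩))
    rw [← hY] at a1
    rw [nab_inr, Derivation.leibniz, smul_eq_mul, smul_eq_mul]
    generalize PowerSeries.C ((d : ℝ) + 1) = c at a1 hc ⊢
    split_ifs with h h' <;>
      simp only [map_add, map_mul, map_sub, map_neg, map_sum, aeval_X, rs_C, aeval_one]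
    · linear_combination (1 + PowerSeries.X) ^ (k : ℕ) * a1 + (1 + PowerSeries.X) ^ (k : ℕ) * (1 - Y)
        * aeval Y (s (Sum.inr ⟨d, i, k⟩)) * hc k - (1 - Y) * aeval Y (s (Sum.inr ⟨d, i, k⟩)) * hp k
        + (1 + PowerSeries.X) ^ (k : ℕ) * (∑ l, PowerSeries.C (e l) * aeval Y (s (Sum.inl (l, 0))))
          * ((1 - Y) * hc 1 + Y * (hc 2).trans (map_ofNat _ 2))
    · linear_combination (1 + PowerSeries.X) ^ (k : ℕ) * a1 + (1 + PowerSeries.X) ^ (k : ℕ) * (1 - Y)
        * aeval Y (s (Sum.inr ⟨d, i, k⟩)) * hc k - (1 - Y) * aeval Y (s (Sum.inr ⟨d, i, k⟩)) * hp k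
        + (1 + PowerSeries.X) ^ (k : ℕ) * (∑ l, PowerSeries.C (e l) * aeval Y (s (Sum.inl (l, 0))))
          * ((1 - Y) * hc 2 + Y * (hc 2).trans (map_ofNat _ 2))
    · linear_combination (1 + PowerSeries.X) ^ (k : ℕ) * a1 + (1 + PowerSeries.X) ^ (k : ℕ) * (1 - Y)
        * aeval Y (s (Sum.inr ⟨d, i, k⟩)) * hc k - (1 - Y) * aeval Y (s (Sum.inr ⟨d, i, k⟩)) * hp k
        - (1 + PowerSeries.X) ^ (k : ℕ) * (1 - Y)
          * aeval Y (s (Sum.inr ⟨d, ⟨i - 1, by omega⟩, k⟩)) * (hc 1).trans (map_one _)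
  rw [mul_sum, sum_congr rfl fun k _ => k0 k, sum_add_distrib, ← mul_sum, ← mul_sum, ← map_sum]
  by_cases h : (i : ℕ) = 0
  · simp only [if_pos h, ← sum_mul]
    linear_combination (∑ l, PowerSeries.C (e l) * aeval Y (s (Sum.inl (l, 0)))) * hg
  · simp only [if_neg h, sum_neg_distrib, ← mul_sum]
    ring

theorem rel_Ps {δ w D A : ℕ} (e : Fin δ → ℝ) (g : Fin δ → ℕ → ℝ) (d i : ℕ) (hd : d < D)
    (hi : i ≤ A) (s : IC δ w ⊕ IR D A → ℝ[X]) :
    PowerSeries.X * (PowerSeries.C ((d : ℝ) + 1)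
        * rr (Ps e g d i) ((1 + PowerSeries.X) ^ (d + 1)) (nab (eps e) s))
      = (1 - (1 + PowerSeries.X) ^ (d + 1)) * (PowerSeries.X * ((1 + PowerSeries.X)
          * PowerSeries.derivative ℝ (rr (Ps e g d i) ((1 + PowerSeries.X) ^ (d + 1)) s)
          - if i = 0 then 0 else rr (Ps e g d (i - 1)) ((1 + PowerSeries.X) ^ (d + 1)) s)
        - 2 * rr (Pb e d i) ((1 + PowerSeries.X) ^ (d + 1)) s) := by
  generalize hY : (1 + PowerSeries.X : PowerSeries ℝ) ^ (d + 1) = Y
  have h1 := rs_row e ⟨d, hd⟩ ⟨i, by omega⟩ s Y hY.symm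
  have h2 := sum_congr rfl fun l (_ : l ∈ univ) => rs_col e (g l) d i l s Y hY.symm
  have h3 : rr (Pb e d i) Y s = ∑ l, ∑ v : Fin (w + 1), PowerSeries.C (e l) * cs bc (d + 1) i v
      * aeval Y (s (Sum.inl (l, v))) := by
    simp [rr, Pb, Fintype.sum_sum_type, Fintype.sum_prod_type]
  rw [h3, rs_rr e g ⟨d, hd⟩ ⟨i, by omega⟩, rs_rr e g ⟨d, hd⟩ ⟨i, by omega⟩,
    rs_rr e g ⟨d, hd⟩ ⟨i - 1, by omega⟩, map_sub, map_sum _ _ (univ : Finset (Fin δ))]
  by_cases h : i = 0
  · simp only [if_pos h, sum_add_distrib, sum_sub_distrib, ← mul_sum, sub_zero] at h1 h2 ⊢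
    linear_combination h1 - h2
  · simp only [if_neg h, sum_add_distrib, sum_sub_distrib, ← mul_sum, sub_zero] at h1 h2 ⊢
    linear_combination h1 - h2

end ZDil

end

-- part GD
section

namespace ZDil

open Finset Polynomial ZOdd

theorem gd_der {M : ℕ} {r : PowerSeries ℝ} (h : PowerSeries.X ^ M ∣ r) :
    PowerSeries.X ^ M ∣ PowerSeries.X * PowerSeries.derivative ℝ r := by
  rw [PowerSeries.X_pow_dvd_iff] at h ⊢
  rintro (_ | m) hm
  · simp
  · rw [PowerSeries.coeff_succ_X_mul, PowerSeries.coeff_derivative, h _ hm, zero_mul]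

theorem gd_C {M d : ℕ} {r : PowerSeries ℝ}
    (h : PowerSeries.X ^ M ∣ PowerSeries.C ((d : ℝ) + 1) * r) {m : ℕ} (hm : m < M) :
    PowerSeries.coeff m r = 0 := by
  have := PowerSeries.X_pow_dvd_iff.1 h m hm
  rw [PowerSeries.coeff_C_mul] at this
  exact (mul_eq_zero.1 this).resolve_left (by positivity)

theorem good_nab {δ w D A : ℕ} (e : Fin δ → ℝ) (g : Fin δ → ℕ → ℝ) (K n N : ℕ)
    (s : IC δ w ⊕ IR D A → ℝ[X]) (hs : Good e g K n N s) :
    Good e g K n (N + 1) (nab (eps e) s) := by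
  refine ⟨fun x => add_mem (dl_th (hs.1 x)) (Submodule.sum_mem _ fun j _ =>
    dl_mul (by compute_degree) (hs.1 j)), fun d hd i hi m hm => ?_⟩
  obtain ⟨U, hU⟩ : (PowerSeries.X : PowerSeries ℝ) ∣ 1 - (1 + PowerSeries.X) ^ (d + 1) :=
    PowerSeries.X_dvd_iff.2 (by simp)
  have a := fun j hj => PowerSeries.X_pow_dvd_iff.2 fun m hm => (hs.2 d hd j hj m hm).1
  have b := fun j hj => PowerSeries.X_pow_dvd_iff.2 fun m hm => (hs.2 d hd j hj m hm).2
  have c : ∀ t : PowerSeries ℝ, PowerSeries.X ^ ((d + 1 + K) * n) ∣ t →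
      PowerSeries.X ^ ((d + 1 + K) * n) ∣ if i = 0 then 0 else t := fun t ht => by
    split_ifs
    · exact dvd_zero _
    · exact ht
  have key : ∀ p q : PowerSeries ℝ, PowerSeries.X * ((1 + PowerSeries.X) * p - q) =
      (1 + PowerSeries.X) * (PowerSeries.X * p) - PowerSeries.X * q := fun p q => by ring
  refine ⟨gd_C (d := d) ?_ hm, gd_C (d := d) ?_ hm⟩
  · have h := rel_Ps e g d i hd hi s
    rw [hU, mul_assoc] at h
    rw [mul_left_cancel₀ PowerSeries.X_ne_zero h, key]
    exact ((((gd_der (a i hi)).mul_left _).sub ((c _ (a _ (by omega))).mul_left _)).sub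
      ((b i hi).mul_left _)).mul_left _
  · rw [rel_Pb, hU, mul_comm _ U, mul_assoc, key]
    exact (((gd_der (b i hi)).mul_left _).sub ((c _ (b _ (by omega))).mul_left _)).mul_left _

end ZDil

end

-- part SG
section

namespace ZDil

open Finset Polynomial ZOdd

theorem sg_coeff (G : ℕ → ℕ → ℝ) (d i m v n : ℕ) (y : Fin n → ℝ) :
    PowerSeries.coeff m (cs G d i v * aeval ((1 + PowerSeries.X : PowerSeries ℝ) ^ d)
      (∑ ν : Fin n, monomial (ν : ℕ) (y ν))) = ∑ ν : Fin n, ent G d i m v ν * y ν := by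
  rw [map_sum, mul_sum, map_sum]
  refine sum_congr rfl fun ν _ => ?_
  have h : cs G d i v * aeval ((1 + PowerSeries.X : PowerSeries ℝ) ^ d) (monomial (ν : ℕ) (y ν))
      = PowerSeries.C (((i + v).choose i : ℝ) * (d : ℝ) ^ v * y ν)
        * PowerSeries.mk (pa (fun m' => G m' (i + v)) (d * ν)) := by
    rw [mk_pa, aeval_monomial, ← pow_mul, cs, map_mul PowerSeries.C _ (y ν)]
    change _ * (PowerSeries.C (y ν) * _) = _
    ring
  rw [h, PowerSeries.coeff_C_mul, PowerSeries.coeff_mk, ent]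
  ring

theorem sg_deg (n : ℕ) (y : Fin n → ℝ) :
    (∑ ν : Fin n, monomial (ν : ℕ) (y ν)) ∈ degreeLT ℝ n :=
  Submodule.sum_mem _ fun ν _ => mem_degreeLT.2
    ((degree_monomial_le _ _).trans_lt (by exact_mod_cast ν.2))

theorem sg_split (S : PowerSeries ℝ) (d n : ℕ) : ∃ r : Fin (d + 1) → ℝ[X],
    (∀ k, r k ∈ degreeLT ℝ n) ∧ ∀ m, PowerSeries.coeff m (∑ k : Fin (d + 1),
      (1 + PowerSeries.X) ^ (k : ℕ) * aeval ((1 + PowerSeries.X : PowerSeries ℝ) ^ (d + 1)) (r k))
        = if m < (d + 1) * n then PowerSeries.coeff m S else 0 := by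
  set p : ℝ[X] := taylor (-1) (PowerSeries.trunc ((d + 1) * n) S) with hp
  have hd : p.degree < (n * (d + 1) : ℕ) := by
    rw [hp, degree_taylor, mul_comm n]
    exact PowerSeries.degree_trunc_lt _ _
  refine ⟨fun k => ∑ ν : Fin n, monomial (ν : ℕ) (p.coeff (k + (d + 1) * ν)),
    fun k => sg_deg n _, fun m => ?_⟩
  have h1 : aeval (1 + PowerSeries.X : PowerSeries ℝ) p
      = ((PowerSeries.trunc ((d + 1) * n) S : ℝ[X]) : PowerSeries ℝ) := by
    rw [hp, taylor_apply, aeval_comp, ← eval₂_C_X_eq_coe, aeval_def]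
    congr 1
    simp
  rw [← PowerSeries.coeff_trunc, ← coeff_coe, ← h1, aeval_def, eval₂_eq_sum,
    ← sum_fin _ (by simp) hd, ← finProdFinEquiv.sum_comp, Fintype.sum_prod_type, sum_comm]
  congr 1
  refine sum_congr rfl fun k _ => ?_
  rw [map_sum, mul_sum]
  refine sum_congr rfl fun ν _ => ?_
  rw [aeval_monomial, finProdFinEquiv_apply_val, ← pow_mul, pow_add]
  ring

theorem exists_section {δ w D A : ℕ} (e : Fin δ → ℝ) (g : Fin δ → ℕ → ℝ) (K n : ℕ)
    (z : IC δ w × Fin n → ℝ)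
    (h1 : ∀ d < D, ∀ i ≤ A, ∀ m, (d + 1) * n ≤ m → m < (d + 1 + K) * n →
      ∑ q, ent (fc (e q.1.1) (g q.1.1)) (d + 1) i m q.1.2 q.2 * z q = 0)
    (h2 : ∀ d < D, ∀ i ≤ A, ∀ m < (d + 1 + K) * n,
      ∑ q, e q.1.1 * ent bc (d + 1) i m q.1.2 q.2 * z q = 0) :
    ∃ s : IC δ w ⊕ IR D A → ℝ[X], Good e g K n n s ∧
      ∀ c (ν : Fin n), (s (Sum.inl c)).coeff ν = z (c, ν) := by
  set q : IC δ w → ℝ[X] := fun c => ∑ ν : Fin n, monomial (ν : ℕ) (z (c, ν)) with hq
  choose r hr hS using fun d i : ℕ => sg_split (∑ c : IC δ w, cs (fc (e c.1) (g c.1)) (d + 1) i c.2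
    * aeval ((1 + PowerSeries.X : PowerSeries ℝ) ^ (d + 1)) (q c)) d n
  refine ⟨Sum.elim q fun x => r x.1 x.2.1 x.2.2, ⟨?_, fun d hd i hi m hm => ⟨?_, ?_⟩⟩,
    fun c ν => ?_⟩
  · rintro (c | x)
    · exact sg_deg n _
    · exact hr _ _ _
  · have hi' : i < A + 1 := Nat.lt_succ_of_le hi
    rw [rr, Fintype.sum_sum_type, Fintype.sum_sigma, sum_eq_single (⟨d, hd⟩ : Fin D),
      Fintype.sum_prod_type (α₁ := Fin (A + 1)), sum_eq_single (⟨i, hi'⟩ : Fin (A + 1))]
    · simp only [Ps, Sum.elim_inl, Sum.elim_inr, and_self, if_true, neg_mul, sum_neg_distrib]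
      rw [map_add, map_neg, hS]
      split_ifs with h
      · exact neg_add_cancel _
      · rw [add_zero, neg_eq_zero, ← h1 d hd i hi m (not_lt.1 h) hm,
          Fintype.sum_prod_type (α₂ := Fin n), map_sum]
        exact sum_congr rfl fun c _ => sg_coeff _ _ _ _ _ _ _
    · intro j _ hj
      refine sum_eq_zero fun k _ => ?_
      have : (j : ℕ) ≠ i := fun h => hj (Fin.ext h)
      simp [Ps, this]
    · simp
    · intro j _ hj
      refine sum_eq_zero fun k _ => ?_
      have : (j : ℕ) ≠ d := fun h => hj (Fin.ext h)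
      simp [Ps, this]
    · simp
  · rw [rr, Fintype.sum_sum_type, ← h2 d hd i hi m hm, Fintype.sum_prod_type (α₂ := Fin n)]
    simp only [Pb, Sum.elim_inl, Sum.elim_inr, zero_mul, sum_const_zero, add_zero, map_sum]
    refine sum_congr rfl fun c _ => ?_
    rw [mul_assoc, PowerSeries.coeff_C_mul, hq, sg_coeff, mul_sum]
    exact sum_congr rfl fun ν _ => (mul_assoc _ _ _).symm
  · simp only [Sum.elim_inl, hq, finsetSum_coeff, coeff_monomial, Fin.val_inj]
    simp

end ZDil

end

-- part EV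
section

namespace ZDil

open Finset Polynomial ZOdd

theorem ev_step {δ w D A : ℕ} (e : Fin δ → ℝ) (x : IC δ w ⊕ IR D A → ℝ) (l : Fin δ)
    (v : ℕ) (hv : v + 1 < w + 1) :
    (eps e false).mulVec x (Sum.inl (l, ⟨v, by omega⟩)) = x (Sum.inl (l, ⟨v + 1, hv⟩)) := by
  rw [Matrix.mulVec, dotProduct, Fintype.sum_sum_type, sum_eq_single (l, (⟨v + 1, hv⟩ : Fin _))]
  · simp [eps]
  · rintro ⟨l', v'⟩ _ hne
    have : ¬ (l = l' ∧ v + 1 = (v' : ℕ)) := by
      rintro ⟨rfl, h⟩
      exact hne (Prod.ext rfl (Fin.ext h.symm))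
    simp only [eps, Matrix.of_apply, true_and, if_neg this, zero_mul]
  · simp

theorem ev_one {δ w D A : ℕ} (e : Fin δ → ℝ) (x : IC δ w ⊕ IR D A → ℝ) :
    (eps e true).mulVec x = (2 * ∑ l, e l * x (Sum.inl (l, 0))) • ev := by
  funext y
  rw [Matrix.mulVec, dotProduct, Fintype.sum_sum_type]
  rcases y with c | r
  · simp [eps, ev]
  · by_cases h : (r.2.1 : ℕ) = 0
    · simp only [eps, ev, Matrix.of_apply, h, true_and, Bool.true_eq_false, false_and, if_false,
        zero_mul, sum_const_zero, add_zero, Pi.smul_apply, Sum.elim_inr, if_true, smul_eq_mul,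
        Fintype.sum_prod_type, mul_sum, sum_mul]
      refine sum_congr rfl fun l _ => ?_
      rw [sum_eq_single (0 : Fin (w + 1))]
      · simp only [Fin.val_zero, if_true]; ring
      · intro b _ hb
        have hb' : ¬ ((b : ℕ) = 0) := fun hb' => hb (Fin.ext hb')
        rw [if_neg hb', zero_mul]
      · simp
    · simp only [eps, ev, Matrix.of_apply, h, Bool.true_eq_false, false_and, if_false,
        zero_mul, sum_const_zero, add_zero, Pi.smul_apply, Sum.elim_inr, smul_eq_mul, mul_zero]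

theorem ev_mem {δ w D A : ℕ} (e : Fin δ → ℝ) (W : Submodule ℝ (IC δ w ⊕ IR D A → ℝ))
    (hW : St (eps e) W) (x : IC δ w ⊕ IR D A → ℝ) (hx : x ∈ W) (v : Fin (w + 1))
    (hv : ∑ l, e l * x (Sum.inl (l, v)) ≠ 0) : ev ∈ W := by
  obtain ⟨v, hlt⟩ := v
  induction v generalizing x with
  | zero =>
    have h1 := hW true x hx
    rw [ev_one] at h1
    exact (W.smul_mem_iff (mul_ne_zero two_ne_zero hv)).1 h1
  | succ v ih =>
    refine ih _ (hW false x hx) (by omega) ?_
    simpa only [ev_step e x _ v hlt] using hv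

end ZDil

end

-- part GN
section

namespace ZDil

open Finset Polynomial ZOdd

/-- The point attached to a row label. -/
noncomputable def gnPt {D A : ℕ} (r : IR D A) : ℝ := ((r.2.2 : ℕ) : ℝ) / ((r.1 : ℝ) + 1)

/-- The vector of scaled Taylor coefficients of a polynomial at the points of the rows. -/
noncomputable def gnVec {δ w D A : ℕ} (P : ℝ[X]) : IC δ w ⊕ IR D A → ℝ :=
  Sum.elim 0 fun r => 1 / ((r.1 : ℝ) + 1) * (-1 / ((r.1 : ℝ) + 1)) ^ (r.2.1 : ℕ)
    * (taylor (gnPt r) P).coeff r.2.1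

theorem gn_one {δ w D A : ℕ} : (gnVec 1 : IC δ w ⊕ IR D A → ℝ) = ev := by
  funext y
  rcases y with c | r
  · rfl
  · simp only [gnVec, ev, Sum.elim_inr, taylor_one, C_1, coeff_one]
    split_ifs with h
    · rw [h]; ring
    · ring

theorem gn_X {δ w D A : ℕ} (e : Fin δ → ℝ) (P : ℝ[X]) :
    (eps e false).mulVec (gnVec P : IC δ w ⊕ IR D A → ℝ) = gnVec (X * P) := by
  funext y
  rw [Matrix.mulVec, dotProduct, Fintype.sum_sum_type]
  rcases y with c | ⟨d, i, k⟩
  · simp [eps, gnVec]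
  · have h0 : ∑ c : IC δ w, eps e false (Sum.inr ⟨d, i, k⟩ : IC δ w ⊕ IR D A) (Sum.inl c)
        * (gnVec P : IC δ w ⊕ IR D A → ℝ) (Sum.inl c) = 0 :=
      sum_eq_zero fun c _ => by simp only [gnVec, Sum.elim_inl, Pi.zero_apply, mul_zero]
    rw [h0, zero_add, Fintype.sum_sigma, sum_eq_single d, Fintype.sum_prod_type_right,
      sum_eq_single k]
    · simp only [eps, Matrix.of_apply, true_and, if_true, gnVec, Sum.elim_inr, taylor_mul,
        taylor_X, add_mul, coeff_add, coeff_C_mul, and_self, gnPt]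
      obtain ⟨i, hi⟩ := i
      rcases i with _ | i
      · rw [sum_eq_single (⟨0, hi⟩ : Fin (A + 1))]
        · simp only [if_true, mul_coeff_zero, coeff_X_zero]; ring
        · intro b _ hb
          rw [if_neg hb.symm, if_neg (by simp), zero_mul]
        · simp
      · rw [sum_eq_add (⟨i + 1, hi⟩ : Fin (A + 1)) ⟨i, by omega⟩ (by simp)]
        · rw [if_pos rfl, if_neg (by simp), if_pos rfl]
          simp only [coeff_X_mul]
          ring
        · intro b _ hb
          rw [if_neg hb.1.symm, if_neg, zero_mul]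
          intro h
          exact hb.2 (Fin.ext (by simpa using h.symm))
        · simp
        · simp
    · intro b _ hb
      refine sum_eq_zero fun a _ => ?_
      have : ¬ ((k : ℕ) = b) := fun h => hb (Fin.ext h.symm)
      simp only [eps, Matrix.of_apply, this, and_false, if_false, zero_mul]
    · simp
    · intro b _ hb
      refine sum_eq_zero fun a _ => ?_
      have : ¬ (d = b) := fun h => hb h.symm
      simp only [eps, Matrix.of_apply, this, false_and, and_false, if_false, zero_mul]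
    · simp

theorem gn_mem {δ w D A : ℕ} (e : Fin δ → ℝ) (W : Submodule ℝ (IC δ w ⊕ IR D A → ℝ))
    (hW : St (eps e) W) (hev : ev ∈ W) (P : ℝ[X]) : gnVec P ∈ W := by
  have h1 : ∀ n : ℕ, gnVec (X ^ n) ∈ W := by
    intro n
    induction n with
    | zero => rw [pow_zero, gn_one]; exact hev
    | succ n ih => rw [pow_succ', ← gn_X e]; exact hW false _ ih
  induction P using Polynomial.induction_on' with
  | add p q hp hq =>
    convert W.add_mem hp hq using 1
    funext y
    rcases y with c | r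
    · simp [gnVec]
    · simp only [gnVec, Sum.elim_inr, Pi.add_apply, map_add, coeff_add]; ring
  | monomial n a =>
    convert W.smul_mem a (h1 n) using 1
    funext y
    rcases y with c | r
    · simp [gnVec]
    · simp only [gnVec, Sum.elim_inr, Pi.smul_apply, ← C_mul_X_pow_eq_monomial, taylor_mul,
        taylor_C, coeff_C_mul, smul_eq_mul]; ring

theorem gn_val {δ w D A : ℕ} (e : Fin δ → ℝ) (g : Fin δ → ℕ → ℝ) (P : ℝ[X])
    (j : Fin D × Fin (A + 1)) :
    ∑ y, PowerSeries.constantCoeff (Ps e g j.1 j.2 y) * (gnVec P : IC δ w ⊕ IR D A → ℝ) y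
      = ∑ k : Fin (j.1 + 1), (gnVec P : IC δ w ⊕ IR D A → ℝ) (Sum.inr ⟨j.1, j.2, k⟩) := by
  rw [Fintype.sum_sum_type, sum_eq_zero (fun c _ => by
      simp only [gnVec, Sum.elim_inl, Pi.zero_apply, mul_zero]), zero_add, Fintype.sum_sigma,
    sum_eq_single j.1, Fintype.sum_prod_type, sum_eq_single j.2]
  · refine sum_congr rfl fun k _ => ?_
    simp only [Ps, Sum.elim_inr, and_self, if_true, map_pow, map_add, map_one,
      PowerSeries.constantCoeff_X, add_zero, one_pow, one_mul]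
  · intro b _ hb
    refine sum_eq_zero fun a _ => ?_
    have : ¬ ((b : ℕ) = j.2) := fun h => hb (Fin.ext h)
    simp only [Ps, Sum.elim_inr, this, and_false, if_false, map_zero, zero_mul]
  · simp
  · intro b _ hb
    refine sum_eq_zero fun a _ => ?_
    have : ¬ ((b : ℕ) = j.1) := fun h => hb (Fin.ext h)
    simp only [Ps, Sum.elim_inr, this, false_and, if_false, map_zero, zero_mul]
  · simp

theorem gn_taylor (p : ℝ) (n i : ℕ) (Q : ℝ[X]) :
    (taylor p ((X - C p) ^ n * Q)).coeff i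
      = if n ≤ i then (taylor p Q).coeff (i - n) else 0 := by
  have h : taylor p ((X - C p) ^ n) = X ^ n := by
    rw [taylor_pow, map_sub, taylor_X, taylor_C, add_sub_cancel_right]
  rw [taylor_mul, h, coeff_X_pow_mul']

theorem gn_new {D A : ℕ} (d d' : Fin D) (i i' : Fin (A + 1)) (k : Fin (d' + 1)) (hd : d' ≤ d)
    (h : gnPt (⟨d', i', k⟩ : IR D A) = gnPt (⟨d, i, Fin.last d⟩ : IR D A)) :
    d' = d ∧ (k : ℕ) = d := by
  simp only [gnPt, Fin.val_last] at h
  rw [div_eq_div_iff (by positivity) (by positivity)] at h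
  have h1 : (k : ℕ) * ((d : ℕ) + 1) = d * ((d' : ℕ) + 1) := by exact_mod_cast h
  have h2 : (k : ℕ) ≤ d' := Nat.lt_succ_iff.1 k.2
  have h3 : (d' : ℕ) ≤ d := hd
  have h4 : (d' : ℕ) = d := by
    by_contra hne
    have h5 : (k : ℕ) * ((d : ℕ) + 1) ≤ d' * ((d : ℕ) + 1) := Nat.mul_le_mul_right _ h2
    have h6 : (d' : ℕ) * ((d : ℕ) + 1) = d * d' + d' := by ring
    have h7 : (d : ℕ) * ((d' : ℕ) + 1) = d * d' + d := by ring
    omega
  refine ⟨Fin.ext h4, ?_⟩
  have h8 : (d : ℕ) * ((d' : ℕ) + 1) = d * ((d : ℕ) + 1) := by rw [h4]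
  exact Nat.eq_of_mul_eq_mul_right (Nat.succ_pos _) (h1.trans h8)

theorem ev_surj {δ w D A : ℕ} (e : Fin δ → ℝ) (g : Fin δ → ℕ → ℝ)
    (W : Submodule ℝ (IC δ w ⊕ IR D A → ℝ)) (hW : St (eps e) W) (hev : ev ∈ W)
    (c : Fin D × Fin (A + 1) → ℝ) : ∃ x ∈ W, ∀ j : Fin D × Fin (A + 1),
      ∑ y, PowerSeries.constantCoeff (Ps e g j.1 j.2 y) * x y = c j := by
  classical
  let M : Matrix (Fin D × Fin (A + 1)) (IC δ w ⊕ IR D A) ℝ :=
    Matrix.of fun j y => PowerSeries.constantCoeff (Ps e g j.1 j.2 y)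
  suffices h : c ∈ W.map M.mulVecLin by
    obtain ⟨x, hx, rfl⟩ := h
    exact ⟨x, hx, fun j => rfl⟩
  refine mem_of_ann _ c fun ψ hψ => ?_
  suffices h : ∀ j, ψ j = 0 from sum_eq_zero fun j _ => by rw [h j, zero_mul]
  by_contra hne
  push Not at hne
  obtain ⟨⟨d, i⟩, hj, hmax⟩ := exists_max_image (univ.filter fun j => ψ j ≠ 0)
    (fun j => toLex j) (by obtain ⟨j, hj⟩ := hne; exact ⟨j, mem_filter.2 ⟨mem_univ _, hj⟩⟩)
  let a : ℝ := gnPt (⟨d, i, Fin.last d⟩ : IR D A)
  let Q : ℝ[X] := ∏ r ∈ univ.filter (fun r : IR D A => gnPt r ≠ a), (X - C (gnPt r)) ^ (A + 1)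
  have hQ : Q.eval a ≠ 0 := by
    rw [eval_prod, prod_ne_zero_iff]
    intro r hr
    rw [eval_pow, eval_sub, eval_X, eval_C]
    exact pow_ne_zero _ (sub_ne_zero.2 (mem_filter.1 hr).2.symm)
  have hz : ∀ r : IR D A, gnPt r ≠ a →
      (gnVec ((X - C a) ^ (i : ℕ) * Q) : IC δ w ⊕ IR D A → ℝ) (Sum.inr r) = 0 := by
    intro r hr
    obtain ⟨q, hq⟩ : (X - C (gnPt r)) ^ (A + 1) ∣ (X - C a) ^ (i : ℕ) * Q :=
      Dvd.dvd.mul_left (dvd_prod_of_mem (fun r : IR D A => (X - C (gnPt r)) ^ (A + 1))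
        (mem_filter.2 ⟨mem_univ r, hr⟩ : r ∈ univ.filter fun r : IR D A => gnPt r ≠ a)) _
    simp only [gnVec, Sum.elim_inr]
    rw [hq, gn_taylor, if_neg (not_le.2 r.2.1.2), mul_zero]
  have h := hψ _ ⟨_, gn_mem e W hW hev ((X - C a) ^ (i : ℕ) * Q), rfl⟩
  have hv : ∀ j, M.mulVecLin (gnVec ((X - C a) ^ (i : ℕ) * Q)) j = _ := fun j => gn_val e g _ j
  rw [sum_eq_single (d, i), hv, sum_eq_single (Fin.last d)] at h
  · refine mul_ne_zero (mem_filter.1 hj).2 ?_ h
    simp only [gnVec, Sum.elim_inr]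
    rw [gn_taylor a, if_pos le_rfl, Nat.sub_self, taylor_coeff_zero]
    refine mul_ne_zero (mul_ne_zero (by positivity) (pow_ne_zero _ ?_)) hQ
    exact div_ne_zero (by norm_num) (by positivity)
  · intro k _ hk
    exact hz _ fun hh => hk (Fin.ext (gn_new d d i i k le_rfl hh).2)
  · simp
  · rintro ⟨d', i'⟩ _ hne'
    by_cases h0 : ψ (d', i') = 0
    · rw [h0, zero_mul]
    have hle := Prod.Lex.toLex_le_toLex.1 (hmax _ (mem_filter.2 ⟨mem_univ _, h0⟩))
    rw [hv, sum_eq_zero, mul_zero]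
    intro k _
    by_cases hh : gnPt (⟨d', i', k⟩ : IR D A) = a
    · have hd : d' = d := (gn_new d d' i i' k (hle.elim le_of_lt fun h => h.1.le) hh).1
      have hi : i' < i := by
        rcases hle with h | h
        · exact absurd hd (ne_of_lt h)
        · exact lt_of_le_of_ne h.2 fun h' => hne' (Prod.ext hd h')
      simp only [gnVec, Sum.elim_inr]
      rw [hh, gn_taylor, if_neg (not_le.2 (Fin.lt_def.1 hi)), mul_zero]
    · exact hz _ hh
  · simp

end ZDil

end

-- part TR
section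

namespace ZDil

open Finset Polynomial ZOdd

theorem rr_smul {ι : Type} [Fintype ι] (Ψ : ι → PowerSeries ℝ) (Y : PowerSeries ℝ) {μ : ℕ}
    (c : Fin μ → ℝ[X]) (e : Fin μ → ι → ℝ[X]) :
    rr Ψ Y (∑ k, c k • e k) = ∑ k, aeval Y (c k) * rr Ψ Y (e k) := by
  simp only [rr, Finset.sum_apply, Pi.smul_apply, smul_eq_mul, map_sum, map_mul, mul_sum]
  rw [sum_comm]
  exact sum_congr rfl fun k _ => sum_congr rfl fun x _ => by ring

theorem trans (δ w A D K n : ℕ) (e : Fin δ → ℝ) (g : Fin δ → ℕ → ℝ) (hK : 1 ≤ K) (hD : 1 ≤ D)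
    (hcnt : δ * (w + 1) < (A + 1) * D * K)
    (hn : Fintype.card (IC δ w ⊕ IR D A) * Fintype.card (IC δ w ⊕ IR D A)
      + Fintype.card (IC δ w ⊕ IR D A) < n) (z : IC δ w × Fin n → ℝ)
    (h1 : ∀ d < D, ∀ i ≤ A, ∀ m, (d + 1) * n ≤ m → m < (d + 1 + K) * n →
      ∑ q, ent (fc (e q.1.1) (g q.1.1)) (d + 1) i m q.1.2 q.2 * z q = 0)
    (h2 : ∀ d < D, ∀ i ≤ A, ∀ m < (d + 1 + K) * n,
      ∑ q, e q.1.1 * ent bc (d + 1) i m q.1.2 q.2 * z q = 0) (v : Fin (w + 1)) (ν : Fin n) :
    ∑ l, e l * z ((l, v), ν) = 0 := by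
  by_contra hne
  obtain ⟨s, hs, hsz⟩ := exists_section (D := D) (A := A) e g K n z h1 h2
  obtain ⟨t1, t2, t3⟩ := eps_tri (w := w) (D := D) (A := A) e
  obtain ⟨W, μ, b, hμ, hW, -, hbK, hbP, hK0, hind, hrk⟩ := sat_core2 (eps (w := w) (D := D) (A := A) e)
    (constancy2 _ _ t1 t2 t3) ⊥ (fun β c hc => by
      rw [Submodule.mem_bot] at hc ⊢
      rw [hc, Matrix.mulVec_zero]) (fun j => {x | Good e g K n (n + j) x})
    (fun j x hx => ⟨fun y => dl_mono (by omega) (hx.1 y), hx.2⟩)
    (fun j x hx => good_nab e g K n (n + j) x hx)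
  have hev : ev ∈ W := ev_mem e W hW (cf ν s) (hK0 s hs ν) v (by
    simpa only [cf_apply, hsz] using hne)
  rw [finrank_bot, zero_add] at hrk
  generalize hN : Fintype.card (IC δ w ⊕ IR D A) = N at hn hμ
  obtain ⟨r, hr⟩ : ∃ r, (D + K) * n = n + μ + r := ⟨(D + K) * n - (n + μ), by
    have := Nat.mul_le_mul_right n (show 2 ≤ D + K by omega)
    omega⟩
  let Θ : (Fin μ → degreeLT ℝ (r + 1)) →ₗ[ℝ] (IC δ w ⊕ IR D A → ℝ[X]) := ∑ k,
    (LinearMap.toSpanSingleton ℝ[X] _ (b k)).restrictScalars ℝ ∘ₗ Submodule.subtype _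
      ∘ₗ LinearMap.proj k
  have hΘ : ∀ y, Θ y = ∑ k, (y k : ℝ[X]) • b k := fun y => by simp [Θ, LinearMap.sum_apply]
  have hinj : Function.Injective Θ := by
    rw [← LinearMap.ker_eq_bot, LinearMap.ker_eq_bot']
    intro y hy
    rw [hΘ] at hy
    exact funext fun k => Subtype.ext (hind (fun k => y k) (hy ▸ zero_mem _) k)
  have hub := ub_count W (fun j : Fin D × Fin (A + 1) => (1 + PowerSeries.X) ^ ((j.1 : ℕ) + 1))
    (fun j => by simp) (fun j => by
      simp only [PowerSeries.coeff_one_pow, map_add, PowerSeries.coeff_one_X,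
        PowerSeries.constantCoeff_X, map_one]
      simp
      positivity)
    (fun j => Ps e g j.1 j.2) (fun j => ((j.1 : ℕ) + 1 + K) * n) ((D + K) * n)
    (fun j => Nat.mul_le_mul_right n (by have := j.1.2; omega)) (ev_surj e g W hW hev)
    (LinearMap.range Θ) (by
      rintro _ ⟨y, rfl⟩
      rw [hΘ]
      refine ⟨Submodule.sum_mem _ fun k _ => Submodule.smul_mem _ _ (hbP k), fun i => ?_,
        fun j m hm => ?_⟩
      · rw [Finset.sum_apply]
        refine Submodule.sum_mem _ fun k _ => dl_mono hr.ge (dl_mul ?_ ((hbK k).1 i))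
        exact natDegree_le_iff_coeff_eq_zero.2 fun m hm => mem_dl.1 (y k).2 m hm
      · rw [rr_smul, map_sum]
        refine sum_eq_zero fun k _ => ?_
        rw [PowerSeries.coeff_mul]
        refine sum_eq_zero fun p hp => ?_
        have := mem_antidiagonal.1 hp
        rw [((hbK k).2 j.1 j.1.2 j.2 (by have := j.2.2; omega) p.2 (by omega)).1, mul_zero])
  rw [LinearMap.finrank_range_of_inj hinj, Module.finrank_pi_fintype, ← sum_mul] at hub
  simp only [Module.finrank_eq_card_basis (degreeLT.basis ℝ (r + 1)), Fintype.card_fin, sum_const,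
    card_univ, smul_eq_mul] at hub
  have hsum : N + 1 ≤ ∑ j : Fin D × Fin (A + 1), ((j.1 : ℕ) + 1 + K) := by
    rw [← hN, Fintype.card_sum, Fintype.card_sigma, Fintype.sum_prod_type]
    simp only [Fintype.card_prod, Fintype.card_fin, sum_const, card_univ, smul_eq_mul, mul_add,
      sum_add_distrib]
    have : D * ((A + 1) * K) = (A + 1) * D * K := by ring
    rw [mul_add δ] at hcnt
    omega
  have h3 := Nat.mul_le_mul_right n hsum
  have h4 := Nat.mul_le_mul_left ((D + K) * n) hrk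
  have h5 : μ * μ ≤ N * N := Nat.mul_le_mul hμ hμ
  have h6 : n * μ ≤ N * n := by rw [mul_comm]; exact Nat.mul_le_mul_right n hμ
  have h7 : (n + μ + r) * μ + μ = n * μ + μ * μ + μ * (r + 1) := by ring
  rw [hr] at h4 hub
  rw [add_mul N] at h3
  omega

end ZDil

end

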