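import Pool.Agent.MP_f3dc73_nt.Y31.A

set_option autoImplicit false

-- part DN
section

namespace ZDil

open Finset Polynomial ZOdd

theorem dn_bc (m : ℕ) : ∀ k, (1 : ℝ) * (((m : ℝ) + 1) * bc (m + 1) k) ∈ den_S m (k + 0) := by
  induction m with
  | zero =>
    intro k
    have e : (1 : ℝ) * ((((0 : ℕ) : ℝ) + 1) * bc (0 + 1) k)
        = ((if k = 1 then 1 else 0 : ℤ) : ℝ) := by
      rcases k with _ | _ | k <;> simp [bc, sh]
    rw [e]; exact den_int _ _ _
  | succ m ih =>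
    intro k
    have h0 : (m : ℝ) + 1 + 1 ≠ 0 := by positivity
    have e : (1 : ℝ) * ((((m + 1 : ℕ) : ℝ) + 1) * bc (m + 1 + 1) k)
        = 1 * sh (bc (m + 1)) k - 1 * (((m : ℝ) + 1) * bc (m + 1) k) := by
      rw [bc]; push_cast; field_simp
    rw [e]
    exact AddSubgroup.sub_mem _ (den_sh (Mx := k) le_rfl fun j _ => ih j)
      (den_mono (by omega) le_rfl (ih k))

theorem dn_fc (e : ℝ) (g : ℕ → ℝ) (d : ℝ) (R L N : ℕ) (hL : ∀ j, 1 ≤ j → j ≤ N → j ∣ L)
    (he : ∃ z : ℤ, d * e = z) (hg : ∀ k < R, ∃ z : ℤ, d * g k = z) (m : ℕ) (hm : m + 1 ≤ N) :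
    ∀ k ≤ R, (L * d) * (((m : ℝ) + 1) * fc e g (m + 1) k) ∈ den_S m (k + 0) := by
  obtain ⟨z, hz⟩ := he
  have hb : ∀ m k : ℕ, m + 1 ≤ N → (L * d) * (2 * e * bc (m + 1) k) ∈ den_S m (k + 0) := by
    intro m k hm
    obtain ⟨c, hc⟩ := hL (m + 1) (by omega) hm
    have h3 := den_mul (2 * c * z) (dn_bc m k)
    convert h3 using 1
    rw [hc]; push_cast; rw [← hz]; ring
  induction m with
  | zero =>
    intro k hk
    have e1 : (L * d) * ((((0 : ℕ) : ℝ) + 1) * fc e g (0 + 1) k)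
        = L * (d * sh g k) - (L * d) * (2 * e * bc (0 + 1) k)
          + ((if k = 0 then L * z else 0 : ℤ) : ℝ) := by
      rw [fc]; push_cast; rw [← hz]; simp only [fc, true_and]; split_ifs <;> ring
    rw [e1]
    refine AddSubgroup.add_mem _ (AddSubgroup.sub_mem _ ?_ (hb 0 k hm)) (den_int _ _ _)
    rcases k with _ | k
    · simp [sh]
    · obtain ⟨y, hy⟩ := hg k (by omega)
      have := den_int 0 (k + 1 + 0) (L * y)
      simpa [sh, hy] using this
  | succ m ih =>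
    intro k hk
    have ih := ih (by omega)
    have h0 : (m : ℝ) + 1 + 1 ≠ 0 := by positivity
    have e1 : (L * d) * ((((m + 1 : ℕ) : ℝ) + 1) * fc e g (m + 1 + 1) k)
        = (L * d) * sh (fc e g (m + 1)) k - (L * d) * (((m : ℝ) + 1) * fc e g (m + 1) k)
          - (L * d) * (2 * e * bc (m + 1 + 1) k) := by
      rw [fc]; push_cast
      simp only [false_and, if_false]; field_simp; ring
    rw [e1]
    exact AddSubgroup.sub_mem _ (AddSubgroup.sub_mem _ (den_sh hk ih)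
      (den_mono (by omega) le_rfl (ih k hk))) (hb (m + 1) k hm)

theorem dn_pa (S : AddSubgroup ℝ) (c : ℝ) (F : ℕ → ℝ) (N : ℕ) (h : ∀ m ≤ N, c * F m ∈ S) (t : ℕ) :
    ∀ m ≤ N, c * pa F t m ∈ S := by
  induction t with
  | zero => exact h
  | succ t ih =>
    intro m hm
    rw [pa, mul_add]
    refine S.add_mem (ih m hm) ?_
    rcases m with _ | m
    · simp [sh]
    · simpa [sh] using ih m (by omega)

theorem dn_ent (G : ℕ → ℕ → ℝ) (c : ℝ) (R N d i m v ν : ℕ) (hm : m ≤ N)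
    (h : ∀ m ≤ N, c * G m (i + v) ∈ den_S N R) :
    ∃ z : ℤ, ((∏ r ∈ range R, Nat.lcmUpto (N / (r + 1)) : ℕ) : ℝ) * (c * ent G d i m v ν) = z := by
  refine den_fin (prod_dvd_DD N R) ?_
  have h1 := den_mul (((i + v).choose i : ℕ) * (d : ℤ) ^ v)
    (dn_pa _ c (fun m' => G m' (i + v)) N h (d * ν) m hm)
  convert h1 using 1
  rw [ent]; push_cast; ring

theorem ent_den (e : ℝ) (g : ℕ → ℝ) (d0 R N : ℕ) (he : ∃ z : ℤ, (d0 : ℝ) * e = z)
    (hg : ∀ k < R, ∃ z : ℤ, (d0 : ℝ) * g k = z) (d i m v ν : ℕ) (hm : m ≤ N) (hR : i + v < R) :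
    (∃ z : ℤ, ((d0 * DD N R : ℕ) : ℝ) * ent (fc e g) d i m v ν = z) ∧
      ∃ z : ℤ, ((d0 * DD N R : ℕ) : ℝ) * (e * ent bc d i m v ν) = z := by
  have hL : ∀ j, 1 ≤ j → j ≤ N → j ∣ Nat.lcmUpto N := fun j h1 h2 =>
    Finset.dvd_lcm (f := id) (mem_Icc.2 ⟨h1, h2⟩)
  constructor
  · obtain ⟨z, hz⟩ := dn_ent (fc e g) ((Nat.lcmUpto N : ℝ) * d0) R N d i m v ν hm fun m hm => by
      rcases m with _ | m
      · obtain ⟨y, hy⟩ := hg _ hR
        have := den_int N R (Nat.lcmUpto N * y)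
        simpa [fc, mul_assoc, hy] using this
      · exact den_mono hm (by omega) (den_cancel (dn_fc e g d0 R _ N hL he hg m hm _ hR.le))
    refine ⟨z, ?_⟩
    rw [← hz, DD]; push_cast; ring
  · obtain ⟨y, hy⟩ := he
    obtain ⟨z, hz⟩ := dn_ent bc 1 R N d i m v ν hm fun m hm => by
      rcases m with _ | m
      · have := den_int N R (if i + v = 0 then 1 else 0)
        simpa [bc] using this
      · exact den_mono hm (by omega) (den_cancel (dn_bc m _))
    refine ⟨Nat.lcmUpto N * y * z, ?_⟩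
    push_cast at hz ⊢
    rw [← hz, ← hy, DD]; push_cast; ring

end ZDil

end

-- part SZ
section

namespace ZDil

open Finset Polynomial ZOdd

theorem sz_sh {F : ℕ → ℝ} {B : ℝ} (hB : 0 ≤ B) (k : ℕ) (h : ∀ j < k, |F j| ≤ B) :
    |sh F k| ≤ B := by
  cases k with
  | zero => simpa [sh] using hB
  | succ k => exact h k (Nat.lt_succ_self k)

theorem sz_bc (m k : ℕ) : |bc m k| ≤ 1 := by
  induction m generalizing k with
  | zero => simp only [bc]; split_ifs <;> simp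
  | succ m ih =>
    have h0 : (0 : ℝ) ≤ m := Nat.cast_nonneg m
    have h4 : (0 : ℝ) < (m : ℝ) + 1 := by positivity
    have h1 := abs_le.1 (ih k)
    have h2 := abs_le.1 (sz_sh zero_le_one k fun j _ => ih j)
    have h5 := mul_le_mul_of_nonneg_left h1.1 h0
    have h6 := mul_le_mul_of_nonneg_left h1.2 h0
    simp only [bc]
    rw [abs_div, abs_of_pos h4, div_le_iff₀ h4, abs_le]
    constructor <;> linarith

theorem sz_fc (e : ℝ) (g : ℕ → ℝ) (C0 : ℝ) (R : ℕ) (he : |e| ≤ C0) (hg : ∀ k < R, |g k| ≤ C0)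
    (m k : ℕ) (hk : k < R) : |fc e g m k| ≤ C0 * (3 * m + 1) := by
  have hC : 0 ≤ C0 := (abs_nonneg _).trans he
  induction m generalizing k with
  | zero => simpa [fc] using hg k hk
  | succ m ih =>
    have h0 : (0 : ℝ) ≤ m := Nat.cast_nonneg m
    have h4 : (0 : ℝ) < (m : ℝ) + 1 := by positivity
    have h1 := abs_le.1 (ih k hk)
    have h2 := abs_le.1 (sz_sh (B := C0 * (3 * m + 1)) (by positivity) k
      fun j hj => ih j (hj.trans hk))
    have h5 := mul_le_mul_of_nonneg_left h1.1 h0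
    have h6 := mul_le_mul_of_nonneg_left h1.2 h0
    have h7 : |e * bc (m + 1) k| ≤ C0 := by
      rw [abs_mul]
      exact (mul_le_of_le_one_right (abs_nonneg _) (sz_bc _ _)).trans he
    have h8 := abs_le.1 h7
    have h9 := abs_le.1 he
    have h10 : 0 ≤ C0 * m := by positivity
    rw [fc, abs_div, abs_of_pos h4, div_le_iff₀ h4, abs_le]
    split_ifs <;> constructor <;> push_cast <;> linarith

theorem sz_pa {F : ℕ → ℝ} {B : ℝ} {M : ℕ} (h : ∀ j ≤ M, |F j| ≤ B) (t m : ℕ) (hm : m ≤ M) :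
    |pa F t m| ≤ 2 ^ t * B := by
  have hB : 0 ≤ B := (abs_nonneg _).trans (h 0 (Nat.zero_le _))
  induction t generalizing m with
  | zero => simpa [pa] using h m hm
  | succ t ih =>
    have h1 := ih m hm
    have h2 := sz_sh (B := 2 ^ t * B) (by positivity) m fun j hj => ih j (hj.le.trans hm)
    have h3 := abs_add_le (pa F t m) (sh (pa F t) m)
    rw [pa, pow_succ]
    linarith

theorem sz_ent (G : ℕ → ℕ → ℝ) (B : ℝ) (d i m v ν : ℕ) (h : ∀ j ≤ m, |G j (i + v)| ≤ B) :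
    |ent G d i m v ν| ≤ 2 ^ (i + v) * (d : ℝ) ^ v * 2 ^ (d * ν) * B := by
  have h1 := sz_pa (F := fun m' => G m' (i + v)) h (d * ν) m le_rfl
  have h2 : ((i + v).choose i : ℝ) ≤ 2 ^ (i + v) := by
    exact_mod_cast Nat.choose_le_two_pow (i + v) i
  rw [ent, abs_mul, abs_of_nonneg (by positivity), mul_assoc (2 ^ (i + v) * (d : ℝ) ^ v)]
  exact mul_le_mul (mul_le_mul_of_nonneg_right h2 (by positivity)) h1 (abs_nonneg _)
    (by positivity)

theorem ent_size (e : ℝ) (g : ℕ → ℝ) (C0 : ℝ) (R : ℕ) (he : |e| ≤ C0) (hg : ∀ k < R, |g k| ≤ C0)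
    (d i m v ν : ℕ) (hR : i + v < R) :
    |ent (fc e g) d i m v ν| ≤ 2 ^ (i + v) * (d : ℝ) ^ v * 2 ^ (d * ν) * (C0 * (3 * m + 1)) ∧
      |e * ent bc d i m v ν| ≤ 2 ^ (i + v) * (d : ℝ) ^ v * 2 ^ (d * ν) * (C0 * (3 * m + 1)) := by
  have hC : 0 ≤ C0 := (abs_nonneg _).trans he
  have h0 : (0 : ℝ) ≤ m := Nat.cast_nonneg m
  refine ⟨sz_ent _ _ d i m v ν fun j hj => (sz_fc e g C0 R he hg j _ hR).trans ?_, ?_⟩
  · have : (j : ℝ) ≤ m := by exact_mod_cast hj
    exact mul_le_mul_of_nonneg_left (by linarith) hC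
  · have h1 := sz_ent bc 1 d i m v ν fun j _ => sz_bc j _
    have h2 : |e| ≤ C0 * (3 * m + 1) := he.trans (le_mul_of_one_le_right hC (by linarith))
    rw [mul_one] at h1
    rw [abs_mul, mul_comm]
    exact mul_le_mul h1 h2 (abs_nonneg _) (by positivity)

theorem sz_sh_sum {κ : Type} [Fintype κ] (θ : κ → ℝ) (F : κ → ℕ → ℝ) (F0 : ℕ → ℝ) (k : ℕ)
    (h : ∀ j < k, ∑ l, θ l * F l j = F0 j) : ∑ l, θ l * sh (F l) k = sh F0 k := by
  cases k with
  | zero => simp [sh]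
  | succ k => exact h k (Nat.lt_succ_self k)

theorem sz_fc_sum {κ : Type} [Fintype κ] (θ e : κ → ℝ) (g : κ → ℕ → ℝ) (g0 : ℕ → ℝ) (R : ℕ)
    (he : ∑ l, θ l * e l = 1) (hg : ∀ k < R, ∑ l, θ l * g l k = g0 k) (m k : ℕ) (hk : k < R) :
    ∑ l, θ l * fc (e l) (g l) m k = fc 1 g0 m k := by
  induction m generalizing k with
  | zero => exact hg k hk
  | succ m ih =>
    have h1 := ih k hk
    have h2 := sz_sh_sum θ (fun l => fc (e l) (g l) m) (fc 1 g0 m) k fun j hj => ih j (hj.trans hk)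
    have h3 : ∀ l, θ l * fc (e l) (g l) (m + 1) k = (θ l * sh (fc (e l) (g l) m) k
        - m * (θ l * fc (e l) (g l) m k) + (θ l * e l) * ((if m = 0 ∧ k = 0 then 1 else 0)
          - 2 * bc (m + 1) k)) / ((m : ℝ) + 1) := fun l => by
      simp only [fc]
      split_ifs <;> ring
    simp only [h3]
    rw [← sum_div, sum_add_distrib, sum_sub_distrib, ← mul_sum, ← sum_mul, h1, h2, he, fc]
    ring

theorem sz_pa_sum {κ : Type} [Fintype κ] (θ : κ → ℝ) (F : κ → ℕ → ℝ) (F0 : ℕ → ℝ)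
    (h : ∀ j, ∑ l, θ l * F l j = F0 j) (t m : ℕ) : ∑ l, θ l * pa (F l) t m = pa F0 t m := by
  induction t generalizing m with
  | zero => exact h m
  | succ t ih =>
    simp only [pa, mul_add]
    rw [sum_add_distrib, ih m, sz_sh_sum θ (fun l => pa (F l) t) (pa F0 t) m fun j _ => ih j]

theorem ent_sum {κ : Type} [Fintype κ] (θ e : κ → ℝ) (g : κ → ℕ → ℝ) (g0 : ℕ → ℝ) (R : ℕ)
    (he : ∑ l, θ l * e l = 1) (hg : ∀ k < R, ∑ l, θ l * g l k = g0 k) (d i m v ν : ℕ)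
    (hR : i + v < R) : ∑ l, θ l * ent (fc (e l) (g l)) d i m v ν = ent (fc 1 g0) d i m v ν := by
  simp only [ent]
  rw [← sz_pa_sum θ (fun l m' => fc (e l) (g l) m' (i + v)) _
    (fun j => sz_fc_sum θ e g g0 R he hg j _ hR), mul_sum]
  exact sum_congr rfl fun l _ => by ring

end ZDil

end

-- part DF
section

namespace ZDil

open Finset Polynomial ZOdd

theorem df_ne {z : ℂ} (hz : 0 < z.re) (m : ℕ) : (m : ℂ) + z ≠ 0 := fun h => by
  have h1 := congrArg Complex.re h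
  rw [Complex.add_re, Complex.natCast_re, Complex.zero_re] at h1
  have h2 : (0 : ℝ) ≤ m := Nat.cast_nonneg m
  linarith

theorem df_step {z : ℂ} (hz : 0 < z.re) : Zs 1 (z + 1) = Zs 1 z + 1 / z := by
  have h := diff_Zs (df_ne hz) (le_refl 1)
  rw [pow_one, pow_one] at h
  linear_combination h

theorem df_term (ε R : ℝ) (hε : 0 < ε) (hε1 : ε ≤ 1) (m : ℕ) (z : ℂ) (h1 : ε < z.re)
    (h2 : ‖z‖ < R) : ‖1 / ((m : ℂ) + 1) ^ 1 + (-1) ^ 1 / ((m : ℂ) + z) ^ 1‖
      ≤ (R + 1) / ε * (1 / ((m : ℝ) + 1) ^ 2) := by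
  have hm : (0 : ℝ) ≤ m := Nat.cast_nonneg m
  have hne := df_ne (hε.trans h1) m
  have hn0 : (m : ℂ) + 1 ≠ 0 := Nat.cast_add_one_ne_zero m
  have he : 1 / ((m : ℂ) + 1) ^ 1 + (-1) ^ 1 / ((m : ℂ) + z) ^ 1
      = (z - 1) / (((m : ℂ) + 1) * ((m : ℂ) + z)) := by
    field_simp
    ring
  have hn1 : ‖(m : ℂ) + 1‖ = (m : ℝ) + 1 := by
    rw [← Nat.cast_succ, Complex.norm_natCast, Nat.cast_succ]
  have hlow : ε * ((m : ℝ) + 1) ≤ ‖(m : ℂ) + z‖ := by
    have h3 := Complex.re_le_norm ((m : ℂ) + z)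
    rw [Complex.add_re, Complex.natCast_re] at h3
    have h4 : ε * m ≤ m := mul_le_of_le_one_left hm hε1
    linarith
  have hup : ‖z - 1‖ ≤ R + 1 := by
    have h3 := norm_sub_le z 1
    rw [norm_one] at h3
    linarith
  have hR : 0 ≤ R + 1 := (norm_nonneg _).trans hup
  rw [he, norm_div, norm_mul, hn1]
  calc ‖z - 1‖ / (((m : ℝ) + 1) * ‖(m : ℂ) + z‖)
      ≤ (R + 1) / (((m : ℝ) + 1) * (ε * ((m : ℝ) + 1))) := by gcongr
    _ = _ := by field_simp

theorem Zs_diffOn : DifferentiableOn ℂ (Zs 1) {z | 0 < z.re} := by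
  intro z hz
  have hz' : 0 < z.re := hz
  have hε : 0 < min (z.re / 2) 1 := lt_min (by linarith) one_pos
  have ho : IsOpen ({w : ℂ | min (z.re / 2) 1 < w.re} ∩ Metric.ball 0 (‖z‖ + 1)) :=
    (isOpen_lt continuous_const Complex.continuous_re).inter Metric.isOpen_ball
  have hs : Summable fun m : ℕ => (‖z‖ + 1 + 1) / min (z.re / 2) 1 * (1 / ((m : ℝ) + 1) ^ 2) := by
    refine Summable.mul_left _ ?_
    have h := (summable_nat_add_iff 1).2 (Real.summable_one_div_nat_pow.2 one_lt_two)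
    simpa only [Nat.cast_succ] using h
  have hd := Complex.differentiableOn_tsum_of_summable_norm
    (F := fun (m : ℕ) (w : ℂ) => 1 / ((m : ℂ) + 1) ^ 1 + (-1) ^ 1 / ((m : ℂ) + w) ^ 1) hs
    (fun m => (differentiableOn_const _).add ((differentiableOn_const _).div
      (((differentiableOn_const _).add differentiableOn_id).pow 1)
      fun w hw => pow_ne_zero 1 (df_ne (hε.trans hw.1) m))) ho
    fun m w hw => df_term _ _ hε (min_le_right _ _) m w hw.1 (mem_ball_zero_iff.1 hw.2)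
  refine (hd.differentiableAt (ho.mem_nhds ⟨?_, ?_⟩)).differentiableWithinAt
  · exact (min_le_left _ _).trans_lt (half_lt_self hz')
  · exact mem_ball_zero_iff.2 (by linarith)

theorem bn_diff (m : ℕ) : Differentiable ℂ (bn m) ∧ Differentiable ℂ (bd m) := by
  induction m with
  | zero => exact ⟨differentiable_const _, differentiable_const _⟩
  | succ m ih =>
    exact ⟨((differentiable_id.sub_const _).mul ih.1).div_const _,
      (((differentiable_id.sub_const _).mul ih.2).add ih.1).div_const _⟩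

theorem fm_diffOn (m : ℕ) : DifferentiableOn ℂ (fm m) {z | -1 < z.re ∧ z.re < m} := by
  have h1 : DifferentiableOn ℂ (fun z : ℂ => Zs 1 (z + 1)) {z | -1 < z.re ∧ z.re < m} :=
    Zs_diffOn.comp (differentiableOn_id.add_const 1) fun z hz => by
      have h := hz.1
      show 0 < (z + 1).re
      rw [Complex.add_re, Complex.one_re]
      linarith
  have h2 : DifferentiableOn ℂ (fun z : ℂ => Zs 1 ((m : ℂ) - z)) {z | -1 < z.re ∧ z.re < m} :=
    Zs_diffOn.comp (differentiableOn_id.const_sub (m : ℂ)) fun z hz => by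
      have h := hz.2
      show 0 < ((m : ℂ) - z).re
      rw [Complex.sub_re, Complex.natCast_re]
      linarith
  exact ((bn_diff m).1.differentiableOn.mul ((h1.add h2).sub_const _)).add
    (bn_diff m).2.differentiableOn

theorem df_pascal (m : ℕ) (z : ℂ) :
    bn (m + 1) (z + 1) = bn (m + 1) z + bn m z ∧ bd (m + 1) (z + 1) = bd (m + 1) z + bd m z := by
  induction m with
  | zero => constructor <;> simp only [bn, bd] <;> push_cast <;> ring
  | succ m ih =>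
    have h0 : (m : ℂ) + 1 ≠ 0 := Nat.cast_add_one_ne_zero m
    have h1 : ((m + 1 : ℕ) : ℂ) + 1 ≠ 0 := Nat.cast_add_one_ne_zero (m + 1)
    have e1 : bn (m + 1 + 1) (z + 1)
      = (z + 1 - (m + 1 : ℕ)) * bn (m + 1) (z + 1) / (((m + 1 : ℕ) : ℂ) + 1) := rfl
    have e2 : bd (m + 1 + 1) (z + 1) = ((z + 1 - (m + 1 : ℕ)) * bd (m + 1) (z + 1)
      + bn (m + 1) (z + 1)) / (((m + 1 : ℕ) : ℂ) + 1) := rfl
    rw [e1, e2, ih.1, ih.2]
    simp only [bn, bd]
    push_cast at h1 ⊢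
    constructor <;> field_simp <;> ring

theorem df_right (m : ℕ) (z : ℂ) (h2 : z.re < m) : (m : ℂ) - z ≠ 0 ∧
    Zs 1 (((m + 1 : ℕ) : ℂ) - z) = Zs 1 ((m : ℂ) - z) + 1 / ((m : ℂ) - z) := by
  have h : 0 < ((m : ℂ) - z).re := by
    rw [Complex.sub_re, Complex.natCast_re]
    linarith
  refine ⟨fun h0 => ?_, ?_⟩
  · rw [h0, Complex.zero_re] at h
    exact lt_irrefl _ h
  · rw [← df_step h, Nat.cast_succ, add_sub_right_comm]

theorem fm_pascal (m : ℕ) (z : ℂ) (h1 : -1 < z.re) (h2 : z.re < m) :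
    fm (m + 1) (z + 1) = fm (m + 1) z + fm m z := by
  have h0 : (m : ℂ) + 1 ≠ 0 := Nat.cast_add_one_ne_zero m
  have h : 0 < (z + 1).re := by
    rw [Complex.add_re, Complex.one_re]
    linarith
  have h3 : z + 1 ≠ 0 := fun h0 => by
    rw [h0, Complex.zero_re] at h
    exact lt_irrefl _ h
  obtain ⟨h4, h5⟩ := df_right m z h2
  have h6 : ((m + 1 : ℕ) : ℂ) - (z + 1) = (m : ℂ) - z := by
    rw [Nat.cast_succ, add_sub_add_right_eq_sub]
  simp only [fm]
  rw [(df_pascal m z).1, (df_pascal m z).2, df_step h, h5, h6, sum_range_succ]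
  simp only [bn]
  field_simp
  ring

theorem fm_rec (m : ℕ) (z : ℂ) (_h1 : -1 < z.re) (h2 : z.re < m) :
    fm (m + 1) z = ((z - m) * fm m z - 2 * bn (m + 1) z) / ((m : ℂ) + 1) := by
  have h0 : (m : ℂ) + 1 ≠ 0 := Nat.cast_add_one_ne_zero m
  obtain ⟨h4, h5⟩ := df_right m z h2
  simp only [fm]
  rw [h5, sum_range_succ]
  simp only [bn, bd]
  field_simp
  ring

end ZDil

end

-- part GZ
section

namespace ZDil

open Finset Polynomial ZOdd

theorem gz_iter (k : ℕ) : ∀ z ∈ Metric.ball (0 : ℂ) (1 / 2),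
    iteratedDeriv k (fun z => Zs 1 (z + 1) + Zs 1 (1 - z)) z = (k.factorial : ℂ) *
      (Zs (k + 1) (z + 1) + (-1) ^ k * Zs (k + 1) (1 - z) -
        if k = 0 then 0 else (1 + (-1) ^ k) * (zr (k + 1) : ℂ)) := by
  induction k with
  | zero => intro z _; simp
  | succ k ih =>
    intro z hz
    have h1 : z + 1 ∈ Metric.ball (1 : ℂ) (1 / 2) := by
      simpa [Metric.mem_ball, dist_eq_norm] using hz
    have h2 : 1 - z ∈ Metric.ball (1 : ℂ) (1 / 2) := by
      simpa [Metric.mem_ball, dist_eq_norm] using hz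
    have d1 := (wt_deriv (k + 1) (by omega) h1).comp_add_const z 1
    have d2 := (wt_deriv (k + 1) (by omega) h2).comp_const_sub 1 z
    have d3 := ((d1.add (d2.const_mul ((-1 : ℂ) ^ k))).sub_const
      (if k = 0 then 0 else (1 + (-1) ^ k) * (zr (k + 1) : ℂ))).const_mul (k.factorial : ℂ)
    have he : iteratedDeriv k (fun z => Zs 1 (z + 1) + Zs 1 (1 - z)) =ᶠ[nhds z] fun z =>
        (k.factorial : ℂ) * (Zs (k + 1) (z + 1) + (-1) ^ k * Zs (k + 1) (1 - z) -
          if k = 0 then 0 else (1 + (-1) ^ k) * (zr (k + 1) : ℂ)) :=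
      Filter.eventually_of_mem (Metric.isOpen_ball.mem_nhds hz) ih
    rw [iteratedDeriv_succ, (d3.congr_of_eventuallyEq he).deriv, if_neg k.succ_ne_zero,
      Nat.factorial_succ]
    push_cast
    ring

theorem tc_gz (k : ℕ) : tc (fun z => Zs 1 (z + 1) + Zs 1 (1 - z)) 0 k = (gz k : ℂ) := by
  have h : Zs (k + 1) 1 = (1 + (-1) ^ (k + 1)) * (zr (k + 1) : ℂ) := by
    rw [wt_zrC, ← tsum_mul_left, Zs]
    exact tsum_congr fun n => by ring
  have hf : (k.factorial : ℂ) ≠ 0 := by exact_mod_cast k.factorial_ne_zero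
  rw [tc, gz_iter k 0 (by simp), mul_div_cancel_left₀ _ hf, zero_add, sub_zero, h, gz]
  rcases Nat.even_or_odd k with hk | hk
  · rcases Nat.eq_zero_or_pos k with rfl | h0
    · simp
    · have h2 : 2 ≤ k := by obtain ⟨j, rfl⟩ := hk; omega
      rw [if_neg h0.ne', if_pos ⟨hk, h2⟩, pow_succ, hk.neg_one_pow]
      push_cast
      ring
  · rw [if_neg (fun h0 => by simp [h0] at hk : k ≠ 0),
      if_neg (fun h => Nat.not_even_iff_odd.2 hk h.1), pow_succ, hk.neg_one_pow]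
    push_cast
    ring

end ZDil

end

-- part JB
section

namespace ZDil

open Finset Polynomial ZOdd

theorem jb_mul (m : ℕ) (z : ℂ) : ((m : ℂ) + 1) * bn (m + 1) (z + 1) = (z + 1) * bn m z := by
  induction m with
  | zero => simp [bn]
  | succ m ih =>
    have h1 : ((m : ℂ) + 1) ≠ 0 := by exact_mod_cast m.succ_ne_zero
    have h2 : (((m + 1 : ℕ) : ℂ) + 1) ≠ 0 := by exact_mod_cast (m + 1).succ_ne_zero
    have e1 : bn (m + 1 + 1) (z + 1)
        = (z + 1 - ((m + 1 : ℕ) : ℂ)) * bn (m + 1) (z + 1) / (((m + 1 : ℕ) : ℂ) + 1) := rfl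
    have e2 : bn (m + 1) z = (z - m) * bn m z / ((m : ℂ) + 1) := rfl
    have e3 : bn (m + 1) (z + 1) = (z + 1) * bn m z / ((m : ℂ) + 1) := by
      rw [eq_div_iff h1, mul_comm, ih]
    rw [e1, mul_div_cancel₀ _ h2, e3, e2]
    push_cast
    ring

theorem jb_pascal (m : ℕ) (z : ℂ) : bn (m + 1) (z + 1) = bn (m + 1) z + bn m z := by
  have h1 : ((m : ℂ) + 1) ≠ 0 := by exact_mod_cast m.succ_ne_zero
  have e2 : bn (m + 1) z = (z - m) * bn m z / ((m : ℂ) + 1) := rfl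
  apply mul_left_cancel₀ h1
  rw [jb_mul, mul_add, e2, mul_div_cancel₀ _ h1]
  ring

theorem jb_one (x : ℂ) (k : ℕ) : tc (bn 0) x k = (bc 0 k : ℝ) := by
  have e : bn 0 = fun _ => (1 : ℂ) := rfl
  have e' : bc 0 k = if k = 0 then 1 else 0 := rfl
  rw [e, e', tc, iteratedDeriv_const]
  by_cases hk : k = 0
  · simp [hk]
  · simp [hk]

theorem jb_zero (m k : ℕ) : tc (bn m) 0 k = (bc m k : ℝ) := by
  induction m generalizing k with
  | zero => exact jb_one 0 k
  | succ m ih =>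
    have hd := (bn_diff m).1
    have e : bn (m + 1) = fun z => (z * bn m z - (m : ℂ) * bn m z) / ((m : ℂ) + 1) := by
      funext z
      have e2 : bn (m + 1) z = (z - m) * bn m z / ((m : ℂ) + 1) := rfl
      rw [e2, sub_mul]
    have e' : bc (m + 1) k = (sh (bc m) k - m * bc m k) / ((m : ℝ) + 1) := rfl
    have hz : Differentiable ℂ fun z => z * bn m z := differentiable_id.fun_mul hd
    rw [e, rec_tc_div, rec_tc_sub _ _ hz (hd.const_mul _),
      rec_tc_mul_real _ hd 0 (bc m) ih k, rec_tc_const_mul, ih k, e']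
    push_cast
    ring

theorem tc_bn (t m k : ℕ) : tc (bn m) t k = (pa (fun m' => bc m' k) t m : ℝ) := by
  induction t generalizing m with
  | zero => simpa [pa] using jb_zero m k
  | succ t ih =>
    have e : pa (fun m' => bc m' k) (t + 1) m
        = pa (fun m' => bc m' k) t m + sh (pa (fun m' => bc m' k) t) m := rfl
    rw [e]
    cases m with
    | zero =>
      have h := ih 0
      rw [jb_one] at h
      rw [jb_one, h]
      simp [sh]
    | succ m =>
      have e1 : ((t + 1 : ℕ) : ℂ) = (t : ℂ) + 1 := by push_cast; rfl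
      rw [e1, ← rec_tc_shift, funext (jb_pascal m),
        rec_tc_add _ _ (bn_diff (m + 1)).1 (bn_diff m).1, ih, ih]
      simp [sh]

end ZDil

end

-- part JT
section

namespace ZDil

open Finset Polynomial ZOdd Filter Topology

theorem jt_add {f g : ℂ → ℂ} {x : ℂ} (hf : AnalyticAt ℂ f x) (hg : AnalyticAt ℂ g x) (k : ℕ) :
    tc (fun z => f z + g z) x k = tc f x k + tc g x k := by
  simp only [tc]
  rw [iteratedDeriv_fun_add hf.contDiffAt hg.contDiffAt, add_div]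

theorem jt_congr {f g : ℂ → ℂ} {x : ℂ} (h : f =ᶠ[𝓝 x] g) (k : ℕ) : tc f x k = tc g x k := by
  simp only [tc, h.iteratedDeriv_eq k]

theorem jt_mul {f : ℂ → ℂ} (hf : AnalyticAt ℂ f 0) (u : ℕ → ℝ) (hu : ∀ k, tc f 0 k = (u k : ℂ))
    (k : ℕ) : tc (fun z => z * f z) 0 k = (sh u k : ℝ) := by
  cases k with
  | zero => simp [tc, sh]
  | succ k =>
    have h1 : ((k.factorial : ℕ) : ℂ) ≠ 0 := by exact_mod_cast k.factorial_ne_zero
    have h2 : ((k : ℂ) + 1) ≠ 0 := by exact_mod_cast k.succ_ne_zero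
    have h3 : (sh u (k + 1) : ℂ) = tc f 0 k := by simp [sh, hu]
    rw [h3, tc, tc, iteratedDeriv_fun_mul (f := fun z => z) contDiffAt_id hf.contDiffAt,
      sum_eq_single 1]
    · simp only [iteratedDeriv_fun_id, Nat.factorial_succ]
      simp
      field_simp
    · intro i _ hi
      simp [iteratedDeriv_fun_id, hi]
    · simp

theorem jt_nhds {t m : ℕ} (h : t < m) : {z : ℂ | -1 < z.re ∧ z.re < m} ∈ 𝓝 (t : ℂ) :=
  ((isOpen_lt continuous_const Complex.continuous_re).inter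
    (isOpen_lt Complex.continuous_re continuous_const)).mem_nhds
    ⟨by simpa using (show (-1 : ℝ) < t by linarith [Nat.cast_nonneg (α := ℝ) t]), by simpa using h⟩

theorem jt_an {t m : ℕ} (h : t < m) : AnalyticAt ℂ (fm m) t := (fm_diffOn m).analyticAt (jt_nhds h)

theorem jt_zero (m k : ℕ) : tc (fm (m + 1)) 0 k = (fc 1 gz (m + 1) k : ℝ) := by
  have hb : ∀ j, AnalyticAt ℂ (bn j) 0 := fun j => (bn_diff j).1.analyticAt 0
  have tb : ∀ j k, tc (bn j) 0 k = (bc j k : ℝ) := fun j k => by simpa [pa] using tc_bn 0 j k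
  induction m generalizing k with
  | zero =>
    have hz : AnalyticAt ℂ (Zs 1) 1 := Zs_diffOn.analyticAt
      ((isOpen_lt continuous_const Complex.continuous_re).mem_nhds (by simp))
    have hG : AnalyticAt ℂ (fun z => Zs 1 (z + 1) + Zs 1 (1 - z)) 0 :=
      (hz.comp_of_eq (f := fun z => z + 1) (by fun_prop) (by simp)).add
        (hz.comp_of_eq (f := fun z => 1 - z) (by fun_prop) (by simp))
    have e : fm (0 + 1) = fun z => z * (Zs 1 (z + 1) + Zs 1 (1 - z))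
        + ((-2) * bn 1 z + bn 0 z) := by
      funext z
      simp [fm, bn, bd]
      ring
    have := hb 0
    have := hb 1
    rw [e, jt_add (by fun_prop) (by fun_prop), jt_add (by fun_prop) (by fun_prop),
      jt_mul hG gz tc_gz, rec_tc_const_mul, tb, tb]
    simp only [fc, show bc 0 k = if k = 0 then 1 else 0 from rfl]
    split_ifs <;> simp_all <;> ring
  | succ m ih =>
    have ha : AnalyticAt ℂ (fm (m + 1)) 0 := by simpa using jt_an (Nat.succ_pos m)
    have e : fm (m + 1 + 1) =ᶠ[𝓝 0] fun z => (z * fm (m + 1) z + (-((m + 1 : ℕ) : ℂ)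
        * fm (m + 1) z + (-2) * bn (m + 1 + 1) z)) / (((m + 1 : ℕ) : ℂ) + 1) := by
      filter_upwards [show _ ∈ 𝓝 (0 : ℂ) by simpa using jt_nhds (Nat.succ_pos m)] with z hz
      rw [fm_rec _ z hz.1 (by simpa using hz.2)]
      ring
    have := hb (m + 1 + 1)
    rw [jt_congr e, rec_tc_div, jt_add (by fun_prop) (by fun_prop),
      jt_add (by fun_prop) (by fun_prop), jt_mul ha _ ih,
      rec_tc_const_mul, rec_tc_const_mul, tb, ih, fc.eq_2 1 gz (m + 1)]
    simp only [Nat.succ_ne_zero, false_and, if_false]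
    push_cast
    ring

theorem tc_fm (t m k : ℕ) (h : t < m) :
    tc (fm m) t k = (pa (fun m' => fc 1 gz m' k) t m : ℝ) := by
  induction t generalizing m with
  | zero =>
    obtain ⟨m, rfl⟩ := Nat.exists_eq_succ_of_ne_zero h.ne'
    simpa [pa] using jt_zero m k
  | succ t ih =>
    obtain ⟨m, rfl⟩ := Nat.exists_eq_succ_of_ne_zero (by omega : m ≠ 0)
    have h1 : t < m := by omega
    have e : (fun z => fm (m + 1) (z + 1)) =ᶠ[𝓝 (t : ℂ)] fun z => fm (m + 1) z + fm m z := by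
      filter_upwards [jt_nhds h1] with z hz using fm_pascal m z hz.1 hz.2
    rw [Nat.cast_succ, ← rec_tc_shift, jt_congr e, jt_add (jt_an (by omega)) (jt_an h1),
      ih _ (by omega), ih _ h1]
    simp [pa, sh]

end ZDil

end

-- part BD
section

namespace ZDil

open Finset Polynomial ZOdd

theorem bd_choose (L : ℕ) (z : ℂ) (hz : ‖z‖ ≤ L) (m : ℕ) :
    ‖bn m z‖ ≤ (L + m).choose m ∧ ‖bd m z‖ ≤ (L + m).choose m := by
  induction m with
  | zero => simp [bn, bd]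
  | succ m ih =>
    have k : ‖(m : ℂ) + 1‖ = m + 1 := by exact_mod_cast Complex.norm_natCast (m + 1)
    have c : ((L : ℝ) + m + 1) * (L + m).choose m = (L + (m + 1)).choose (m + 1) * (m + 1) := by
      exact_mod_cast Nat.add_one_mul_choose_eq (L + m) m
    have t : ‖z - (m : ℂ)‖ ≤ L + m :=
      (norm_sub_le _ _).trans (by rw [Complex.norm_natCast]; linarith)
    have p : (0 : ℝ) ≤ (L + m).choose m := by positivity
    have a := mul_le_mul t ih.1 (norm_nonneg _) (by positivity)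
    have b := mul_le_mul t ih.2 (norm_nonneg _) (by positivity)
    have s := norm_add_le ((z - m) * bd m z) (bn m z)
    simp only [bn, bd]
    rw [norm_div, norm_div, k, div_le_iff₀ (by positivity), div_le_iff₀ (by positivity), ← c]
    rw [norm_mul] at s ⊢
    exact ⟨by linarith, by linarith [ih.1]⟩

theorem bd_exp (m L : ℕ) (hm : m ≤ L) : (((L + m).choose m : ℕ) : ℝ) ≤ Real.exp (2 * L) := by
  have a : (L + m).choose m ≤ 2 ^ (2 * L) :=
    (Nat.choose_le_two_pow _ _).trans (Nat.pow_le_pow_right two_pos (by omega))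
  calc _ ≤ (2 : ℝ) ^ (2 * L) := by exact_mod_cast a
    _ ≤ Real.exp 1 ^ (2 * L) := by gcongr; linarith [Real.add_one_le_exp 1]
    _ = _ := by rw [← Real.exp_nat_mul]; push_cast; ring_nf

theorem bd_Zs (L : ℝ) (hL : 1 ≤ L) (z : ℂ) (hz : ‖z‖ ≤ 2 * L) (h : 1 ≤ z.re) :
    ‖Zs 1 z‖ ≤ 16 * L ^ 2 := by
  refine (bound_Zs (K := 2 * L) (by linarith) hz (fun m => ?_) le_rfl).trans_eq (by ring)
  refine (div_le_self (by positivity) (by linarith)).trans (le_trans ?_ (Complex.re_le_norm _))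
  simpa using h

theorem fm_bound (m L : ℕ) (hm : m ≤ L) (z : ℂ) (h1 : 0 ≤ z.re) (h2 : z.re + 1 ≤ m)
    (hz : ‖z‖ ≤ L) : ‖fm m z‖ ≤ Real.exp (7 * L) := by
  have mL : (m : ℝ) ≤ L := by exact_mod_cast hm
  have L1 : (1 : ℝ) ≤ L := by linarith
  have a := bd_Zs L L1 (z + 1) ((norm_add_le _ _).trans (by rw [norm_one]; linarith))
    (by simpa using h1)
  have b := bd_Zs L L1 (m - z)
    ((norm_sub_le _ _).trans (by rw [Complex.norm_natCast]; linarith)) (by simp; linarith)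
  have c : ‖∑ j ∈ range m, 1 / ((j : ℂ) + 1)‖ ≤ m := by
    refine (norm_sum_le_of_le _ (n := fun _ => 1) fun j _ => ?_).trans (by simp)
    rw [norm_div, norm_one, show ‖(j : ℂ) + 1‖ = j + 1 by
      exact_mod_cast Complex.norm_natCast (j + 1)]
    exact (div_le_one (by positivity)).2 (by simp)
  have d : ‖Zs 1 (z + 1) + Zs 1 ((m : ℂ) - z) - 2 * ∑ j ∈ range m, 1 / ((j : ℂ) + 1)‖
      ≤ 32 * L ^ 2 + 2 * L := by
    refine (norm_sub_le _ _).trans ?_
    rw [norm_mul, Complex.norm_ofNat]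
    linarith [norm_add_le (Zs 1 (z + 1)) (Zs 1 ((m : ℂ) - z))]
  obtain ⟨e1, e2⟩ := bd_choose L z hz m
  have e := bd_exp m L hm
  have q := Real.quadratic_le_exp_of_nonneg (x := 5 / 2 * L) (by positivity)
  have r : 32 * (L : ℝ) ^ 2 + 2 * L + 1 ≤ Real.exp (5 / 2 * L) ^ 2 := by
    refine le_trans ?_ (pow_le_pow_left₀ (by positivity) q 2)
    have u : (L : ℝ) ^ 2 ≤ L ^ 3 := pow_le_pow_right₀ L1 (by norm_num)
    have v : (L : ℝ) ^ 2 ≤ L ^ 4 := pow_le_pow_right₀ L1 (by norm_num)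
    linarith [sq_nonneg (L : ℝ)]
  calc _ ≤ Real.exp (2 * L) * (32 * L ^ 2 + 2 * L) + Real.exp (2 * L) := by
        refine (norm_add_le _ _).trans (add_le_add ?_ (e2.trans e))
        rw [norm_mul]
        exact mul_le_mul (e1.trans e) d (norm_nonneg _) (by positivity)
    _ = Real.exp (2 * L) * (32 * L ^ 2 + 2 * L + 1) := by ring
    _ ≤ Real.exp (2 * L) * Real.exp (5 / 2 * L) ^ 2 := by gcongr
    _ = _ := by rw [sq, ← Real.exp_add, ← Real.exp_add]; ring_nf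

theorem bn_bound (m L : ℕ) (hm : m ≤ L) (z : ℂ) (hz : ‖z‖ ≤ L) :
    ‖bn m z‖ ≤ Real.exp (7 * L) :=
  ((bd_choose L z hz m).1.trans (bd_exp m L hm)).trans
    (Real.exp_le_exp.2 (by linarith [Nat.cast_nonneg (α := ℝ) L]))

end ZDil

end

-- part SF
section

namespace ZDil

open Finset Polynomial ZOdd

theorem sf_tc {f : ℂ → ℂ} {U : Set ℂ} (hf : DifferentiableOn ℂ f U) (c : ℂ) {R C : ℝ}
    (hR : 0 < R) (hU : Metric.closedBall c R ⊆ U)
    (hC : ∀ z ∈ Metric.sphere c R, ‖f z‖ ≤ C) (n : ℕ) : ‖tc f c n‖ ≤ C / R ^ n := by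
  have h := Complex.norm_iteratedDeriv_le_of_forall_mem_sphere_norm_le n hR
    (hf.diffContOnCl_ball hU) hC
  have h1 : (0 : ℝ) < n.factorial := by exact_mod_cast n.factorial_pos
  rw [tc, norm_div, Complex.norm_natCast, div_le_iff₀ h1]
  exact h.trans_eq (by ring)

theorem sf_tail {f : ℂ → ℂ} {R B X : ℝ} (hf : DifferentiableOn ℂ f (Metric.ball 0 (R + 1)))
    (hX : 1 ≤ X) (hR : 2 * X ≤ R) (hB : ∀ z : ℂ, ‖z‖ = R → ‖f z‖ ≤ B) (T : ℕ) {z : ℂ}
    (hz : ‖z‖ ≤ X) :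
    ‖f z - ∑ τ ∈ range T, tc f 0 τ * z ^ τ‖ ≤ 2 * B * (X / R) ^ T := by
  have hR0 : 0 < R := by linarith
  have ha := sf_tc hf 0 hR0 (Metric.closedBall_subset_ball (lt_add_one R))
    (fun z hz => hB z (by simpa using hz))
  have hB0 : 0 ≤ B := by simpa using (norm_nonneg _).trans (ha 0)
  have h1 : HasSum (fun n => tc f 0 n * z ^ n) (f z) := by
    have e : (fun n => tc f 0 n * z ^ n) = fun n : ℕ =>
        (n.factorial : ℂ)⁻¹ • (z - 0) ^ n • iteratedDeriv n f 0 := by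
      funext n
      rw [tc, sub_zero, smul_eq_mul, smul_eq_mul]
      ring
    rw [e]
    exact Complex.hasSum_taylorSeries_on_ball hf (mem_ball_zero_iff.2 (by linarith))
  have hq : X / R ≤ 1 / 2 := by rw [div_le_div_iff₀ hR0 two_pos]; linarith
  have hq0 : 0 ≤ X / R := by positivity
  refine (((hasSum_nat_add_iff' T).2 h1).norm_le_of_bounded
    (hasSum_geometric_two.mul_left (B * (X / R) ^ T)) fun n => ?_).trans_eq (by ring)
  rw [norm_mul, norm_pow]
  calc ‖tc f 0 (n + T)‖ * ‖z‖ ^ (n + T) ≤ B / R ^ (n + T) * X ^ (n + T) := by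
        gcongr; exact ha _
    _ = B * (X / R) ^ T * (X / R) ^ n := by rw [mul_assoc, ← pow_add, add_comm T, div_pow]; ring
    _ ≤ _ := by gcongr

theorem sf_split {f : ℂ → ℂ} {x : ℂ} (hf : AnalyticAt ℂ f x) (a : ℕ → ℂ) (T : ℕ) (o : ℕ) :
    tc f x o = tc (fun z => f z - ∑ τ ∈ range T, a τ * z ^ τ) x o +
      ∑ τ ∈ range T, a τ * ((τ.choose o : ℂ) * x ^ (τ - o)) := by
  have h0 : ((o.factorial : ℕ) : ℂ) ≠ 0 := by exact_mod_cast o.factorial_ne_zero
  rw [tc, tc, iteratedDeriv_fun_sub hf.contDiffAt (by fun_prop),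
    iteratedDeriv_fun_sum (fun τ _ => by fun_prop), sub_div, sum_div, sub_add, eq_comm,
    sub_eq_self, sub_eq_zero]
  refine sum_congr rfl fun τ _ => ?_
  rw [iteratedDeriv_const_mul_field, iteratedDeriv_pow, Nat.descFactorial_eq_factorial_mul_choose]
  push_cast
  field_simp

theorem small_fun2 (Ψ : ℂ → ℂ) (x0 : ℂ) (R B X : ℝ) (hX : 1 ≤ X) (hR : 2 * X ≤ R)
    (hΨ : DifferentiableOn ℂ Ψ (Metric.ball x0 (R + 1)))
    (hB : ∀ z : ℂ, ‖z‖ = R → ‖Ψ (x0 + z)‖ ≤ B) {κ : Type} (s : Finset κ)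
    (x : κ → ℂ) (o : κ → ℕ) (γ : κ → ℂ) (hx : ∀ k ∈ s, ‖x k‖ + 1 ≤ X) (T : ℕ)
    (hT : ∀ τ < T, ∑ k ∈ s, γ k * (τ.choose (o k) : ℂ) * x k ^ (τ - o k) = 0) :
    ‖∑ k ∈ s, γ k * tc Ψ (x0 + x k) (o k)‖ ≤ (∑ k ∈ s, ‖γ k‖) * (2 * B * (X / R) ^ T) := by
  let f : ℂ → ℂ := fun z => Ψ (x0 + z)
  have hf : DifferentiableOn ℂ f (Metric.ball 0 (R + 1)) :=
    hΨ.comp (differentiable_id.const_add x0).differentiableOn fun z hz => by
      rw [mem_ball_zero_iff] at hz
      simpa [mem_ball_iff_norm] using hz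
  let r : ℂ → ℂ := fun z => f z - ∑ τ ∈ range T, tc f 0 τ * z ^ τ
  have hr : DifferentiableOn ℂ r (Metric.ball 0 (R + 1)) :=
    hf.sub (Differentiable.differentiableOn (by fun_prop))
  have h1 : ∀ k ∈ s, tc Ψ (x0 + x k) (o k) = tc r (x k) (o k) +
      ∑ τ ∈ range T, tc f 0 τ * ((τ.choose (o k) : ℂ) * x k ^ (τ - o k)) := fun k hk => by
    have ha : AnalyticAt ℂ f (x k) := hf.analyticAt
      (Metric.isOpen_ball.mem_nhds (mem_ball_zero_iff.2 (by linarith [hx k hk])))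
    rw [← sf_split ha, tc, tc, iteratedDeriv_comp_const_add]
  have h2 : ∑ k ∈ s, γ k * tc Ψ (x0 + x k) (o k) = ∑ k ∈ s, γ k * tc r (x k) (o k) := by
    rw [sum_congr rfl fun k hk => congrArg (γ k * ·) (h1 k hk)]
    simp only [mul_add, sum_add_distrib, mul_sum]
    rw [sum_comm, add_eq_left]
    refine sum_eq_zero fun τ hτ => ?_
    have h5 := congrArg (tc f 0 τ * ·) (hT τ (mem_range.1 hτ))
    simp only [mul_zero, mul_sum] at h5
    exact (sum_congr rfl fun k _ => by ring).trans h5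
  rw [h2, sum_mul]
  refine norm_sum_le_of_le _ fun k hk => ?_
  rw [norm_mul]
  refine mul_le_mul_of_nonneg_left ?_ (norm_nonneg _)
  have h6 : ∀ z : ℂ, ‖z - x k‖ ≤ 1 → ‖z‖ ≤ X := fun z hz => by
    linarith [norm_le_norm_add_norm_sub' z (x k), hx k hk]
  have h3 := sf_tc hr (x k) one_pos (C := 2 * B * (X / R) ^ T)
    (fun z hz => mem_ball_zero_iff.2 (by linarith [h6 z (mem_closedBall_iff_norm.1 hz)]))
    (fun z hz => sf_tail hf hX hR hB T (h6 z (mem_sphere_iff_norm.1 hz).le)) (o k)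
  rwa [one_pow, div_one] at h3

end ZDil

end

-- part SR
section

namespace ZDil

open Finset Polynomial ZOdd

theorem sr_choose (τ i v d j : ℕ) :
    (i + v).choose i * d ^ v * τ.choose (i + v) * (d * j) ^ (τ - (i + v))
      = τ.choose i * d ^ (τ - i) * ((τ - i).choose v * j ^ (τ - i - v)) := by
  by_cases h : i + v ≤ τ
  · have h1 := Nat.choose_mul (n := τ) (k := i + v) (s := i) (Nat.le_add_right i v)
    rw [Nat.add_sub_cancel_left] at h1
    have h2 : d ^ (τ - i) = d ^ v * d ^ (τ - (i + v)) := by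
      rw [← pow_add]; exact congrArg _ (by omega)
    rw [h2, mul_pow, Nat.sub_sub]
    calc _ = (τ.choose (i + v) * (i + v).choose i)
          * (d ^ v * d ^ (τ - (i + v)) * j ^ (τ - (i + v))) := by ring
      _ = _ := by rw [h1]; ring
  · rw [Nat.choose_eq_zero_of_lt (by omega : τ < i + v)]
    by_cases h' : τ < i
    · rw [Nat.choose_eq_zero_of_lt h']; simp
    · rw [Nat.choose_eq_zero_of_lt (by omega : τ - i < v)]; simp

theorem small_ent (G : ℕ → ℕ → ℝ) (f : ℂ → ℂ) (w n0 T d i m : ℕ) (B : ℝ) (hd : 1 ≤ d) (hn : 1 ≤ n0)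
    (hf : DifferentiableOn ℂ f (Metric.ball ((d * (12 * n0) : ℕ) : ℂ) ((d * (6 * n0) : ℕ) + 1)))
    (hB : ∀ z : ℂ, ‖z‖ = (d * (6 * n0) : ℕ) → ‖f (((d * (12 * n0) : ℕ) : ℂ) + z)‖ ≤ B)
    (hG : ∀ j < n0, ∀ k, tc f ((d * (12 * n0 + j) : ℕ) : ℂ) k
      = (pa (fun m' => G m' k) (d * (12 * n0 + j)) m : ℝ))
    (y : Fin (w + 1) × Fin n0 → ℝ)
    (hy : ∀ τ < T, ∑ q, y q * (τ.choose q.1 : ℝ) * ((q.2 : ℕ) : ℝ) ^ (τ - q.1) = 0) :
    |∑ q, ent G d i m q.1 (12 * n0 + q.2) * y q|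
      ≤ ((w + 1) * n0 * (2 ^ (i + w) * (d : ℝ) ^ w) * (2 * B * (1 / 3) ^ T)) * ‖y‖ := by
  have hd' : (1 : ℝ) ≤ d := by exact_mod_cast hd
  have hdn : 1 ≤ d * n0 := Nat.mul_pos hd hn
  have hdn' : (1 : ℝ) ≤ (d : ℝ) * n0 := by exact_mod_cast hdn
  have hB0 : 0 ≤ B := (norm_nonneg _).trans (hB _ (Complex.norm_natCast _))
  have hR : ((d * (6 * n0) : ℕ) : ℝ) = 6 * ((d : ℝ) * n0) := by push_cast; ring
  let γ : Fin (w + 1) × Fin n0 → ℝ := fun q => ((i + q.1).choose i : ℝ) * (d : ℝ) ^ (q.1 : ℕ) * y q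
  have key := small_fun2 f _ _ B (2 * ((d : ℝ) * n0)) (by linarith) (by rw [hR]; linarith) hf hB
    (univ : Finset (Fin (w + 1) × Fin n0)) (fun q => ((d * q.2 : ℕ) : ℂ)) (fun q => i + q.1)
    (fun q => (γ q : ℂ)) (fun q _ => by
      have h1 : d * (q.2 : ℕ) ≤ d * n0 := Nat.mul_le_mul_left d q.2.2.le
      have h2 : ((d * (q.2 : ℕ) : ℕ) : ℝ) ≤ (d : ℝ) * n0 := by exact_mod_cast h1
      rw [Complex.norm_natCast]; linarith) T (fun τ hτ => by
      have h1 : ∑ q : Fin (w + 1) × Fin n0, γ q * (τ.choose (i + q.1) : ℝ)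
          * ((d * q.2 : ℕ) : ℝ) ^ (τ - (i + q.1)) = 0 := by
        have h2 := hy (τ - i) (by omega)
        rw [← mul_zero ((τ.choose i : ℝ) * (d : ℝ) ^ (τ - i)), ← h2, mul_sum]
        refine sum_congr rfl fun q _ => ?_
        have h3 : ((i + q.1).choose i : ℝ) * (d : ℝ) ^ (q.1 : ℕ) * (τ.choose (i + q.1) : ℝ)
            * ((d * q.2 : ℕ) : ℝ) ^ (τ - (i + q.1)) = (τ.choose i : ℝ) * (d : ℝ) ^ (τ - i)
            * (((τ - i).choose q.1 : ℝ) * ((q.2 : ℕ) : ℝ) ^ (τ - i - q.1)) := by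
          exact_mod_cast sr_choose τ i q.1 d q.2
        simp only [γ]
        linear_combination y q * h3
      exact_mod_cast h1)
  have e1 : (∑ q : Fin (w + 1) × Fin n0, (γ q : ℂ)
      * tc f (((d * (12 * n0) : ℕ) : ℂ) + ((d * q.2 : ℕ) : ℂ)) (i + q.1))
      = ((∑ q : Fin (w + 1) × Fin n0, ent G d i m q.1 (12 * n0 + q.2) * y q : ℝ) : ℂ) := by
    rw [Complex.ofReal_sum]
    refine sum_congr rfl fun q _ => ?_
    rw [← Nat.cast_add, ← mul_add, hG q.2 q.2.2, ← Complex.ofReal_mul]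
    exact congrArg _ (by simp only [γ, ent]; ring)
  have e2 : 2 * ((d : ℝ) * n0) / ((d * (6 * n0) : ℕ) : ℝ) = 1 / 3 := by
    rw [hR, div_eq_div_iff (by linarith) (by norm_num)]; ring
  rw [e1, e2, Complex.norm_real, Real.norm_eq_abs] at key
  have h3 : ∑ q : Fin (w + 1) × Fin n0, ‖(γ q : ℂ)‖
      ≤ (w + 1) * n0 * (2 ^ (i + w) * (d : ℝ) ^ w) * ‖y‖ := by
    have h4 : ∀ q ∈ (univ : Finset (Fin (w + 1) × Fin n0)), ‖(γ q : ℂ)‖
        ≤ 2 ^ (i + w) * (d : ℝ) ^ w * ‖y‖ := fun q _ => by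
      have hq : (q.1 : ℕ) ≤ w := Nat.lt_succ_iff.mp q.1.2
      have h5 : ((i + q.1).choose i : ℝ) ≤ 2 ^ (i + w) := by
        exact_mod_cast (Nat.choose_le_two_pow _ _).trans
          (Nat.pow_le_pow_right (by norm_num) (by omega))
      rw [Complex.norm_real, norm_mul, norm_mul, norm_pow, Real.norm_natCast, Real.norm_natCast]
      exact mul_le_mul (mul_le_mul h5 (pow_le_pow_right₀ hd' hq) (by positivity) (by positivity))
        (norm_le_pi_norm y q) (norm_nonneg _) (by positivity)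
    refine (sum_le_card_nsmul _ _ _ h4).trans_eq ?_
    rw [card_univ, Fintype.card_prod, Fintype.card_fin, Fintype.card_fin, nsmul_eq_mul]
    push_cast; ring
  refine key.trans ((mul_le_mul_of_nonneg_right h3 (by positivity)).trans_eq (by ring))

end ZDil

end

-- part PM
section

namespace ZDil
open Finset Polynomial ZOdd

noncomputable def pm_V (n : ℕ) : Submodule ℚ ℂ := Submodule.span ℚ
  {x : ℂ | ∃ j : ℕ, 1 ≤ j ∧ j ≤ n ∧ x = riemannZeta ((2 * j + 1 : ℕ) : ℂ)}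
theorem pm_fin (n : ℕ) : Module.Finite ℚ (pm_V n) := by
  refine Module.Finite.span_of_finite ℚ (((Set.finite_Iic n).image
    fun j : ℕ => riemannZeta ((2 * j + 1 : ℕ) : ℂ)).subset ?_)
  rintro x ⟨j, -, hj, rfl⟩
  exact ⟨j, hj, rfl⟩
theorem pm_one {n : ℕ} (hn : 1 ≤ n) : 1 ≤ Module.finrank ℚ (pm_V n) := by
  have := pm_fin n
  rw [Nat.one_le_iff_ne_zero, Ne, Submodule.finrank_eq_zero]
  intro h
  have hm : riemannZeta ((2 * 1 + 1 : ℕ) : ℂ) ∈ pm_V n := Submodule.subset_span ⟨1, le_rfl, hn, rfl⟩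
  rw [h, Submodule.mem_bot] at hm
  exact riemannZeta_ne_zero_of_one_lt_re (by rw [Complex.natCast_re]; norm_num) hm
theorem pm_le (n : ℕ) : Module.finrank ℚ (Lo (2 * n + 1)) ≤ 1 + Module.finrank ℚ (pm_V n) := by
  have := pm_fin n
  have hmap : (Lo (2 * n + 1)).map (Complex.ofRealAm.toLinearMap.restrictScalars ℚ) ≤
      Submodule.span ℚ {(1 : ℂ)} ⊔ pm_V n := by
    rw [Lo, Submodule.map_span_le]
    rintro x (rfl | ⟨j, ⟨i, rfl⟩, h3, hj, rfl⟩)
    · exact Submodule.mem_sup_left (Submodule.subset_span rfl)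
    · exact Submodule.mem_sup_right (Submodule.subset_span
        ⟨i, by omega, by omega, bridge_zr _ (by omega)⟩)
  have : Module.Finite ℚ (Submodule.span ℚ {(1 : ℂ)}) :=
    Module.Finite.span_of_finite ℚ (Set.finite_singleton _)
  rw [(Submodule.equivMapOfInjective (Complex.ofRealAm.toLinearMap.restrictScalars ℚ)
    Complex.ofReal_injective (Lo (2 * n + 1))).finrank_eq]
  refine (Submodule.finrank_mono hmap).trans
    ((Submodule.finrank_add_le_finrank_add_finrank _ _).trans ?_)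
  rw [finrank_span_singleton one_ne_zero]

theorem param (core : ∀ t D s : ℕ, 1 ≤ t → 4 * t ≤ s + 1 → Module.finrank ℚ (Lo s) < D * D →
      (t : ℝ) ≤ 50000 * (Module.finrank ℚ (Lo s) : ℝ) * D * (2 + Real.log s)) :
    ∃ c : ℝ, 0 < c ∧ ∀ n : ℕ, 2 ≤ n → c * ((n : ℝ) / Real.log n) ^ ((2 : ℝ) / 3) ≤
      Module.finrank ℚ (Submodule.span ℚ
        {x : ℂ | ∃ j : ℕ, 1 ≤ j ∧ j ≤ n ∧ x = riemannZeta ((2 * j + 1 : ℕ) : ℂ)}) := by
  refine ⟨1 / 40000, by norm_num, fun n hn => ?_⟩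
  change _ ≤ ((Module.finrank ℚ (pm_V n) : ℕ) : ℝ)
  have h1 := pm_one (n := n) (by omega)
  have h2 := pm_le n
  have hc := core ((n + 1) / 2) _ (2 * n + 1) (by omega) (by omega) (Nat.lt_succ_sqrt _)
  generalize Module.finrank ℚ (pm_V n) = d at h1 h2 ⊢
  generalize Module.finrank ℚ (Lo (2 * n + 1)) = δ at h2 hc
  have n2 : (2 : ℝ) ≤ n := by exact_mod_cast hn
  have l2 : 2 / 3 ≤ Real.log n :=
    le_trans (by linarith only [Real.log_two_gt_d9]) (Real.log_le_log two_pos n2)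
  have l3 : Real.log ((2 * n + 1 : ℕ) : ℝ) ≤ 3 * Real.log n := by
    have : 2 * n + 1 ≤ n ^ 3 := by nlinarith only [hn, Nat.mul_le_mul hn hn]
    have h := Real.log_le_log (by positivity) (Nat.cast_le (α := ℝ).2 this)
    rwa [Nat.cast_pow, Real.log_pow] at h
  have t1 : (n : ℝ) ≤ 2 * (((n + 1) / 2 : ℕ) : ℝ) := by exact_mod_cast (by omega : n ≤ 2 * ((n + 1) / 2))
  obtain ⟨r, hr0, hr⟩ : ∃ r : ℝ, 1 ≤ r ∧ r ^ 2 = d :=
    ⟨√d, Real.one_le_sqrt.2 (by exact_mod_cast h1), Real.sq_sqrt (Nat.cast_nonneg d)⟩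
  have d2 : (δ : ℝ) ≤ 2 * r ^ 2 := by rw [hr]; exact_mod_cast (by omega : δ ≤ 2 * d)
  have s1 : ((Nat.sqrt δ : ℕ) : ℝ) ≤ 2 * r := by
    have : ((Nat.sqrt δ : ℕ) : ℝ) ^ 2 ≤ δ := by exact_mod_cast Nat.sqrt_le' δ
    exact (abs_le_of_sq_le_sq' (by linarith only [this, d2, sq_nonneg r]) (by linarith only [hr0])).2
  have s2 : ((Nat.succ (Nat.sqrt δ) : ℕ) : ℝ) ≤ 3 * r := by
    rw [Nat.cast_succ]; linarith only [s1, hr0]
  have lp : 0 < Real.log n := by linarith only [l2]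
  have m1 : 50000 * (δ : ℝ) * (Nat.succ (Nat.sqrt δ) : ℕ) * (2 + Real.log ((2 * n + 1 : ℕ) : ℝ)) ≤
      50000 * (2 * r ^ 2) * (3 * r) * (6 * Real.log n) :=
    mul_le_mul (mul_le_mul (by linarith only [d2]) s2 (Nat.cast_nonneg _) (by positivity))
      (by linarith only [l2, l3]) (add_nonneg zero_le_two (Real.log_natCast_nonneg _)) (by positivity)
  have m2 : (n : ℝ) / Real.log n ≤ (200 * r) ^ 3 := by
    rw [div_le_iff₀ lp]
    have : 0 ≤ r ^ 3 * Real.log n := by positivity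
    linarith only [t1, hc, m1, this]
  have m3 := Real.rpow_le_rpow (by positivity) m2 (show (0 : ℝ) ≤ 2 / 3 by norm_num)
  rw [← Real.rpow_natCast, ← Real.rpow_mul (by positivity),
    show ((3 : ℕ) : ℝ) * (2 / 3) = (2 : ℕ) by norm_num, Real.rpow_natCast] at m3
  linarith only [m3, hr]

end ZDil

end

-- part CO
section

namespace ZDil

open Finset Polynomial ZOdd

theorem Lo_fd (s : ℕ) : FiniteDimensional ℚ (Lo s) :=
  FiniteDimensional.span_of_finite ℚ (Set.Finite.insert _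
    (((Set.finite_Iic s).image zr).subset (by
      rintro x ⟨j, -, -, h, rfl⟩
      exact ⟨j, h, rfl⟩)))

theorem Lo_one (s : ℕ) : (1 : ℝ) ∈ Lo s := Submodule.subset_span (Set.mem_insert _ _)

theorem Lo_pos (s : ℕ) : 1 ≤ Module.finrank ℚ (Lo s) := by
  have := Lo_fd s
  exact Module.finrank_pos_iff_exists_ne_zero.2
    ⟨⟨1, Lo_one s⟩, fun h => one_ne_zero (congrArg Subtype.val h)⟩

theorem Lo_gz (s k : ℕ) (h : k + 1 ≤ s) : gz k ∈ Lo s := by
  unfold gz
  split_ifs with hk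
  · have h1 : zr (k + 1) ∈ Lo s := Submodule.subset_span
      (Set.mem_insert_of_mem _ ⟨k + 1, hk.1.add_one, by omega, h, rfl⟩)
    rw [show -2 * zr (k + 1) = -(zr (k + 1) + zr (k + 1)) by ring]
    exact neg_mem (add_mem h1 h1)
  · exact zero_mem _

theorem Lo_dual (s : ℕ) : ∃ (φ : Fin (Module.finrank ℚ (Lo s)) → ℝ →ₗ[ℚ] ℚ)
    (θ : Fin (Module.finrank ℚ (Lo s)) → ℝ), ∀ x ∈ Lo s, ∑ l, θ l * (φ l x : ℝ) = x := by
  have := Lo_fd s
  let b := Module.finBasis ℚ (Lo s)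
  have hext : ∀ i, ∃ g : ℝ →ₗ[ℚ] ℚ, g.comp (Lo s).subtype = b.coord i :=
    fun i => LinearMap.exists_extend _
  choose ψ hψ using hext
  refine ⟨ψ, fun i => (b i : ℝ), fun x hx => ?_⟩
  have h2 := congrArg (fun v : Lo s => (v : ℝ)) (b.sum_repr ⟨x, hx⟩)
  simp only [AddSubmonoidClass.coe_finsetSum, SetLike.val_smul] at h2
  conv_rhs => rw [← h2]
  refine Finset.sum_congr rfl fun i _ => ?_
  have h3 : ψ i x = b.repr ⟨x, hx⟩ i := by
    have := congrArg (fun g : Lo s →ₗ[ℚ] ℚ => g ⟨x, hx⟩) (hψ i)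
    simpa using this
  rw [h3, Rat.smul_def, mul_comm]

theorem co_den {ι : Type} [Fintype ι] (r : ι → ℚ) : ∃ (d0 : ℕ) (C0 : ℝ), 1 ≤ d0 ∧ 1 ≤ C0 ∧
    ∀ i, (∃ z : ℤ, (d0 : ℝ) * (r i : ℝ) = z) ∧ |(r i : ℝ)| ≤ C0 := by
  classical
  refine ⟨∏ i, (r i).den, 1 + ∑ i, |(r i : ℝ)|, prod_pos fun i _ => (r i).den_pos,
    le_add_of_nonneg_right (sum_nonneg fun _ _ => abs_nonneg _), fun i => ⟨?_, ?_⟩⟩
  · obtain ⟨k, hk⟩ : (r i).den ∣ ∏ i, (r i).den := dvd_prod_of_mem _ (mem_univ i)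
    refine ⟨k * (r i).num, ?_⟩
    have : ((r i).den : ℝ) * (r i : ℝ) = (r i).num := by
      exact_mod_cast congrArg (fun x : ℚ => (x : ℝ)) (Rat.den_mul_eq_num (r i))
    rw [hk]
    push_cast
    rw [← this]
    ring
  · have := single_le_sum (f := fun i => |(r i : ℝ)|) (fun _ _ => abs_nonneg _) (mem_univ i)
    linarith

theorem co_small (w D T d i m n : ℕ) (hn : 1 ≤ n) (hd : d < D) (hi : i ≤ w) (hm : m ≤ 48 * D * n)
    (y : Fin (w + 1) × Fin n → ℝ)
    (hy : ∀ τ < T, ∑ q, y q * (τ.choose q.1 : ℝ) * ((q.2 : ℕ) : ℝ) ^ (τ - q.1) = 0) :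
    ((d + 1) * (24 * n) ≤ m → |∑ q, ent (fc 1 gz) (d + 1) i m q.1 (12 * n + q.2) * y q|
      ≤ (w + 1) * n * (2 ^ (w + w) * (D : ℝ) ^ w)
        * (2 * Real.exp (7 * (48 * D * n : ℕ)) * (1 / 3) ^ T) * ‖y‖) ∧
    |∑ q, ent bc (d + 1) i m q.1 (12 * n + q.2) * y q|
      ≤ (w + 1) * n * (2 ^ (w + w) * (D : ℝ) ^ w)
        * (2 * Real.exp (7 * (48 * D * n : ℕ)) * (1 / 3) ^ T) * ‖y‖ := by
  have h0 : ((w : ℝ) + 1) * n * (2 ^ (i + w) * ((d + 1 : ℕ) : ℝ) ^ w)
        * (2 * Real.exp (7 * (48 * D * n : ℕ)) * (1 / 3) ^ T) * ‖y‖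
      ≤ (w + 1) * n * (2 ^ (w + w) * (D : ℝ) ^ w)
        * (2 * Real.exp (7 * (48 * D * n : ℕ)) * (1 / 3) ^ T) * ‖y‖ := by
    have : ((d + 1 : ℕ) : ℝ) ≤ D := by exact_mod_cast hd
    gcongr
    norm_num
  obtain ⟨a, ha⟩ : ∃ a, a = (d + 1) * n := ⟨_, rfl⟩
  have ha1 : 1 ≤ a := ha ▸ Nat.mul_pos (Nat.succ_pos d) hn
  have haD : a ≤ D * n := ha ▸ Nat.mul_le_mul_right n hd
  have e1 : (d + 1) * (12 * n) = 12 * a := by rw [ha]; ring
  have e2 : (d + 1) * (6 * n) = 6 * a := by rw [ha]; ring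
  have e3 : (d + 1) * (24 * n) = 24 * a := by rw [ha]; ring
  have hz : ∀ z : ℂ, ‖z‖ = ((d + 1) * (6 * n) : ℕ) →
      ‖(((d + 1) * (12 * n) : ℕ) : ℂ) + z‖ ≤ (48 * D * n : ℕ) := fun z hz => by
    refine (norm_add_le _ _).trans ?_
    rw [hz, Complex.norm_natCast, e1, e2]
    exact_mod_cast (show 12 * a + 6 * a ≤ 48 * D * n by rw [mul_assoc]; omega)
  refine ⟨fun h => (small_ent (fc 1 gz) (fm m) w n T (d + 1) i m _ (Nat.succ_pos d) hn
    ((fm_diffOn m).mono fun z hz => ?_) (fun z hz' => fm_bound m _ hm _ ?_ ?_ (hz z hz'))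
    (fun j hj k => tc_fm _ m k ?_) y hy).trans h0,
    (small_ent bc (bn m) w n T (d + 1) i m _ (Nat.succ_pos d) hn (bn_diff m).1.differentiableOn
      (fun z hz' => bn_bound m _ hm _ (hz z hz')) (fun j _ k => tc_bn _ m k) y hy).trans h0⟩
  · rw [mem_ball_iff_norm, e1, e2] at hz
    have h1 := abs_lt.1 ((Complex.abs_re_le_norm _).trans_lt hz)
    have h2 : ((24 * a : ℕ) : ℝ) ≤ m := by exact_mod_cast e3 ▸ h
    have h3 : (1 : ℝ) ≤ a := by exact_mod_cast ha1
    simp only [Complex.sub_re, Complex.natCast_re] at h1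
    push_cast at h1 h2
    exact ⟨by linarith, by linarith⟩
  · have h1 := abs_le.1 ((Complex.abs_re_le_norm z).trans hz'.le)
    rw [e2] at h1
    rw [e1, Complex.add_re, Complex.natCast_re]
    push_cast at h1 ⊢
    linarith [(Nat.cast_nonneg a : (0 : ℝ) ≤ a)]
  · have h1 := abs_le.1 ((Complex.abs_re_le_norm z).trans hz'.le)
    have h2 : ((24 * a : ℕ) : ℝ) ≤ m := by exact_mod_cast e3 ▸ h
    have h3 : (1 : ℝ) ≤ a := by exact_mod_cast ha1
    rw [e2] at h1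
    rw [e1, Complex.add_re, Complex.natCast_re]
    push_cast at h1 h2 ⊢
    linarith
  · exact lt_of_lt_of_le (Nat.mul_lt_mul_of_pos_left (by omega) (Nat.succ_pos d)) h

theorem core (t D s : ℕ) (ht : 1 ≤ t) (hs : 4 * t ≤ s + 1) (hD : Module.finrank ℚ (Lo s) < D * D) :
    (t : ℝ) ≤ 50000 * (Module.finrank ℚ (Lo s) : ℝ) * D * (2 + Real.log s) := by
  classical
  obtain ⟨φ, θ, hθ⟩ := Lo_dual s
  have hδ := Lo_pos s
  generalize Module.finrank ℚ (Lo s) = δ at *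
  obtain ⟨w, hw⟩ : ∃ w, w + 1 = 2 * t := ⟨2 * t - 1, by omega⟩
  have hD1 : 1 ≤ D := Nat.pos_of_ne_zero fun h => by simp [h] at hD
  have hD1' : (1 : ℝ) ≤ D := by exact_mod_cast hD1
  let e : Fin δ → ℝ := fun l => φ l 1
  let g : Fin δ → ℕ → ℝ := fun l k => φ l (gz k)
  have he : ∑ l, θ l * e l = 1 := hθ 1 (Lo_one s)
  obtain ⟨d0, C0, hd0, hC0, hden⟩ := co_den fun p : Fin δ × Option (Fin (w + w + 1)) =>
    φ p.1 (p.2.elim 1 fun k => gz k)
  set c1 := δ * (w + 1) * 24 with hc1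
  set E1 : ℝ := 2 ^ (w + w) * (D : ℝ) ^ w * (C0 * (145 * D)) with hE1
  have hE1' : 1 ≤ E1 := one_le_mul_of_one_le_of_one_le (one_le_mul_of_one_le_of_one_le
    (one_le_pow₀ (by norm_num)) (one_le_pow₀ hD1'))
    (one_le_mul_of_one_le_of_one_le hC0 (by linarith))
  set κ : ℝ := ∑ l, |e l| with hκ
  have hκ0 : 0 ≤ κ := sum_nonneg fun _ _ => abs_nonneg _
  set A1 : ℝ := d0 * (c1 : ℝ) ^ 3 * E1 with hA1
  set A2 : ℝ := (w + 1) * (2 ^ (w + w) * (D : ℝ) ^ w) * 2 * κ with hA2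
  have hA1' : 0 ≤ A1 := by positivity
  have hA2' : 0 ≤ A2 := by positivity
  set Λ : ℝ := 2 + Real.log s with hΛ
  have hΛ2 : 2 ≤ Λ := le_add_of_nonneg_right (Real.log_natCast_nonneg s)
  suffices H : 0 ≤ c1 * (D * (288 * Λ + 24)) + t * (336 * D - t) by
    have h1 : (c1 : ℝ) = t * (48 * δ) := by
      rw [hc1, hw]; push_cast; ring
    have h2 : (0 : ℝ) < t := by exact_mod_cast ht
    have h3 : (1 : ℝ) ≤ δ := by exact_mod_cast hδ
    rw [h1, mul_assoc, ← mul_add] at H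
    have h4 := nonneg_of_mul_nonneg_right H h2
    have h5 : (D : ℝ) ≤ δ * D := le_mul_of_one_le_left (by linarith) h3
    have h6 : 2 * (δ * D : ℝ) ≤ Λ * (δ * D) := by gcongr
    linarith
  refine asym (A1 + A2 + 1) _ (4 * c1 + t) (Fintype.card (IC δ w ⊕ IR D w)
    * Fintype.card (IC δ w ⊕ IR D w) + Fintype.card (IC δ w ⊕ IR D w) + 1) (by linarith)
    fun n hn hn1 => ?_
  have hnR : (1 : ℝ) ≤ n := by exact_mod_cast hn1
  have : Nonempty (IC δ w × Fin (24 * n)) := ⟨((⟨0, hδ⟩, 0), ⟨0, by omega⟩)⟩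
  let LM : Matrix (Fin (t * n)) (Fin (w + 1) × Fin n) ℝ :=
    Matrix.of fun τ q => ((τ : ℕ).choose q.1 : ℝ) * ((q.2 : ℕ) : ℝ) ^ (τ - q.1 : ℕ)
  let JM : Matrix (IC δ w × Fin (24 * n)) (Fin (w + 1) × Fin n) ℝ :=
    Matrix.of fun q p => if (q.1.2, q.2) = (p.1, ⟨12 * n + p.2, by omega⟩) then θ q.1.1 else 0
  have hJ : ∀ (F : IC δ w × Fin (24 * n) → ℝ) y, ∑ q, F q * JM.mulVecLin y q
      = ∑ p, (∑ l, θ l * F ((l, p.1), ⟨12 * n + p.2, by omega⟩)) * y p := by
    intro F y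
    simp only [Matrix.mulVecLin_apply, Matrix.mulVec, dotProduct, JM, Matrix.of_apply, mul_sum,
      sum_mul]
    rw [sum_comm]
    refine sum_congr rfl fun p _ => ?_
    rw [← Equiv.sum_comp (Equiv.prodAssoc _ _ _).symm, Fintype.sum_prod_type]
    refine sum_congr rfl fun l _ => ?_
    rw [sum_eq_single (p.1, ⟨12 * n + p.2, by omega⟩)]
    · simp only [Equiv.prodAssoc_symm_apply, if_true]; ring
    · intro q _ hq
      simp only [Equiv.prodAssoc_symm_apply, if_neg hq, zero_mul, mul_zero]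
    · simp
  have hβ : Fintype.card (IC δ w × Fin (24 * n)) = c1 * n := by
    simp only [Fintype.card_prod, Fintype.card_fin, hc1]; ring
  have h2n : (1 : ℝ) ≤ 2 ^ (24 * D * n) := one_le_pow₀ (by norm_num)
  have key := det_scaled (α := {p : ℕ × ℕ × ℕ × Bool // p.1 < D ∧ p.2.1 ≤ w ∧ p.2.2.1 ≤ 48 * D * n
      ∧ (p.2.2.2 = true → (p.1 + 1) * (24 * n) ≤ p.2.2.1)}) (β := IC δ w × Fin (24 * n))
    (fun p q => cond p.1.2.2.2 (ent (fc (e q.1.1) (g q.1.1)) (p.1.1 + 1) p.1.2.1 p.1.2.2.1 q.1.2 q.2)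
      (e q.1.1 * ent bc (p.1.1 + 1) p.1.2.1 p.1.2.2.1 q.1.2 q.2))
    (fun _ => d0 * DD (48 * D * n) (w + w + 1)) (fun _ => Nat.mul_pos hd0 (DD_pos _ _)) (by
      rintro ⟨⟨d, i, m, b⟩, h1, h2, h3, -⟩ ⟨⟨l, v⟩, ν⟩
      have := ent_den (e l) (g l) d0 (w + w + 1) _ (hden (l, none)).1
        (fun k hk => (hden (l, some ⟨k, hk⟩)).1) (d + 1) i m v ν h3 (by
          have := v.2; simp only at h2; omega)
      cases b
      exacts [this.2, this.1]) (E1 * n * 2 ^ (24 * D * n))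
    (one_le_mul_of_one_le_of_one_le (one_le_mul_of_one_le_of_one_le hE1' hnR) h2n) (by
      rintro ⟨⟨d, i, m, b⟩, h1, h2, h3, -⟩ ⟨⟨l, v⟩, ν⟩
      have hv := v.2
      have hν := ν.2
      simp only at h1 h2 h3
      have h4 := ent_size (e l) (g l) C0 (w + w + 1) (hden (l, none)).2
        (fun k hk => (hden (l, some ⟨k, hk⟩)).2) (d + 1) i m v ν (by omega)
      have h5 : (2 : ℝ) ^ (i + v) * ((d + 1 : ℕ) : ℝ) ^ (v : ℕ) * 2 ^ ((d + 1) * ν)
          * (C0 * (3 * m + 1)) ≤ E1 * n * 2 ^ (24 * D * n) := by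
        have h6 : ((d + 1 : ℕ) : ℝ) ≤ D := by exact_mod_cast h1
        have h7 : (3 * m + 1 : ℝ) ≤ 145 * D * n := by
          have := Nat.mul_pos hD1 hn1
          exact_mod_cast (show 3 * m + 1 ≤ 145 * D * n by rw [mul_assoc] at h3 ⊢; omega)
        have h8 : (d + 1) * ν ≤ 24 * D * n :=
          (Nat.mul_le_mul h1 hν.le).trans (le_of_eq (by ring))
        calc _ ≤ (2 : ℝ) ^ (w + w) * (D : ℝ) ^ w * 2 ^ (24 * D * n) * (C0 * (145 * D * n)) := by
              gcongr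
              · norm_num
              · omega
              · exact (pow_le_pow_left₀ (by positivity) h6 _).trans
                  (pow_le_pow_right₀ hD1' (by omega))
              · norm_num
          _ = _ := by rw [hE1]; ring
      cases b
      exacts [h4.2.trans h5, h4.1.trans h5]) (LinearMap.ker LM.mulVecLin) JM.mulVecLin (t * n) (by
      have h1 := LinearMap.finrank_range_add_finrank_ker LM.mulVecLin
      have h2 := Submodule.finrank_le (LinearMap.range LM.mulVecLin)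
      simp only [Module.finrank_fintype_fun_eq_card, Fintype.card_prod, Fintype.card_fin] at h1 h2
      have h3 : (w + 1) * n = 2 * (t * n) := by rw [hw]; ring
      omega) ((w + 1) * n * (2 ^ (w + w) * (D : ℝ) ^ w)
        * (2 * Real.exp (7 * (48 * D * n : ℕ)) * (1 / 3) ^ (t * n))) κ (by positivity) hκ0 (by
      rintro y hy ⟨⟨d, i, m, b⟩, h1, h2, h3, h4⟩
      have h5 := co_small w D (t * n) d i m n hn1 h1 h2 h3 y fun τ hτ => by
        refine Eq.trans (sum_congr rfl fun q _ => ?_) (congrFun (LinearMap.mem_ker.1 hy) ⟨τ, hτ⟩)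
        simp only [LM, Matrix.of_apply]
        ring
      rw [hJ]
      cases b
      · refine le_of_eq_of_le (congrArg _ (sum_congr rfl fun p _ => congrArg (· * _) ?_)) h5.2
        simp only [cond_false, ← mul_assoc, ← sum_mul, he, one_mul]
      · refine le_of_eq_of_le (congrArg _ (sum_congr rfl fun p _ => congrArg (· * _) ?_))
          (h5.1 (h4 rfl))
        simp only [cond_true]
        exact ent_sum θ e g gz (w + w + 1) he (fun k hk => hθ _ (Lo_gz s k (by omega))) (d + 1) i m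
          p.1 (12 * n + p.2) (by have := p.1.2; simp only at h2; omega)) (by
      intro y _ z hz
      refine (pi_norm_le_iff_of_nonneg (by positivity)).2 fun p => ?_
      have h1 := trans δ w w D D (24 * n) e g hD1 hD1 (by
          rw [mul_assoc, mul_comm]; exact Nat.mul_lt_mul_of_pos_left hD (Nat.succ_pos w))
        (by omega) z (fun d hd i hi m h1 h2 => hz ⟨(d, i, m, true), hd, hi, ?_, fun _ => h1⟩)
        (fun d hd i hi m h2 => hz ⟨(d, i, m, false), hd, hi, ?_, fun h => by cases h⟩)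
        p.1 ⟨12 * n + p.2, by omega⟩
      · have h2 : ∀ l, JM.mulVecLin y ((l, p.1), ⟨12 * n + p.2, by omega⟩) = θ l * y p := fun l => by
          simp only [Matrix.mulVecLin_apply, Matrix.mulVec, dotProduct, JM, Matrix.of_apply]
          rw [sum_eq_single p, if_pos rfl]
          · intro q _ hq
            rw [if_neg, zero_mul]
            simp only [Prod.mk.injEq, Fin.mk.injEq]
            exact fun h => hq (Prod.ext h.1.symm (Fin.ext (by omega)))
          · simp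
        have h3 : y p = ∑ l, e l * (JM.mulVecLin y - z) ((l, p.1), ⟨12 * n + p.2, by omega⟩) := by
          simp only [Pi.sub_apply, mul_sub, sum_sub_distrib, h1, h2, sub_zero, ← mul_assoc,
            ← sum_mul]
          simp only [mul_comm (e _), he, one_mul]
        rw [h3, hκ, sum_mul]
        refine norm_sum_le_of_le _ fun l _ => ?_
        rw [norm_mul]
        exact mul_le_mul_of_nonneg_left (norm_le_pi_norm _ _) (abs_nonneg _)
      all_goals exact h2.le.trans ((Nat.mul_le_mul_right _ (show d + 1 + D ≤ 2 * D by omega)).trans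
          (le_of_eq (by ring))))
  refine key.trans ?_
  rw [prod_const, card_univ, hβ, ← mul_pow]
  set C := A1 + A2 + 1 with hC
  have e1 : ((d0 * DD (48 * D * n) (w + w + 1) : ℕ) : ℝ)
        * (((c1 * n : ℕ) : ℝ) ^ 3 * (E1 * n * 2 ^ (24 * D * n)))
      ≤ (C * n) ^ 4 * Real.exp (D * (288 * Λ + 24) * n) := by
    have h1 : A1 ≤ C ^ 4 := (show A1 ≤ C by linarith).trans
      (le_self_pow₀ (by linarith) (by norm_num))
    have h2 : (DD (48 * D * n) (w + w + 1) : ℝ) ≤ Real.exp (288 * D * n * Λ) := by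
      refine (DD_le _ _ (by omega)).trans (Real.exp_le_exp.2 ?_)
      have h3 : Real.log ((w + w + 1 : ℕ) : ℝ) ≤ Real.log s :=
        Real.log_le_log (by positivity) (by exact_mod_cast (by omega : w + w + 1 ≤ s))
      calc _ ≤ 6 * ((48 * D * n : ℕ) : ℝ) * Λ := by rw [hΛ]; gcongr
        _ = _ := by push_cast; ring
    have h3 : (2 : ℝ) ^ (24 * D * n) ≤ Real.exp ((24 * D * n : ℕ) : ℝ) := by
      rw [← Real.exp_one_pow]
      exact pow_le_pow_left₀ (by norm_num) (by linarith [Real.add_one_le_exp 1]) _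
    calc _ = A1 * (n : ℝ) ^ 4 * (DD (48 * D * n) (w + w + 1) * 2 ^ (24 * D * n)) := by
          rw [hA1]; push_cast; ring
      _ ≤ C ^ 4 * (n : ℝ) ^ 4 * (Real.exp (288 * D * n * Λ) * Real.exp ((24 * D * n : ℕ) : ℝ)) := by
          gcongr
      _ = _ := by rw [← Real.exp_add, mul_pow]; congr 2; push_cast; ring
  have e2 : ((w : ℝ) + 1) * n * (2 ^ (w + w) * (D : ℝ) ^ w)
        * (2 * Real.exp (7 * (48 * D * n : ℕ)) * (1 / 3) ^ (t * n)) * κ
      ≤ C * n * Real.exp ((336 * D - t) * n) := by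
    have h1 : (1 / 3 : ℝ) ^ (t * n) ≤ Real.exp (-((t * n : ℕ) : ℝ)) := by
      rw [← mul_neg_one, Real.exp_nat_mul, Real.exp_neg, ← one_div]
      gcongr
      linarith [Real.exp_one_lt_d9]
    calc _ = A2 * n * (Real.exp (7 * (48 * D * n : ℕ)) * (1 / 3) ^ (t * n)) := by rw [hA2]; ring
      _ ≤ C * n * (Real.exp (7 * (48 * D * n : ℕ)) * Real.exp (-((t * n : ℕ) : ℝ))) := by
          gcongr
          linarith
      _ = _ := by rw [← Real.exp_add]; congr 2; push_cast; ring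
  calc _ ≤ ((C * n) ^ 4 * Real.exp (D * (288 * Λ + 24) * n)) ^ (c1 * n)
        * (C * n * Real.exp ((336 * D - t) * n)) ^ (t * n) := by gcongr
    _ = _ := by
      rw [mul_pow, mul_pow (C * n), ← pow_mul, ← Real.exp_nat_mul, ← Real.exp_nat_mul,
        mul_mul_mul_comm, ← pow_add, ← Real.exp_add]
      congr 2
      · ring
      · push_cast; ring

theorem main : ∃ c : ℝ, 0 < c ∧ ∀ n : ℕ, 2 ≤ n → c * ((n : ℝ) / Real.log n) ^ ((2 : ℝ) / 3) ≤
    Module.finrank ℚ (Submodule.span ℚ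
      {x : ℂ | ∃ j : ℕ, 1 ≤ j ∧ j ≤ n ∧ x = riemannZeta ((2 * j + 1 : ℕ) : ℂ)}) :=
  param core

end ZDil

end

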